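import Pool.Agent.Lib.MP_19e880_co_DB.Five

/-!
Exactness in degree 2 for subgraphs of a sphere of rank 5.
-/

set_option autoImplicit false
set_option linter.unusedSectionVars false

namespace Pool.Agent.MP19e880.DB

open Pool.Agent.MP19e880 Pool.Agent.MP19e880.W1 Pool.Agent.MP19e880.LD

variable {V : Type} [Fintype V] [LinearOrder V] {k : Type} [Field k]

private theorem Cla_nh_sub {A : V → V → Prop} {T X : Finset V} {x : V} (h : T ⊆ X) :
    nh A T x ⊆ nh A X x := by
  intro w hw
  obtain ⟨h1, h2, h3⟩ := AddvAux.mem_nh.mp hw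
  exact AddvAux.mem_nh.mpr ⟨h h1, h2, h3⟩

/-- Delete the vertices outside `Γ` one by one from the whole (`EX_del`, `hv_zero`), then the
vertices of `Γ \ Y`: let `x` be one of them and `T` the remaining set, `T ⊆ Γ`. If the alternating
sum of the link of `x` vanishes: `hv_zero`. Otherwise `few_deg` with `j = 1` for
`nh (ad S) T x ⊆ nh (ad S) Γ x`. -/
theorem del_two {S : Finset (Finset V)} (h : HS k S 5) (hG : ∀ n, GV k (ad S) (lv S ∅) n)
    {Γ : Finset V} (hΓ : Γ ⊆ lv S ∅)
    (h0 : ∀ v ∈ lv S ∅, v ∉ Γ → ∑ F ∈ lkF S {v}, (-2 : ℤ) ^ (4 - F.card) = 0)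
    (h1 : ∀ v ∈ Γ, ∑ F ∈ lkF S {v}, (-2 : ℤ) ^ (4 - F.card) = 0 ∨
      ∀ c ∈ nh (ad S) Γ v, (nh (ad S) (nh (ad S) Γ v) c).card ≤ 2)
    {Y : Finset V} (hY : Y ⊆ Γ) : EX (gen k (ad S)) (ad S) (lv S ∅) Y 2 := by
  classical
  have hgz : ∀ a ∈ lv S ∅, ∀ b ∈ lv S ∅, a ≠ b → ad S a b → gen k (ad S) a b = 0 :=
    fun a _ b _ _ hab => gen_zero k hab
  -- deleting one vertex `x` from `insert x T`
  have step : ∀ (x : V) (T : Finset V), x ∈ lv S ∅ → x ∉ T → T ⊆ lv S ∅ →
      (∑ F ∈ lkF S {x}, (-2 : ℤ) ^ (4 - F.card) = 0 ∨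
        ∀ c ∈ nh (ad S) T x, (nh (ad S) (nh (ad S) T x) c).card ≤ 2) →
      EX (gen k (ad S)) (ad S) (lv S ∅) (insert x T) 2 →
      EX (gen k (ad S)) (ad S) (lv S ∅) T 2 := by
    intro x T hx hxT hT hor hE
    refine EX_del (ad_symm S) hgz hx hxT hT hE ?_
    rcases hor with hz | hd
    · exact hv_EX (hv_zero h hx hz) (Cla_nh_sub hT) (le_refl 2)
    · refine (few_deg (j := 1) (ad_symm S) (gn_gen S (nh (ad S) T x)) ?_).mono (Cla_nh_sub hT)
      intro c hc
      have := hd c hc
      omega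
  -- phase 1
  have p1 : ∀ Z : Finset V, Z ⊆ lv S ∅ \ Γ →
      EX (gen k (ad S)) (ad S) (lv S ∅) (lv S ∅ \ Z) 2 := by
    intro Z
    induction Z using Finset.induction_on with
    | empty =>
      intro _
      rw [Finset.sdiff_empty]
      exact fun M _ _ ψ φ hR => hG 3 M ψ φ hR 2 (by norm_num)
    | insert x Z hxZ ih =>
      intro hZ
      have hx := Finset.mem_sdiff.mp (hZ (Finset.mem_insert_self x Z))
      have hE := ih (fun w hw => hZ (Finset.mem_insert_of_mem hw))
      have he : insert x (lv S ∅ \ insert x Z) = lv S ∅ \ Z := by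
        ext w
        simp only [Finset.mem_insert, Finset.mem_sdiff, not_or]
        constructor
        · rintro (rfl | ⟨h3, _, h4⟩)
          · exact ⟨hx.1, hxZ⟩
          · exact ⟨h3, h4⟩
        · rintro ⟨h3, h4⟩
          by_cases hwx : w = x
          · exact Or.inl hwx
          · exact Or.inr ⟨h3, hwx, h4⟩
      refine step x _ hx.1 (fun hw => (Finset.mem_sdiff.mp hw).2 (Finset.mem_insert_self x Z))
        Finset.sdiff_subset (Or.inl (h0 x hx.1 hx.2)) ?_
      rw [he]
      exact hE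
  -- phase 2
  have p2 : ∀ Z : Finset V, Z ⊆ Γ \ Y →
      EX (gen k (ad S)) (ad S) (lv S ∅) (Γ \ Z) 2 := by
    intro Z
    induction Z using Finset.induction_on with
    | empty =>
      intro _
      have h2 := p1 (lv S ∅ \ Γ) (Finset.Subset.refl _)
      rw [Finset.sdiff_sdiff_eq_self hΓ] at h2
      rw [Finset.sdiff_empty]
      exact h2
    | insert x Z hxZ ih =>
      intro hZ
      have hx := Finset.mem_sdiff.mp (hZ (Finset.mem_insert_self x Z))
      have hE := ih (fun w hw => hZ (Finset.mem_insert_of_mem hw))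
      have he : insert x (Γ \ insert x Z) = Γ \ Z := by
        ext w
        simp only [Finset.mem_insert, Finset.mem_sdiff, not_or]
        constructor
        · rintro (rfl | ⟨h3, _, h4⟩)
          · exact ⟨hx.1, hxZ⟩
          · exact ⟨h3, h4⟩
        · rintro ⟨h3, h4⟩
          by_cases hwx : w = x
          · exact Or.inl hwx
          · exact Or.inr ⟨h3, hwx, h4⟩
      have hTΓ : Γ \ insert x Z ⊆ Γ := Finset.sdiff_subset
      refine step x _ (hΓ hx.1)
        (fun hw => (Finset.mem_sdiff.mp hw).2 (Finset.mem_insert_self x Z))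
        (hTΓ.trans hΓ) ?_ ?_
      · rcases h1 x hx.1 with hz | hd
        · exact Or.inl hz
        · refine Or.inr fun c hc => ?_
          refine (Finset.card_le_card ?_).trans (hd c (Cla_nh_sub hTΓ hc))
          exact Cla_nh_sub (Cla_nh_sub hTΓ)
      · rw [he]
        exact hE
  have h3 := p2 (Γ \ Y) (Finset.Subset.refl _)
  rwa [Finset.sdiff_sdiff_eq_self hY] at h3

end Pool.Agent.MP19e880.DB
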