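import Pool.Agent.Lib.MP_19e880_co_DB.Five

/-!
Exactness in degree 3 for a sphere of rank 6.
-/

set_option autoImplicit false
set_option linter.unusedSectionVars false

namespace Pool.Agent.MP19e880.DB

open Pool.Agent.MP19e880 Pool.Agent.MP19e880.W1 Pool.Agent.MP19e880.LD

variable {V : Type} [Fintype V] [LinearOrder V] {k : Type} [Field k]

private theorem nh_mono3 {A : V → V → Prop} {T X : Finset V} {x : V} (h : T ⊆ X) :
    nh A T x ⊆ nh A X x := by
  intro w hw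
  obtain ⟨h1, h2, h3⟩ := AddvAux.mem_nh.mp hw
  exact AddvAux.mem_nh.mpr ⟨h h1, h2, h3⟩

/-- `EX` for subsets of a vertex link, from the standalone link (as `hv_lk`). -/
theorem EX_lk {S : Finset (Finset V)} {d : ℕ} (h : HS k S d) {v : V} (hv : v ∈ lv S ∅)
    {Y : Finset V} {j : ℕ}
    (hE : EX (gen k (ad (lkF S {v}))) (ad (lkF S {v})) (lv (lkF S {v}) ∅) Y j)
    (hY : Y ⊆ lv (lkF S {v}) ∅) :
    EX (gen k (ad S)) (ad S) (nh (ad S) (lv S ∅) v) Y j := by
  have hv' : ({v} : Finset V) ∈ S := (mem_lv0 v).mp hv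
  rw [lv_lkF h {v} hv'] at hE hY
  rw [nh_lv h hv]
  intro M _ _ ψ φ hR
  rw [← cl_congr (A := ad (lkF S {v})) (A' := ad S) (X := Y)
    (fun a ha b hb _ => ad_lkF h {v} hv' a b (hY ha) (hY hb))]
  refine hE M ψ φ ⟨hR.sq, ?_, hR.one, hR.zer, hR.psq, hR.pac⟩
  intro u hu w hw huw x
  rw [gen_congr k (ad_lkF h {v} hv' u w hu hw)]
  exact hR.ac u hu w hw huw x

/-- The neighbours of a vertex `v` of a sphere of rank `d ≥ 5`, if the alternating sums of all links
of rank 4 inside the link of `v` vanish: `LD.ld` with `p = 1` for the link, and `hv_lk`. -/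
theorem hv_zero_six {S : Finset (Finset V)} {d : ℕ} (h : HS k S d) (hd : 5 ≤ d) {v : V}
    (hv : v ∈ lv S ∅)
    (h0 : ∀ σ ∈ S, v ∈ σ → σ.card + 4 = d → ∑ F ∈ lkF S σ, (-2 : ℤ) ^ (4 - F.card) = 0) :
    HV (gen k (ad S)) (ad S) (nh (ad S) (lv S ∅) v) 2 := by
  have hv' : ({v} : Finset V) ∈ S := (mem_lv0 v).mp hv
  have h' := hs_lk h {v} hv'
  rw [Finset.card_singleton] at h'
  refine hv_lk h hv (ld (p := 1) le_rfl (d - 1) (lkF S {v}) h' ⟨?_, ?_⟩).1
  · intro σ hσ hc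
    exact red_gv (Cert.low (d - 1 - σ.card) _ _ (by omega) (by omega)) (hs_lk h' σ hσ)
  · intro σ hσ hc
    obtain ⟨h1, h2, h3⟩ := lkF_lkF h hv' hσ
    rw [Finset.card_singleton] at h3
    rw [h1]
    exact h0 (σ ∪ {v}) h2 (Finset.mem_union_right σ (Finset.mem_singleton_self v)) (by omega)

/-- Build up `Γ` vertex by vertex (`EX_add`, `hΓ2`), then add the other vertices (`EX_add`, `h0`). -/
theorem add_three {S : Finset (Finset V)} {d : ℕ} (h : HS k S d) {Γ : Finset V}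
    (hΓ : Γ ⊆ lv S ∅)
    (hΓ2 : ∀ v ∈ Γ, ∀ Y : Finset V, Y ⊆ Γ → Y ⊆ nh (ad S) (lv S ∅) v →
      EX (gen k (ad S)) (ad S) (nh (ad S) (lv S ∅) v) Y 2)
    (h0 : ∀ v ∈ lv S ∅, v ∉ Γ → HV (gen k (ad S)) (ad S) (nh (ad S) (lv S ∅) v) 2) :
    EX (gen k (ad S)) (ad S) (lv S ∅) (lv S ∅) 3 := by
  classical
  have hgz : ∀ a ∈ lv S ∅, ∀ b ∈ lv S ∅, a ≠ b → ad S a b → gen k (ad S) a b = 0 :=
    fun a _ b _ _ hab => gen_zero k hab
  have hA : ∀ T : Finset V, T ⊆ Γ → EX (gen k (ad S)) (ad S) (lv S ∅) T 3 := by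
    intro T
    induction T using Finset.induction_on with
    | empty => exact fun _ => EX_empty (by norm_num)
    | insert x T hx ih =>
      intro hT
      have hxΓ : x ∈ Γ := hT (Finset.mem_insert_self x T)
      have hTΓ : T ⊆ Γ := fun w hw => hT (Finset.mem_insert_of_mem hw)
      refine EX_add (ad_symm S) hgz (hΓ hxΓ) hx (hTΓ.trans hΓ) (ih hTΓ) ?_
      exact hΓ2 x hxΓ _ (fun w hw => hTΓ (AddvAux.mem_nh.mp hw).1) (nh_mono3 (hTΓ.trans hΓ))
  have hB : ∀ T : Finset V, T ⊆ lv S ∅ \ Γ →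
      EX (gen k (ad S)) (ad S) (lv S ∅) (Γ ∪ T) 3 := by
    intro T
    induction T using Finset.induction_on with
    | empty =>
      intro _
      rw [Finset.union_empty]
      exact hA Γ (Finset.Subset.refl Γ)
    | insert x T hx ih =>
      intro hT
      obtain ⟨hxX, hxΓ⟩ := Finset.mem_sdiff.mp (hT (Finset.mem_insert_self x T))
      have hTX : T ⊆ lv S ∅ \ Γ := fun w hw => hT (Finset.mem_insert_of_mem hw)
      have hsub : Γ ∪ T ⊆ lv S ∅ :=
        Finset.union_subset hΓ fun w hw => (Finset.mem_sdiff.mp (hTX hw)).1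
      rw [Finset.union_insert]
      refine EX_add (ad_symm S) hgz hxX ?_ hsub (ih hTX) ?_
      · intro hmem
        rcases Finset.mem_union.mp hmem with h1 | h1
        · exact hxΓ h1
        · exact hx h1
      · exact hv_EX (h0 x hxX hxΓ) (nh_mono3 hsub) le_rfl
  have hfin := hB (lv S ∅ \ Γ) (Finset.Subset.refl _)
  rwa [Finset.union_sdiff_of_subset hΓ] at hfin

end Pool.Agent.MP19e880.DB
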