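import Pool.Agent.Lib.MP_19e880_co_DB.Deg
import Pool.Agent.Lib.MP_19e880_co_DB.Cla
import Pool.Agent.Lib.MP_19e880_co_DB.Clb
import Pool.Agent.Lib.MP_19e880_co_LD.Sg

/-!
Spheres of rank 6 with second entry at most 2.
-/

set_option autoImplicit false
set_option linter.unusedSectionVars false

namespace Pool.Agent.MP19e880.DB

open Pool.Agent.MP19e880 Pool.Agent.MP19e880.W1 Pool.Agent.MP19e880.LD Pool.Agent.MP19e880.FV

variable {V : Type} [Fintype V] [LinearOrder V] {k : Type} [Field k]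

private theorem A6_mono {S : Finset (Finset V)} {d : ℕ} (h : HS k S d)
    {g : Finset V → ℕ → ℤ} (hg : G3.GV S d g) : ∀ (n : ℕ) (σ τ : Finset V), σ ⊆ τ → τ ∈ S →
      (τ \ σ).card = n → τ.card + 4 ≤ d → g τ 2 ≤ g σ 2 := by
  have hE := TT.eul_of_hs h
  have hLm := G2.lemmaL (fam h hE)
  intro n
  induction n with
  | zero =>
    intro σ τ hσ _ hn _
    have h1 : τ ⊆ σ := by
      rw [← Finset.sdiff_eq_empty_iff_subset]
      exact Finset.card_eq_zero.mp hn
    rw [Finset.Subset.antisymm hσ h1]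
  | succ n ih =>
    intro σ τ hσ hτ hn hd
    obtain ⟨v, hv⟩ : (τ \ σ).Nonempty := by
      rw [← Finset.card_pos]
      omega
    rw [Finset.mem_sdiff] at hv
    have hτ' : τ.erase v ∈ S := hE.down τ hτ _ (Finset.erase_subset _ _)
    have hc : (τ.erase v).card + 1 = τ.card := Finset.card_erase_add_one hv.1
    have hvl : v ∈ lv S (τ.erase v) := by
      rw [mem_lv, Finset.insert_erase hv.1]
      exact ⟨Finset.notMem_erase _ _, hτ⟩
    have h1 := ih σ (τ.erase v) (Finset.subset_erase.mpr ⟨hσ, hv.2⟩) hτ' (by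
      rw [Finset.erase_sdiff_comm, Finset.card_erase_of_mem (Finset.mem_sdiff.mpr hv), hn]
      omega) (by omega)
    have h2 := G3.mono h hE hLm hg (τ.erase v) hτ' (d - (τ.erase v).card) (by omega) (by omega)
      v hvl
    rw [Finset.insert_erase hv.1] at h2
    linarith

/-- Monotonicity of the second entry for arbitrary faces (`Sg_mono` in `LD.Sg`). -/
theorem mono_face {S : Finset (Finset V)} {d : ℕ} (h : HS k S d) {g : Finset V → ℕ → ℤ}
    (hg : G3.GV S d g) {σ τ : Finset V} (hστ : σ ⊆ τ) (hτ : τ ∈ S) (hd : τ.card + 4 ≤ d) :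
    g τ 2 ≤ g σ 2 :=
  A6_mono h hg _ σ τ hστ hτ rfl hd

private theorem A6_nonneg {S : Finset (Finset V)} {d : ℕ} (h : HS k S d) {g : Finset V → ℕ → ℤ}
    (hg : G3.GV S d g) {σ : Finset V} (hσ : σ ∈ S) (he : σ.card + 4 ≤ d) : 0 ≤ g σ 2 := by
  have hE := TT.eul_of_hs h
  exact G3.nonneg h hE (G2.lemmaL (fam h hE)) hg σ hσ (d - σ.card) (by omega) (by omega)

/-- A face with four vertices less than the rank which contains a vertex with second entry zero. -/
private theorem A6_zero {S : Finset (Finset V)} {d : ℕ} (h : HS k S d) {g : Finset V → ℕ → ℤ}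
    (hg : G3.GV S d g) {σ : Finset V} (hσ : σ ∈ S) (he : σ.card + 4 = d) {v : V} (hv : v ∈ σ)
    (hv0 : g {v} 2 ≤ 0) : ∑ F ∈ lkF S σ, (-2 : ℤ) ^ (4 - F.card) = 0 := by
  have h1 := (top_lk h hg hσ 2 (by omega)).2
  rw [show 2 * 2 = 4 from rfl] at h1
  refine h1 ?_
  have h2 := mono_face h hg (Finset.singleton_subset_iff.mpr hv) hσ (by omega)
  have h3 := A6_nonneg h hg hσ (by omega)
  omega

/-- `del_two` for the link of `v`, with `Γ` the set of the neighbours `a` of `v` with `g {a} 2 = 1`: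
all `GV` by `five_lk`; for `a` not in `Γ` one has `g {v, a} 2 ≤ g {a} 2 = 0` (`top_lk` with `m = 2`);
for `a ∈ Γ` either `g {v, a} 2 = 0` or `deg_two` with `r = v`, `s = a` and `Z` the set of the
neighbours in question. -/
theorem cl_one {S : Finset (Finset V)} (h : HS k S 6) {g : Finset V → ℕ → ℤ}
    (hg : G3.GV S 6 g) (h2 : g ∅ 2 = 2) (h1 : ∀ v ∈ lv S ∅, g {v} 2 ≤ 1) {v : V}
    (hv : v ∈ lv S ∅) (hv1 : g {v} 2 = 1) {Y : Finset V} (hY : Y ⊆ nh (ad S) (lv S ∅) v)
    (hY1 : ∀ a ∈ Y, g {a} 2 = 1) :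
    EX (gen k (ad S)) (ad S) (nh (ad S) (lv S ∅) v) Y 2 := by
  classical
  have hvS : ({v} : Finset V) ∈ S := (mem_lv0 v).mp hv
  have hL : HS k (lkF S {v}) 5 := by
    have h3 := hs_lk h {v} hvS
    rwa [Finset.card_singleton] at h3
  have hYL : Y ⊆ lv (lkF S {v}) ∅ := by
    rw [lv_lkF h {v} hvS, ← nh_lv h hv]
    exact hY
  refine EX_lk h hv ?_ hYL
  -- the vertices of the link
  have hlk : ∀ a ∈ lv (lkF S {v}) ∅, a ≠ v ∧ ({a} : Finset V) ∈ lkF S {v} ∧
      ({v, a} : Finset V) ∈ S ∧ ({a} : Finset V) ∈ S ∧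
      lkF (lkF S {v}) {a} = lkF S {v, a} := by
    intro a ha
    have h3 := (mem_lv0 a).mp ha
    obtain ⟨h4, h5, _⟩ := lkF_lkF h hvS h3
    obtain ⟨h6, _⟩ := (HslkAux.mem_lk h {v} {a}).mp h3
    have h7 : ({a} : Finset V) ∪ {v} = {v, a} := by
      rw [Finset.union_comm]
      rfl
    rw [h7] at h4 h5
    refine ⟨?_, h3, h5, h.down _ h5 _ (by simp), h4⟩
    rw [Finset.disjoint_singleton] at h6
    exact h6
  refine del_two hL (five_lk h hg hvS (by simp) (by omega))
    (Γ := (lv (lkF S {v}) ∅).filter fun a => g {a} 2 = 1) (Finset.filter_subset _ _) ?_ ?_ ?_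
  · -- outside `Γ`
    intro a ha haΓ
    obtain ⟨hav, _, haS, haS', hlka⟩ := hlk a ha
    have h3 : g {a} 2 ≠ 1 := fun h4 => haΓ (Finset.mem_filter.mpr ⟨ha, h4⟩)
    have h4 := h1 a ((mem_lv0 a).mpr haS')
    rw [hlka]
    exact A6_zero h hg haS (by rw [Finset.card_pair hav.symm]) (v := a) (by simp) (by omega)
  · intro a haΓ
    rw [Finset.mem_filter] at haΓ
    obtain ⟨ha, ha1⟩ := haΓ
    obtain ⟨hav, haL, haS, haS', hlka⟩ := hlk a ha
    have hcard : ({v, a} : Finset V).card = 2 := Finset.card_pair hav.symm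
    have h3 := mono_face h hg (σ := {a}) (τ := {v, a}) (by simp) haS (by omega)
    have h4 := A6_nonneg h hg haS (by omega)
    rcases eq_or_ne (g {v, a} 2) 0 with h5 | h5
    · left
      rw [hlka]
      have h6 := (top_lk h hg haS 2 (by omega)).2 h5
      exact h6
    · right
      intro c hc
      rw [AddvAux.mem_nh, Finset.mem_filter] at hc
      obtain ⟨⟨hcL, hc1⟩, hca, hac⟩ := hc
      obtain ⟨hcv, hcL', hcS, hcS', _⟩ := hlk c hcL
      refine deg_two h hg h2 (r := v) (s := a) hav.symm haS hv1 (by omega) hc1 hcv hca ?_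
      intro x hx
      rw [AddvAux.mem_nh, AddvAux.mem_nh, Finset.mem_filter] at hx
      obtain ⟨⟨⟨hxL, hx1⟩, hxa, hax⟩, hxc, hcx⟩ := hx
      obtain ⟨hxv, hxL', hxS, hxS', _⟩ := hlk x hxL
      refine ⟨hx1, hxv, hxa, hxc, ?_⟩
      have h6 : ({x, c, a} : Finset V) ∈ lkF S {v} := by
        have hsing : ∀ w : V, ({w} : Finset V) ∈ lkF S {v} → ({w, w} : Finset V) ∈ lkF S {v} := by
          intro w hw
          rwa [Finset.pair_eq_singleton]
        have hac' : ({a, c} : Finset V) ∈ lkF S {v} := hac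
        have hax' : ({a, x} : Finset V) ∈ lkF S {v} := hax
        have hcx' : ({c, x} : Finset V) ∈ lkF S {v} := hcx
        refine hL.flag _ ?_
        intro p hp q hq
        simp only [Finset.mem_insert, Finset.mem_singleton] at hp hq
        rcases hp with rfl | rfl | rfl <;> rcases hq with rfl | rfl | rfl
        · exact hsing _ hxL'
        · rw [Finset.pair_comm]; exact hcx'
        · rw [Finset.pair_comm]; exact hax'
        · exact hcx'
        · exact hsing _ hcL'
        · rw [Finset.pair_comm]; exact hac'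
        · exact hax'
        · exact hac'
        · exact hsing _ haL
      obtain ⟨_, h7⟩ := (HslkAux.mem_lk h {v} _).mp h6
      refine h.down _ h7 _ ?_
      intro w hw
      simp only [Finset.mem_insert, Finset.mem_singleton, Finset.mem_union] at hw ⊢
      tauto
  · intro a ha
    exact Finset.mem_filter.mpr ⟨hYL ha, hY1 a ha⟩

/-- `add_three` with `Γ` the set of the vertices `v` with `g {v} 2 = 1` (`cl_one`, `hv_zero_six`),
`GV 3` by `Cert.loc` as in `LD.six` (vertex links: `five_lk`), `all_of_mid` with `m = 3`. -/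
theorem six_all {S : Finset (Finset V)} (h : HS k S 6) {g : Finset V → ℕ → ℤ}
    (hg : G3.GV S 6 g) (h2 : g ∅ 2 = 2) (h1 : ∀ v ∈ lv S ∅, g {v} 2 ≤ 1) :
    ∀ n, GV k (ad S) (lv S ∅) n := by
  classical
  have hG : GV k (ad S) (lv S ∅) 3 := by
    refine loc (hs_ext k h) (gen k (ad S)) (fun a b _ hS => gen_zero k hS) ∅ ?_ ?_
    · intro F _ hF
      rw [Finset.subset_empty] at hF
      rw [hF, Finset.card_empty]
      omega
    · intro σ hσ hσ0 _ hσn
      have hpos : 0 < σ.card := Finset.card_pos.mpr (Finset.nonempty_iff_ne_empty.mpr hσ0)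
      refine gv_link h σ hσ ?_
      have hc : σ.card = 1 ∨ σ.card = 2 ∨ σ.card = 3 := by omega
      rcases hc with hc | hc | hc
      · refine five_lk h hg hσ (by omega) ?_ _
        have h3 := mono_face h hg (Finset.empty_subset σ) hσ (by omega)
        omega
      · rw [hc]
        refine red_gv (Cert.low (6 - 2) _ _ (by norm_num) (by norm_num)) ?_
        have h3 := hs_lk h σ hσ
        rwa [hc] at h3
      · rw [hc]
        refine red_gv (Cert.low (6 - 3) _ _ (by norm_num) (by norm_num)) ?_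
        have h3 := hs_lk h σ hσ
        rwa [hc] at h3
  refine all_of_mid (m := 3) h hG ?_
  exact add_three h (Γ := (lv S ∅).filter fun v => g {v} 2 = 1) (Finset.filter_subset _ _)
    (by
      intro v hv Y hYΓ hY
      rw [Finset.mem_filter] at hv
      exact cl_one h hg h2 h1 hv.1 hv.2 hY fun a ha => (Finset.mem_filter.mp (hYΓ ha)).2)
    (by
      intro v hv hvΓ
      have h3 : g {v} 2 ≠ 1 := fun h4 => hvΓ (Finset.mem_filter.mpr ⟨hv, h4⟩)
      have h4 := h1 v hv
      exact hv_zero_six h (by norm_num) hv fun σ hσ hvσ hc =>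
        A6_zero h hg hσ hc hvσ (by omega))

/-- A link of rank 6 with second entry at most 2 has all `GV`: if there is a vertex `v` with
`g (insert v σ) 2 = g σ 2`, `full_cert_lk` and `red_gv`; this is the case if `g σ 2 ≤ 1`
(`exists_full`); otherwise `six_all` for the link (`gv_lkF`). -/
theorem six_gv {S : Finset (Finset V)} {d : ℕ} (h : HS k S d) {g : Finset V → ℕ → ℤ}
    (hg : G3.GV S d g) {σ : Finset V} (hσ : σ ∈ S) (he : σ.card + 6 = d) (h2 : g σ 2 ≤ 2) :
    ∀ n, GV k (ad (lkF S σ)) (lv (lkF S σ) ∅) n := by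
  have hE := TT.eul_of_hs h
  have hLm := G2.lemmaL (fam h hE)
  have hL : HS k (lkF S σ) 6 := by
    have h3 := hs_lk h σ hσ
    rwa [show d - σ.card = 6 by omega] at h3
  by_cases hex : ∃ v ∈ lv S σ, g (insert v σ) 2 = g σ 2
  · obtain ⟨v, hv, hv2⟩ := hex
    intro n
    exact red_gv (full_cert_lk h hg hσ hv he (by norm_num) hv2 n) hL
  · have hall : ∀ v ∈ lv S σ, g (insert v σ) 2 ≤ 1 := by
      intro v hv
      have h3 := G3.mono h hE hLm hg σ hσ 6 he (by norm_num) v hv
      have h4 : g (insert v σ) 2 ≠ g σ 2 := fun h5 => hex ⟨v, hv, h5⟩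
      have h5 := lt_of_le_of_ne h3 h4
      omega
    have hσ2 : g σ 2 = 2 := by
      by_contra hne
      exact hex (exists_full h hg hσ he (by norm_num) (by omega))
    have hgL := gv_lkF h hg hσ
    rw [show d - σ.card = 6 by omega] at hgL
    refine six_all hL hgL ?_ ?_
    · simpa using hσ2
    · intro v hv
      rw [lv_lkF h σ hσ] at hv
      have h3 := hall v hv
      rwa [← Finset.singleton_union] at h3

/-- `six_gv`, `sum_zero` with `m = 3`, `top_lk`. -/
theorem six_zero {S : Finset (Finset V)} {d : ℕ} (h : HS k S d) {g : Finset V → ℕ → ℤ}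
    (hg : G3.GV S d g) {σ : Finset V} (hσ : σ ∈ S) (he : σ.card + 6 = d) (h2 : g σ 2 ≤ 2) :
    g σ 3 = 0 := by
  have hL : HS k (lkF S σ) (2 * 3) := by
    have h3 := hs_lk h σ hσ
    rwa [show d - σ.card = 2 * 3 by omega] at h3
  exact (top_lk h hg hσ 3 (by omega)).1 (sum_zero hL (six_gv h hg hσ he h2))

end Pool.Agent.MP19e880.DB
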