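import Pool.Agent.Lib.MP_19e880_co_G2.Inst

/-!
The double of a family along a vertex `v`: delete `v` and take two copies of the rest, glued along
the neighbours of `v`.
-/

set_option autoImplicit false
set_option linter.unusedSectionVars false

namespace Pool.Agent.MP19e880.DB

open Pool.Agent.MP19e880.Low Pool.Agent.MP19e880.G2

variable {V : Type} [DecidableEq V] {A : V → V → Prop} {F : ℕ → Finset V → Prop}

/-- The adjacency relation of the double along `v`. -/
def dA (A : V → V → Prop) (v : V) : V × Bool → V × Bool → Prop :=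
  fun p q => A p.1 q.1 ∧ (p.2 = q.2 ∨ A v p.1 ∨ A v q.1)

open Classical in
/-- The copy of `x` with index `i` (the neighbours of `v` have one copy only). -/
noncomputable def de (A : V → V → Prop) (v : V) (i : Bool) (x : V) : V × Bool :=
  (x, if A v x then false else i)

/-- The copy of `C` with index `i`. -/
noncomputable def im (A : V → V → Prop) (v : V) (i : Bool) (C : Finset V) : Finset (V × Bool) :=
  C.image (de A v i)

/-- The double of `C`. -/
noncomputable def dS (A : V → V → Prop) (v : V) (C : Finset V) : Finset (V × Bool) :=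
  im A v false (C.erase v) ∪ im A v true (C.erase v)

/-- The family of the double. -/
def dF (A : V → V → Prop) (F : ℕ → Finset V → Prop) (v : V) (m : ℕ) (D : Finset (V × Bool)) :
    Prop :=
  ∃ C, F m C ∧ ((v ∉ C ∧ ∃ i, D = im A v i C) ∨ (v ∈ C ∧ D = dS A v C))

theorem de_inj (v : V) (i : Bool) : Function.Injective (de A v i) := by
  intro x y h
  exact congrArg Prod.fst h

theorem dA_de (v : V) (i : Bool) (x y : V) : dA A v (de A v i x) (de A v i y) ↔ A x y := by
  unfold dA de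
  constructor
  · intro h
    exact h.1
  · intro h
    refine ⟨h, ?_⟩
    by_cases h1 : A v x
    · exact Or.inr (Or.inl h1)
    · by_cases h2 : A v y
      · exact Or.inr (Or.inr h2)
      · left
        simp [h1, h2]

theorem mem_im {v : V} {i : Bool} {C : Finset V} {p : V × Bool} :
    p ∈ im A v i C ↔ p.1 ∈ C ∧ p = de A v i p.1 := by
  unfold im
  rw [Finset.mem_image]
  constructor
  · rintro ⟨x, hx, rfl⟩
    exact ⟨hx, rfl⟩
  · rintro ⟨h1, h2⟩
    exact ⟨p.1, h1, h2.symm⟩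

theorem mem_dS {v : V} {C : Finset V} {p : V × Bool} :
    p ∈ dS A v C ↔ p.1 ∈ C ∧ p.1 ≠ v ∧ (A v p.1 → p.2 = false) := by
  obtain ⟨x, j⟩ := p
  unfold dS
  rw [Finset.mem_union, mem_im, mem_im]
  simp only [Finset.mem_erase, de, Prod.mk.injEq, true_and]
  by_cases h : A v x
  · simp only [if_pos h]
    constructor
    · rintro (h1 | h1) <;> exact ⟨h1.1.2, h1.1.1, fun _ => h1.2⟩
    · rintro ⟨h1, h2, h3⟩
      exact Or.inl ⟨⟨h2, h1⟩, h3 h⟩
  · simp only [if_neg h]
    constructor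
    · rintro (h1 | h1) <;> exact ⟨h1.1.2, h1.1.1, fun h' => absurd h' h⟩
    · rintro ⟨h1, h2, _⟩
      cases j
      · exact Or.inl ⟨⟨h2, h1⟩, rfl⟩
      · exact Or.inr ⟨⟨h2, h1⟩, rfl⟩

theorem nb_im (v : V) (i : Bool) (C : Finset V) (x : V) :
    nb (dA A v) (im A v i C) (de A v i x) = im A v i (nb A C x) := by
  ext p
  rw [mem_nb, mem_im, mem_im, mem_nb]
  constructor
  · rintro ⟨⟨h1, h2⟩, h3⟩
    rw [h2, dA_de] at h3
    exact ⟨⟨h1, h3⟩, h2⟩
  · rintro ⟨⟨h1, h3⟩, h2⟩
    refine ⟨⟨h1, h2⟩, ?_⟩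
    rw [h2, dA_de]
    exact h3

theorem na_im (v : V) (i : Bool) (C : Finset V) (x : V) :
    na (dA A v) (im A v i C) (de A v i x) = im A v i (na A C x) := by
  ext p
  rw [mem_na, mem_im, mem_im, mem_na]
  constructor
  · rintro ⟨⟨h1, h2⟩, h3, h4⟩
    have h3' := h3
    have h4' := h4
    rw [h2] at h3' h4'
    rw [dA_de] at h4'
    exact ⟨⟨h1, fun e => h3' (by rw [e]), h4'⟩, h2⟩
  · rintro ⟨⟨h1, h3, h4⟩, h2⟩
    refine ⟨⟨h1, h2⟩, ?_, ?_⟩
    · intro e
      exact h3 (by rw [e]; rfl)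
    · rw [h2, dA_de]
      exact h4

theorem nb_in (v : V) (i : Bool) (C : Finset V) (x : V) (hx : A v x) :
    nb (dA A v) (dS A v C) (de A v i x) = dS A v (nb A C x) := by
  ext p
  rw [mem_nb, mem_dS, mem_dS, mem_nb]
  constructor
  · rintro ⟨⟨h1, h2, h3⟩, h4⟩
    exact ⟨⟨h1, h4.1⟩, h2, h3⟩
  · rintro ⟨⟨h1, h4⟩, h2, h3⟩
    exact ⟨⟨h1, h2, h3⟩, h4, Or.inr (Or.inl hx)⟩

theorem nb_out (hs : ∀ a b, A a b → A b a) (v : V) (i : Bool) (C : Finset V) (x : V)
    (hx : ¬ A v x) : nb (dA A v) (dS A v C) (de A v i x) = im A v i (nb A C x) := by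
  ext p
  obtain ⟨y, j⟩ := p
  rw [mem_nb, mem_dS, mem_im, mem_nb]
  simp only [dA, de, if_neg hx, Prod.mk.injEq, true_and]
  constructor
  · rintro ⟨⟨h1, h2, h3⟩, h4, h5⟩
    refine ⟨⟨h1, h4⟩, ?_⟩
    rcases h5 with h5 | h5 | h5
    · by_cases hy : A v y
      · rw [if_pos hy]; exact h3 hy
      · rw [if_neg hy]; exact h5.symm
    · exact absurd h5 hx
    · rw [if_pos h5]; exact h3 h5
  · rintro ⟨⟨h1, h4⟩, h5⟩
    refine ⟨⟨h1, ?_, ?_⟩, h4, ?_⟩
    · rintro rfl
      exact hx (hs _ _ h4)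
    · intro hy
      rw [if_pos hy] at h5
      exact h5
    · by_cases hy : A v y
      · exact Or.inr (Or.inr hy)
      · rw [if_neg hy] at h5
        exact Or.inl h5.symm

end Pool.Agent.MP19e880.DB
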