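import Pool.Agent.Lib.MP_19e880_co_DB.Dbl

/-!
The double of a family: connectivity.
-/

set_option autoImplicit false
set_option linter.unusedSectionVars false

namespace Pool.Agent.MP19e880.DB

open Pool.Agent.MP19e880.Low Pool.Agent.MP19e880.G2

variable {V : Type} [DecidableEq V] {A : V → V → Prop} {F : ℕ → Finset V → Prop}

private theorem de_mem_im {v : V} {i : Bool} {C : Finset V} {x : V} (hx : x ∈ C) :
    de A v i x ∈ im A v i C := Finset.mem_image_of_mem _ hx

private theorem de_fst (v : V) (i : Bool) (x : V) : (de A v i x).1 = x := rfl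

private theorem de_adj {v : V} {x : V} (i : Bool) (hx : A v x) : de A v i x = (x, false) := by
  classical
  unfold de
  rw [if_pos hx]

private theorem de_nadj {v : V} {x : V} (i : Bool) (hx : ¬ A v x) : de A v i x = (x, i) := by
  classical
  unfold de
  rw [if_neg hx]

theorem cn_im {v : V} {i : Bool} {C : Finset V} (hC : Cn A C) : Cn (dA A v) (im A v i C) := by
  classical
  intro X hX hne hpr
  obtain ⟨a, ha, b, hb, hbX, hab⟩ := hC (C.filter fun x => de A v i x ∈ X)
    (Finset.filter_subset _ _) (by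
      obtain ⟨p, hp⟩ := hne
      have h1 := mem_im.mp (hX hp)
      refine ⟨p.1, Finset.mem_filter.mpr ⟨h1.1, ?_⟩⟩
      rw [← h1.2]
      exact hp) (by
      intro he
      refine hpr (Finset.Subset.antisymm hX ?_)
      intro p hp
      have h1 := mem_im.mp hp
      have h2 : p.1 ∈ C.filter fun x => de A v i x ∈ X := by
        rw [he]
        exact h1.1
      have h3 := (Finset.mem_filter.mp h2).2
      rw [h1.2]
      exact h3)
  rw [Finset.mem_filter] at ha
  refine ⟨de A v i a, ha.2, de A v i b, de_mem_im hb, ?_, (dA_de v i a b).mpr hab⟩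
  intro h1
  exact hbX (Finset.mem_filter.mpr ⟨hb, h1⟩)

/-- Two connected sets with a common element. -/
theorem cn_union {W : Type} [DecidableEq W] {B : W → W → Prop} {X Y : Finset W} (hX : Cn B X)
    (hY : Cn B Y) (hn : (X ∩ Y).Nonempty) : Cn B (X ∪ Y) := by
  intro Z hZ hne hpr
  obtain ⟨w, hw⟩ := hn
  rw [Finset.mem_inter] at hw
  by_cases h1 : (Z ∩ X).Nonempty
  · by_cases h2 : Z ∩ X = X
    · have h3 : X ⊆ Z := Finset.inter_eq_right.mp h2
      have h4 : Z ∩ Y ≠ Y := by
        intro h5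
        have h6 : Y ⊆ Z := Finset.inter_eq_right.mp h5
        exact hpr (Finset.Subset.antisymm hZ (Finset.union_subset h3 h6))
      obtain ⟨a, ha, b, hb, hbZ, hab⟩ := hY (Z ∩ Y) Finset.inter_subset_right
        ⟨w, Finset.mem_inter.mpr ⟨h3 hw.1, hw.2⟩⟩ h4
      exact ⟨a, (Finset.mem_inter.mp ha).1, b, Finset.mem_union_right _ hb,
        fun h5 => hbZ (Finset.mem_inter.mpr ⟨h5, hb⟩), hab⟩
    · obtain ⟨a, ha, b, hb, hbZ, hab⟩ := hX (Z ∩ X) Finset.inter_subset_right h1 h2
      exact ⟨a, (Finset.mem_inter.mp ha).1, b, Finset.mem_union_left _ hb,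
        fun h5 => hbZ (Finset.mem_inter.mpr ⟨h5, hb⟩), hab⟩
  · rw [Finset.not_nonempty_iff_eq_empty] at h1
    have h2 : ∀ z ∈ Z, z ∉ X := by
      intro z hz hzX
      have : z ∈ Z ∩ X := Finset.mem_inter.mpr ⟨hz, hzX⟩
      rw [h1] at this
      exact Finset.notMem_empty _ this
    have h3 : Z ⊆ Y := by
      intro z hz
      rcases Finset.mem_union.mp (hZ hz) with h4 | h4
      · exact absurd h4 (h2 z hz)
      · exact h4
    have h4 : Z ≠ Y := by
      rintro rfl
      exact h2 w hw.2 hw.1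
    obtain ⟨a, ha, b, hb, hbZ, hab⟩ := hY Z h3 hne h4
    exact ⟨a, ha, b, Finset.mem_union_right _ hb, hbZ, hab⟩

theorem cn_erase (h : Fam A F) {m : ℕ} {C : Finset V} {v : V} (hC : F (m + 2) C) (hv : v ∈ C) :
    Cn A (C.erase v) := by
  intro X hX hne hpr
  by_contra hcon
  push Not at hcon
  have hQ : ((C.erase v) \ X).Nonempty := by
    rw [Finset.sdiff_nonempty]
    intro h1
    exact hpr (Finset.Subset.antisymm hX h1)
  have h1 := h.sep (m + 2) C X ((C.erase v) \ X) hC (hX.trans (Finset.erase_subset _ _))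
    (Finset.sdiff_subset.trans (Finset.erase_subset _ _)) hne hQ Finset.disjoint_sdiff
    (fun p hp q hq => by
      rw [Finset.mem_sdiff] at hq
      exact hcon p hp q hq.1 hq.2)
  have h2 : (C \ X) \ ((C.erase v) \ X) ⊆ {v} := by
    intro y hy
    rw [Finset.mem_sdiff, Finset.mem_sdiff, Finset.mem_sdiff, Finset.mem_erase] at hy
    rw [Finset.mem_singleton]
    by_contra h3
    exact hy.2 ⟨⟨h3, hy.1.1⟩, hy.1.2⟩
  have h3 := Finset.card_le_card h2
  rw [Finset.card_singleton] at h3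
  omega

/-- The double of a member of rank at least two is connected: it is the union of the two copies of
`C.erase v`, which share the copy of a neighbour of `v`. -/
theorem cn_dS (h : Fam A F) {m : ℕ} {C : Finset V} {v : V} (hC : F (m + 2) C) (hv : v ∈ C) :
    Cn (dA A v) (dS A v C) := by
  unfold dS
  refine cn_union (cn_im (cn_erase h hC hv)) (cn_im (cn_erase h hC hv)) ?_
  obtain ⟨w, hw⟩ := h.ne m _ (h.link (m + 1) C v hC hv)
  rw [mem_nb] at hw
  have hwC : w ∈ C.erase v := Finset.mem_erase.mpr ⟨(h.neAdj hw.2).symm, hw.1⟩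
  refine ⟨de A v false w, Finset.mem_inter.mpr ⟨de_mem_im hwC, ?_⟩⟩
  rw [de_adj false hw.2, ← de_adj true hw.2]
  exact de_mem_im hwC

/-- The non-neighbours of `(x, false)`, `x` a neighbour of `v`: the union of the two copies of
`na A C x` (which does not contain `v`), which share the copy of a member of
`na A (nb A C v) x` (`na_nonempty` in the link of `v`). -/
theorem cn_na_in (h : Fam A F) {m : ℕ} {C : Finset V} {v : V} (hC : F (m + 1) C) (hv : v ∈ C)
    {x : V} (hx : x ∈ C) (hvx : A v x) :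
    Cn (dA A v) (na (dA A v) (dS A v C) (de A v false x)) := by
  have hxv : A x v := h.symm _ _ hvx
  have he : na (dA A v) (dS A v C) (de A v false x) =
      im A v false (na A C x) ∪ im A v true (na A C x) := by
    ext p
    rw [mem_na, mem_dS, Finset.mem_union, mem_im, mem_im, mem_na, de_adj false hvx]
    obtain ⟨y, j⟩ := p
    show ((y ∈ C ∧ y ≠ v ∧ (A v y → j = false)) ∧ (y, j) ≠ (x, false) ∧
      ¬ (A x y ∧ (false = j ∨ A v x ∨ A v y))) ↔
      ((y ∈ C ∧ y ≠ x ∧ ¬ A x y) ∧ (y, j) = de A v false y) ∨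
      ((y ∈ C ∧ y ≠ x ∧ ¬ A x y) ∧ (y, j) = de A v true y)
    constructor
    · rintro ⟨⟨h1, h2, h3⟩, h4, h5⟩
      have h6 : ¬ A x y := fun h7 => h5 ⟨h7, Or.inr (Or.inl hvx)⟩
      have h7 : y ≠ x := by
        rintro rfl
        exact h4 (by rw [h3 hvx])
      by_cases h8 : A v y
      · left
        refine ⟨⟨h1, h7, h6⟩, ?_⟩
        rw [de_adj false h8, h3 h8]
      · cases j
        · left
          exact ⟨⟨h1, h7, h6⟩, (de_nadj false h8).symm⟩
        · right
          exact ⟨⟨h1, h7, h6⟩, (de_nadj true h8).symm⟩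
    · have key : ∀ i : Bool, ((y ∈ C ∧ y ≠ x ∧ ¬ A x y) ∧ (y, j) = de A v i y) →
          ((y ∈ C ∧ y ≠ v ∧ (A v y → j = false)) ∧ (y, j) ≠ (x, false) ∧
            ¬ (A x y ∧ (false = j ∨ A v x ∨ A v y))) := by
        rintro i ⟨⟨h1, h2, h3⟩, h4⟩
        refine ⟨⟨h1, ?_, ?_⟩, ?_, fun h5 => h3 h5.1⟩
        · rintro rfl
          exact h3 hxv
        · intro h5
          rw [de_adj i h5] at h4
          exact (Prod.mk.inj h4).2
        · intro h5
          exact h2 (Prod.mk.inj h5).1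
      rintro (h1 | h1)
      · exact key _ h1
      · exact key _ h1
  rw [he]
  have hcn := h.mconn m C x hC hx
  refine cn_union (cn_im hcn) (cn_im hcn) ?_
  have hl := h.link m C v hC hv
  have hxl : x ∈ nb A C v := mem_nb.mpr ⟨hx, hvx⟩
  obtain ⟨m', rfl⟩ : ∃ m', m = m' + 1 := by
    rcases m with _ | m'
    · rw [h.zero] at hl
      rw [hl] at hxl
      exact absurd hxl (Finset.notMem_empty _)
    · exact ⟨m', rfl⟩
  obtain ⟨w, hw⟩ := h.na_nonempty m' (nb A C v) x hl hxl
  rw [mem_na, mem_nb] at hw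
  have hwC : w ∈ na A C x := mem_na.mpr ⟨hw.1.1, hw.2⟩
  refine ⟨de A v false w, Finset.mem_inter.mpr ⟨de_mem_im hwC, ?_⟩⟩
  rw [de_adj false hw.1.2, ← de_adj true hw.1.2]
  exact de_mem_im hwC

private theorem dA_symm (h : Fam A F) {v : V} {p q : V × Bool} (hpq : dA A v p q) :
    dA A v q p := by
  refine ⟨h.symm _ _ hpq.1, ?_⟩
  rcases hpq.2 with h1 | h1 | h1
  · exact Or.inl h1.symm
  · exact Or.inr (Or.inr h1)
  · exact Or.inr (Or.inl h1)

private theorem na_out_eq {C : Finset V} {v x : V} (hvx : ¬ A v x) (i : Bool) :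
    na (dA A v) (dS A v C) (de A v i x) =
      im A v i ((na A C x).erase v) ∪ im A v (!i) (na A C v) := by
  ext p
  rw [mem_na, mem_dS, Finset.mem_union, mem_im, mem_im, Finset.mem_erase, mem_na, mem_na,
    de_nadj i hvx]
  obtain ⟨y, j⟩ := p
  show ((y ∈ C ∧ y ≠ v ∧ (A v y → j = false)) ∧ (y, j) ≠ (x, i) ∧
    ¬ (A x y ∧ (i = j ∨ A v x ∨ A v y))) ↔
    ((y ≠ v ∧ y ∈ C ∧ y ≠ x ∧ ¬ A x y) ∧ (y, j) = de A v i y) ∨
    ((y ∈ C ∧ y ≠ v ∧ ¬ A v y) ∧ (y, j) = de A v (!i) y)
  constructor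
  · rintro ⟨⟨h1, h2, h3⟩, h4, h5⟩
    by_cases h6 : A v y
    · left
      refine ⟨⟨h2, h1, ?_, fun h7 => h5 ⟨h7, Or.inr (Or.inr h6)⟩⟩, ?_⟩
      · rintro rfl
        exact hvx h6
      · rw [de_adj i h6, h3 h6]
    · by_cases h7 : j = i
      · left
        subst h7
        refine ⟨⟨h2, h1, ?_, fun h8 => h5 ⟨h8, Or.inl rfl⟩⟩, (de_nadj j h6).symm⟩
        rintro rfl
        exact h4 rfl
      · right
        have h8 : j = !i := by
          cases j <;> cases i <;> simp_all
        subst h8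
        exact ⟨⟨h1, h2, h6⟩, (de_nadj _ h6).symm⟩
  · rintro (⟨⟨h1, h2, h3, h4⟩, h5⟩ | ⟨⟨h1, h2, h3⟩, h4⟩)
    · refine ⟨⟨h2, h1, ?_⟩, ?_, fun h6 => h4 h6.1⟩
      · intro h6
        rw [de_adj i h6] at h5
        exact (Prod.mk.inj h5).2
      · intro h6
        exact h3 (Prod.mk.inj h6).1
    · rw [de_nadj _ h3] at h4
      have h5 : j = !i := (Prod.mk.inj h4).2
      refine ⟨⟨h1, h2, fun h6 => absurd h6 h3⟩, ?_, ?_⟩
      · intro h6
        have h7 := (Prod.mk.inj h6).2
        rw [h5] at h7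
        cases i <;> simp at h7
      · rintro ⟨_, h6 | h6 | h6⟩
        · rw [h5] at h6
          cases i <;> simp at h6
        · exact hvx h6
        · exact h3 h6

private theorem na_out_aux (h : Fam A F) {m : ℕ} {C : Finset V} {v : V} (hC : F (m + 1) C)
    (hv : v ∈ C) {x : V} (hx : x ∈ C) (hxv : x ≠ v) (hvx : ¬ A v x) (i : Bool)
    (X : Finset (V × Bool)) (hQ : im A v (!i) (na A C v) ⊆ X)
    (hX : ∀ p ∈ X, ∀ q ∈ na (dA A v) (dS A v C) (de A v i x), q ∉ X → ¬ dA A v p q) :
    na (dA A v) (dS A v C) (de A v i x) ⊆ X := by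
  classical
  intro p hp
  by_contra hpX
  have hp' := hp
  rw [na_out_eq hvx i] at hp'
  have hp1 : p ∈ im A v i ((na A C x).erase v) := by
    rcases Finset.mem_union.mp hp' with h1 | h1
    · exact h1
    · exact absurd (hQ h1) hpX
  rw [mem_im, Finset.mem_erase] at hp1
  have hvna : v ∈ na A C x := mem_na.mpr ⟨hv, hxv.symm, fun h1 => hvx (h.symm _ _ h1)⟩
  obtain ⟨a, ha, b, hb, hbX, hab⟩ := h.mconn m C x hC hx
    ((na A C x).filter fun y => y = v ∨ de A v i y ∈ X) (Finset.filter_subset _ _)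
    ⟨v, Finset.mem_filter.mpr ⟨hvna, Or.inl rfl⟩⟩ (by
      intro he
      have h1 : p.1 ∈ (na A C x).filter fun y => y = v ∨ de A v i y ∈ X := by
        rw [he]
        exact hp1.1.2
      rcases (Finset.mem_filter.mp h1).2 with h2 | h2
      · exact hp1.1.1 h2
      · rw [← hp1.2] at h2
        exact hpX h2)
  rw [Finset.mem_filter] at ha
  have hbv : b ≠ v := fun h1 => hbX (Finset.mem_filter.mpr ⟨hb, Or.inl h1⟩)
  have hbX' : de A v i b ∉ X := fun h1 => hbX (Finset.mem_filter.mpr ⟨hb, Or.inr h1⟩)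
  have hbN : de A v i b ∈ na (dA A v) (dS A v C) (de A v i x) := by
    rw [na_out_eq hvx i]
    exact Finset.mem_union_left _ (de_mem_im (Finset.mem_erase.mpr ⟨hbv, hb⟩))
  rcases eq_or_ne a v with hav | hav
  · subst hav
    have hbC : b ∈ C := (mem_na.mp hb).1
    have hl := h.link m C b hC hbC
    have hvl : a ∈ nb A C b := mem_nb.mpr ⟨hv, h.symm _ _ hab⟩
    obtain ⟨m', rfl⟩ : ∃ m', m = m' + 1 := by
      rcases m with _ | m'
      · rw [h.zero] at hl
        rw [hl] at hvl
        exact absurd hvl (Finset.notMem_empty _)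
      · exact ⟨m', rfl⟩
    obtain ⟨z, hz⟩ := h.na_nonempty m' (nb A C b) a hl hvl
    rw [mem_na, mem_nb] at hz
    have hzP : z ∈ na A C a := mem_na.mpr ⟨hz.1.1, hz.2⟩
    refine hX (de A a (!i) z) (hQ (de_mem_im hzP)) (de A a i b) hbN hbX' ?_
    exact ⟨h.symm _ _ hz.1.2, Or.inr (Or.inr hab)⟩
  · have h1 : de A v i a ∈ X := by
      rcases ha.2 with h2 | h2
      · exact absurd h2 hav
      · exact h2
    exact hX _ h1 _ hbN hbX' ((dA_de v i a b).mpr hab)

/-- The non-neighbours of the copy `(x, i)` of a non-neighbour `x` of `v`. Let `P = na A C v`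
(connected) and let `Q` be the copy of `P` with the other index `j = !i`; `Q` is a connected subset
of the set `N` in question. A member `y` of `na A C x` adjacent to `v` has a neighbour in `P`
(`na_nonempty` in the link of `y`), so its copy is adjacent to `Q`. Let `X` be a nonempty proper
subset of `N` without edges to `N \ X`. Passing to the complement we may assume that `X` meets `Q`,
so contains `Q`. Let `X0` consist of `v` and of the members `y` of `na A C x`, `y ≠ v`, with
`de A v i y ∈ X`. As `na A C x` is connected and contains `v`, either `X0 = na A C x`, and then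
`X = N`, or there is an edge `a b` with `a ∈ X0`, `b ∈ na A C x \ X0`: if `a = v` then `b` is a
neighbour of `v`, its copy is adjacent to `Q` and so in `X`; if `a ≠ v` the edge lifts. -/
theorem cn_na_out (h : Fam A F) {m : ℕ} {C : Finset V} {v : V} (hC : F (m + 1) C) (hv : v ∈ C)
    {x : V} (hx : x ∈ C) (hxv : x ≠ v) (hvx : ¬ A v x) (i : Bool) :
    Cn (dA A v) (na (dA A v) (dS A v C) (de A v i x)) := by
  classical
  intro X hX hne hpr
  by_contra hcon
  push Not at hcon
  have hQc : Cn (dA A v) (im A v (!i) (na A C v)) := cn_im (h.mconn m C v hC hv)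
  have hQN : im A v (!i) (na A C v) ⊆ na (dA A v) (dS A v C) (de A v i x) := by
    rw [na_out_eq hvx i]
    exact Finset.subset_union_right
  by_cases h1 : (im A v (!i) (na A C v) ∩ X).Nonempty
  · have h2 : im A v (!i) (na A C v) ⊆ X := by
      by_contra h3
      obtain ⟨a, ha, b, hb, hbX, hab⟩ := hQc (im A v (!i) (na A C v) ∩ X)
        Finset.inter_subset_left h1 (fun h4 => h3 (Finset.inter_eq_left.mp h4))
      refine hcon a (Finset.mem_inter.mp ha).2 b (hQN hb) ?_ hab
      exact fun h4 => hbX (Finset.mem_inter.mpr ⟨hb, h4⟩)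
    exact hpr (Finset.Subset.antisymm hX (na_out_aux h hC hv hx hxv hvx i X h2
      (fun p hp q hq hqX => hcon p hp q hq hqX)))
  · have h2 : im A v (!i) (na A C v) ⊆ na (dA A v) (dS A v C) (de A v i x) \ X := by
      intro q hq
      refine Finset.mem_sdiff.mpr ⟨hQN hq, fun h3 => h1 ⟨q, Finset.mem_inter.mpr ⟨hq, h3⟩⟩⟩
    have h3 := na_out_aux h hC hv hx hxv hvx i _ h2 (fun p hp q hq hqX hpq => by
      rw [Finset.mem_sdiff] at hp
      have hqX' : q ∈ X := by
        by_contra h4
        exact hqX (Finset.mem_sdiff.mpr ⟨hq, h4⟩)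
      exact hcon q hqX' p hp.1 hp.2 (dA_symm h hpq))
    obtain ⟨p, hp⟩ := hne
    exact (Finset.mem_sdiff.mp (h3 (hX hp))).2 hp

end Pool.Agent.MP19e880.DB
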