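import Pool.Agent.Lib.MP_19e880_co_DB.Dbl

/-!
The double of a family: joins.
-/

set_option autoImplicit false
set_option linter.unusedSectionVars false

namespace Pool.Agent.MP19e880.DB

open Pool.Agent.MP19e880.Low Pool.Agent.MP19e880.G2

variable {V : Type} [DecidableEq V] {A : V → V → Prop} {F : ℕ → Finset V → Prop}

private theorem de_false (v x : V) : de A v false x = (x, false) := by
  unfold de
  by_cases h : A v x
  · rw [if_pos h]
  · rw [if_neg h]

private theorem eq_of_snd {p : V × Bool} (hp : p.2 = false) : p = (p.1, false) := by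
  obtain ⟨x, j⟩ := p
  simp only at hp
  rw [hp]

/-- Joins of a copy (`C` is arbitrary): `X` is the copy of `X0 = {x ∈ C | de A v i x ∈ X}`. -/
theorem join_im (h : Fam A F) {v : V} {i : Bool} {m : ℕ} {C : Finset V} (hC : F m C) (hv : v ∉ C)
    {X : Finset (V × Bool)} (hX : X ⊆ im A v i C) (hne : X.Nonempty) (hne' : X ≠ im A v i C)
    (hc : Cp (dA A v) (im A v i C) X) :
    ∃ m1 m2, m1 + m2 = m ∧ dF A F v m1 X ∧ dF A F v m2 (im A v i C \ X) := by
  classical
  obtain ⟨X0, hX0⟩ : ∃ X0 : Finset V, ∀ x, x ∈ X0 ↔ x ∈ C ∧ de A v i x ∈ X :=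
    ⟨C.filter (fun x => de A v i x ∈ X), fun x => Finset.mem_filter⟩
  have h1 : X = im A v i X0 := by
    ext p
    rw [mem_im, hX0]
    constructor
    · intro hp
      have h2 := mem_im.mp (hX hp)
      exact ⟨⟨h2.1, h2.2 ▸ hp⟩, h2.2⟩
    · rintro ⟨⟨_, h3⟩, h4⟩
      rw [h4]
      exact h3
  have h2 : im A v i C \ X = im A v i (C \ X0) := by
    ext p
    rw [Finset.mem_sdiff, mem_im, mem_im, Finset.mem_sdiff, hX0]
    constructor
    · rintro ⟨⟨h3, h4⟩, h5⟩
      refine ⟨⟨h3, fun h6 => h5 ?_⟩, h4⟩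
      rw [h4]
      exact h6.2
    · rintro ⟨⟨h3, h5⟩, h4⟩
      refine ⟨⟨h3, h4⟩, fun h6 => h5 ⟨h3, ?_⟩⟩
      rw [← h4]
      exact h6
  have hsub : X0 ⊆ C := fun x hx => ((hX0 x).mp hx).1
  have hn : X0.Nonempty := by
    obtain ⟨p, hp⟩ := hne
    rw [h1, mem_im] at hp
    exact ⟨p.1, hp.1⟩
  have hn' : X0 ≠ C := by
    intro e
    rw [e] at h1
    exact hne' h1
  have hcp : Cp A C X0 := by
    intro a ha b hb hb'
    rw [hX0] at ha hb'
    have h3 := hc (de A v i a) ha.2 (de A v i b) (mem_im.mpr ⟨hb, rfl⟩)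
      (fun h4 => hb' ⟨hb, h4⟩)
    exact (dA_de v i a b).mp h3
  obtain ⟨m1, m2, hm, hF1, hF2⟩ := h.join m C X0 hC hsub hn hn' hcp
  refine ⟨m1, m2, hm, ⟨X0, hF1, Or.inl ⟨fun h3 => hv (hsub h3), i, h1⟩⟩,
    ⟨C \ X0, hF2, Or.inl ⟨fun h3 => hv (Finset.mem_sdiff.mp h3).1, i, h2⟩⟩⟩

/-- Joins of a double. For `y, z ∈ P = na A C v` the points `(y, false)`, `(z, true)` are not
adjacent, so the copies of the members of `P` (`P` is not empty) all lie in the same part. If that
part is `X` let `X0 = {v} ∪ P ∪ {y ∈ nb A C v | (y, false) ∈ X}`: it is complete to `C \ X0`,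
`X = dS A v X0`, and the other part is the copy of `C \ X0`. Otherwise let
`X0 = {y ∈ nb A C v | (y, false) ∈ X}`: `X` is the copy of `X0` and the other part is
`dS A v (C \ X0)`. -/
theorem join_dS (h : Fam A F) {v : V} {m : ℕ} {C : Finset V} (hC : F m C) (hv : v ∈ C)
    {X : Finset (V × Bool)} (hX : X ⊆ dS A v C) (hne : X.Nonempty) (hne' : X ≠ dS A v C)
    (hc : Cp (dA A v) (dS A v C) X) :
    ∃ m1 m2, m1 + m2 = m ∧ dF A F v m1 X ∧ dF A F v m2 (dS A v C \ X) := by
  classical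
  obtain ⟨m', rfl⟩ : ∃ m', m = m' + 1 := by
    cases m with
    | zero =>
      rw [h.zero] at hC
      rw [hC] at hv
      simp at hv
    | succ m' => exact ⟨m', rfl⟩
  obtain ⟨w, hw⟩ := h.na_nonempty m' C v hC hv
  rw [mem_na] at hw
  -- the copies of the non-neighbours
  have hmem : ∀ y j, y ∈ C → y ≠ v → ¬ A v y → (y, j) ∈ dS A v C := by
    intro y j hy hyv hA
    exact mem_dS.mpr ⟨hy, hyv, fun h' => absurd h' hA⟩
  have hmemf : ∀ y, y ∈ C → y ≠ v → (y, false) ∈ dS A v C := by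
    intro y hy hyv
    exact mem_dS.mpr ⟨hy, hyv, fun _ => rfl⟩
  have hft : ∀ y z, y ∈ C → y ≠ v → ¬ A v y → z ∈ C → z ≠ v → ¬ A v z → ∀ j,
      (y, j) ∈ X → (z, !j) ∈ X := by
    intro y z hy hyv hyA hz hzv hzA j hj
    by_contra h1
    have h2 := hc (y, j) hj (z, !j) (hmem z (!j) hz hzv hzA) h1
    rcases h2.2 with h3 | h3 | h3
    · cases j <;> simp at h3
    · exact hyA h3
    · exact hzA h3
  by_cases hwX : (w, false) ∈ X
  · -- all the copies lie in `X`
    have hall : ∀ z, z ∈ C → z ≠ v → ¬ A v z → ∀ j, (z, j) ∈ X := by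
      intro z hz hzv hzA j
      have h1 : (w, true) ∈ X := hft w w hw.1 hw.2.1 hw.2.2 hw.1 hw.2.1 hw.2.2 false hwX
      cases j
      · exact hft w z hw.1 hw.2.1 hw.2.2 hz hzv hzA true h1
      · exact hft w z hw.1 hw.2.1 hw.2.2 hz hzv hzA false hwX
    obtain ⟨X0, hX0⟩ : ∃ X0 : Finset V, ∀ x, x ∈ X0 ↔ x ∈ C ∧ (x = v ∨ (x, false) ∈ X) :=
      ⟨C.filter (fun x => x = v ∨ (x, false) ∈ X), fun x => Finset.mem_filter⟩
    have h1 : X = dS A v X0 := by
      ext p
      rw [mem_dS, hX0]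
      constructor
      · intro hp
        have h2 := mem_dS.mp (hX hp)
        refine ⟨⟨h2.1, Or.inr ?_⟩, h2.2.1, h2.2.2⟩
        by_cases h3 : A v p.1
        · rw [← eq_of_snd (h2.2.2 h3)]
          exact hp
        · exact hall p.1 h2.1 h2.2.1 h3 false
      · rintro ⟨⟨h3, h4⟩, h5, h6⟩
        rcases h4 with h4 | h4
        · exact absurd h4 h5
        · by_cases h7 : A v p.1
          · rw [eq_of_snd (h6 h7)]
            exact h4
          · have h8 := hall p.1 h3 h5 h7 p.2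
            exact h8
    have h2 : dS A v C \ X = im A v false (C \ X0) := by
      ext p
      rw [Finset.mem_sdiff, mem_dS, mem_im, Finset.mem_sdiff, hX0, de_false]
      constructor
      · rintro ⟨⟨h3, h4, h5⟩, h6⟩
        have h7 : A v p.1 := by
          by_contra h7
          exact h6 (hall p.1 h3 h4 h7 p.2)
        have h8 := eq_of_snd (h5 h7)
        refine ⟨⟨h3, fun h9 => ?_⟩, h8⟩
        rcases h9.2 with h9 | h9
        · exact h4 h9
        · rw [← h8] at h9
          exact h6 h9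
      · rintro ⟨⟨h3, h4⟩, h5⟩
        refine ⟨⟨h3, fun h6 => h4 ⟨h3, Or.inl h6⟩, fun _ => by rw [h5]⟩, fun h6 => h4 ⟨h3, Or.inr ?_⟩⟩
        rw [← h5]
        exact h6
    have hsub : X0 ⊆ C := fun x hx => ((hX0 x).mp hx).1
    have hvX : v ∈ X0 := (hX0 v).mpr ⟨hv, Or.inl rfl⟩
    have hn' : X0 ≠ C := by
      intro e
      rw [e] at h1
      exact hne' h1
    have hcp : Cp A C X0 := by
      intro a ha b hb hb'
      rw [hX0] at ha hb'
      have hbv : b ≠ v := fun h3 => hb' ⟨hb, Or.inl h3⟩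
      have hbX : (b, false) ∉ X := fun h3 => hb' ⟨hb, Or.inr h3⟩
      have hbA : A v b := by
        by_contra h3
        exact hbX (hall b hb hbv h3 false)
      rcases ha.2 with h3 | h3
      · rw [h3]
        exact hbA
      · exact (hc (a, false) h3 (b, false) (hmemf b hb hbv) hbX).1
    obtain ⟨m1, m2, hm, hF1, hF2⟩ := h.join (m' + 1) C X0 hC hsub ⟨v, hvX⟩ hn' hcp
    exact ⟨m1, m2, hm, ⟨X0, hF1, Or.inr ⟨hvX, h1⟩⟩,
      ⟨C \ X0, hF2, Or.inl ⟨fun h3 => (Finset.mem_sdiff.mp h3).2 hvX, false, h2⟩⟩⟩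
  · -- none of the copies lies in `X`
    have hnone : ∀ z, z ∈ C → z ≠ v → ¬ A v z → ∀ j, (z, j) ∉ X := by
      intro z hz hzv hzA j hj
      cases j
      · have h1 := hft z w hz hzv hzA hw.1 hw.2.1 hw.2.2 false hj
        exact hwX (hft w w hw.1 hw.2.1 hw.2.2 hw.1 hw.2.1 hw.2.2 true h1)
      · exact hwX (hft z w hz hzv hzA hw.1 hw.2.1 hw.2.2 true hj)
    obtain ⟨X0, hX0⟩ : ∃ X0 : Finset V, ∀ x, x ∈ X0 ↔ x ∈ C ∧ (x, false) ∈ X :=
      ⟨C.filter (fun x => (x, false) ∈ X), fun x => Finset.mem_filter⟩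
    have hvX : v ∉ X0 := by
      intro h1
      have h2 := mem_dS.mp (hX ((hX0 v).mp h1).2)
      exact h2.2.1 rfl
    have hA0 : ∀ x ∈ X0, A v x := by
      intro x hx
      rw [hX0] at hx
      by_contra h1
      have h2 := mem_dS.mp (hX hx.2)
      exact hnone x hx.1 h2.2.1 h1 false hx.2
    have h1 : X = im A v false X0 := by
      ext p
      rw [mem_im, hX0, de_false]
      constructor
      · intro hp
        have h2 := mem_dS.mp (hX hp)
        have h3 : A v p.1 := by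
          by_contra h3
          exact hnone p.1 h2.1 h2.2.1 h3 p.2 hp
        have h4 := eq_of_snd (h2.2.2 h3)
        refine ⟨⟨h2.1, ?_⟩, h4⟩
        rw [← h4]
        exact hp
      · rintro ⟨⟨_, h3⟩, h4⟩
        rw [h4]
        exact h3
    have h2 : dS A v C \ X = dS A v (C \ X0) := by
      ext p
      rw [Finset.mem_sdiff, mem_dS, mem_dS, Finset.mem_sdiff, hX0]
      constructor
      · rintro ⟨⟨h3, h4, h5⟩, h6⟩
        refine ⟨⟨h3, fun h7 => ?_⟩, h4, h5⟩
        by_cases h8 : A v p.1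
        · have h9 := h7.2
          rw [← eq_of_snd (h5 h8)] at h9
          exact h6 h9
        · exact hnone p.1 h3 h4 h8 false h7.2
      · rintro ⟨⟨h3, h7⟩, h4, h5⟩
        refine ⟨⟨h3, h4, h5⟩, fun h6 => ?_⟩
        by_cases h8 : A v p.1
        · refine h7 ⟨h3, ?_⟩
          rw [← eq_of_snd (h5 h8)]
          exact h6
        · exact hnone p.1 h3 h4 h8 p.2 h6
    have hsub : X0 ⊆ C := fun x hx => ((hX0 x).mp hx).1
    have hn : X0.Nonempty := by
      obtain ⟨p, hp⟩ := hne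
      rw [h1, mem_im] at hp
      exact ⟨p.1, hp.1⟩
    have hn' : X0 ≠ C := by
      intro e
      rw [e] at hvX
      exact hvX hv
    have hcp : Cp A C X0 := by
      intro a ha b hb hb'
      have ha' := (hX0 a).mp ha
      by_cases hbv : b = v
      · rw [hbv]
        exact h.symm _ _ (hA0 a ha)
      · have hbX : (b, false) ∉ X := fun h3 => hb' ((hX0 b).mpr ⟨hb, h3⟩)
        exact (hc (a, false) ha'.2 (b, false) (hmemf b hb hbv) hbX).1
    obtain ⟨m1, m2, hm, hF1, hF2⟩ := h.join (m' + 1) C X0 hC hsub hn hn' hcp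
    exact ⟨m1, m2, hm, ⟨X0, hF1, Or.inl ⟨hvX, false, h1⟩⟩,
      ⟨C \ X0, hF2, Or.inr ⟨Finset.mem_sdiff.mpr ⟨hv, hvX⟩, h2⟩⟩⟩

theorem ci_im {v : V} {i : Bool} {C : Finset V} (hc : Ci (dA A v) (im A v i C)) : Ci A C := by
  intro X hX hne hne'
  have h1 : im A v i X ⊆ im A v i C := by
    intro p hp
    rw [mem_im] at hp ⊢
    exact ⟨hX hp.1, hp.2⟩
  have h2 : (im A v i X).Nonempty := by
    obtain ⟨x, hx⟩ := hne
    exact ⟨de A v i x, mem_im.mpr ⟨hx, rfl⟩⟩
  have h3 : im A v i X ≠ im A v i C := by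
    intro e
    apply hne'
    apply Finset.Subset.antisymm hX
    intro x hx
    have h4 : de A v i x ∈ im A v i X := by
      rw [e, mem_im]
      exact ⟨hx, rfl⟩
    exact (mem_im.mp h4).1
  obtain ⟨a, ha, b, hb, hb', hab⟩ := hc _ h1 h2 h3
  rw [mem_im] at ha hb
  refine ⟨a.1, ha.1, b.1, hb.1, fun h4 => hb' (mem_im.mpr ⟨h4, hb.2⟩), fun h4 => hab ?_⟩
  rw [ha.2, hb.2, dA_de]
  exact h4

/-- If `C` is the join of `X` and `C \ X` then the double is the join of `dS` of the part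
containing `v` and of the copy of the other part. -/
theorem ci_dS (h : Fam A F) {v : V} {m : ℕ} {C : Finset V} (hC : F (m + 1) C) (hv : v ∈ C)
    (hc : Ci (dA A v) (dS A v C)) : Ci A C := by
  obtain ⟨w, hw⟩ := h.na_nonempty m C v hC hv
  rw [mem_na] at hw
  have key : ∀ Y : Finset V, Y ⊆ C → v ∈ Y → Y ≠ C →
      (∀ a ∈ Y, ∀ b ∈ C, b ∉ Y → A a b) → False := by
    intro Y hY hvY hne hcp
    have h1 : dS A v Y ⊆ dS A v C := by
      intro p hp
      rw [mem_dS] at hp ⊢
      exact ⟨hY hp.1, hp.2⟩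
    have h2 : (dS A v Y).Nonempty := by
      refine ⟨(w, false), mem_dS.mpr ⟨?_, hw.2.1, fun _ => rfl⟩⟩
      by_contra h3
      exact hw.2.2 (hcp v hvY w hw.1 h3)
    have h3 : dS A v Y ≠ dS A v C := by
      intro e
      apply hne
      apply Finset.Subset.antisymm hY
      intro x hx
      by_cases hxv : x = v
      · rw [hxv]
        exact hvY
      · have h4 : (x, false) ∈ dS A v Y := by
          rw [e, mem_dS]
          exact ⟨hx, hxv, fun _ => rfl⟩
        exact (mem_dS.mp h4).1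
    obtain ⟨a, ha, b, hb, hb', hab⟩ := hc _ h1 h2 h3
    rw [mem_dS] at ha hb
    have hbY : b.1 ∉ Y := fun h4 => hb' (mem_dS.mpr ⟨h4, hb.2⟩)
    exact hab ⟨hcp a.1 ha.1 b.1 hb.1 hbY, Or.inr (Or.inr (hcp v hvY b.1 hb.1 hbY))⟩
  intro X hX hne hne'
  by_contra hcon
  push Not at hcon
  by_cases hvX : v ∈ X
  · exact key X hX hvX hne' hcon
  · refine key (C \ X) Finset.sdiff_subset (Finset.mem_sdiff.mpr ⟨hv, hvX⟩) ?_ ?_
    · intro e
      obtain ⟨x, hx⟩ := hne
      have h1 : x ∈ C \ X := by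
        rw [e]
        exact hX hx
      exact (Finset.mem_sdiff.mp h1).2 hx
    · intro a ha b hb hb'
      rw [Finset.mem_sdiff] at ha hb'
      have hbX : b ∈ X := by
        by_contra h1
        exact hb' ⟨hb, h1⟩
      exact h.symm _ _ (hcon b hbX a ha.1 ha.2)

/-- `|dS C| = |nb C v| + 2 |na C v| ≥ |C|`, as `na C v` is not empty. -/
theorem card_dS (h : Fam A F) {v : V} {m : ℕ} {C : Finset V} (hC : F (m + 1) C) (hv : v ∈ C) :
    C.card ≤ (dS A v C).card := by
  classical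
  obtain ⟨w, hw⟩ := h.na_nonempty m C v hC hv
  rw [mem_na] at hw
  have h1 : (im A v false (C.erase v)).card = (C.erase v).card := by
    unfold im
    exact Finset.card_image_of_injective _ (de_inj v false)
  have h2 : (w, true) ∉ im A v false (C.erase v) := by
    rw [mem_im, de_false]
    rintro ⟨_, h3⟩
    simp at h3
  have h3 : insert (w, true) (im A v false (C.erase v)) ⊆ dS A v C := by
    intro p hp
    rw [Finset.mem_insert, mem_im, de_false] at hp
    rcases hp with rfl | ⟨h4, h5⟩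
    · exact mem_dS.mpr ⟨hw.1, hw.2.1, fun h4 => absurd h4 hw.2.2⟩
    · rw [Finset.mem_erase] at h4
      exact mem_dS.mpr ⟨h4.2, h4.1, fun _ => by rw [h5]⟩
  have h4 := Finset.card_le_card h3
  rw [Finset.card_insert_of_notMem h2, h1, Finset.card_erase_of_mem hv] at h4
  have h5 : 0 < C.card := Finset.card_pos.mpr ⟨v, hv⟩
  omega

end Pool.Agent.MP19e880.DB
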