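import Pool.Agent.Lib.MP_19e880_co_DB.DblC
import Pool.Agent.Lib.MP_19e880_co_DB.DblJ

/-!
The double of a family is a family.
-/

set_option autoImplicit false
set_option linter.unusedSectionVars false

namespace Pool.Agent.MP19e880.DB

open Pool.Agent.MP19e880.Low Pool.Agent.MP19e880.G2

variable {V : Type} [DecidableEq V] {A : V → V → Prop} {F : ℕ → Finset V → Prop}

/-- `zero`: clear. `one`: if `v ∉ C` the copy of `{a, b}`; if `v = a` then the double is
`{(b, false), (b, true)}`. `link`: `nb_im`, `nb_in`, `nb_out`. `ne`: `na_nonempty`. `conn`: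
`cn_im`, `cn_dS`. `mconn`: `na_im` and `cn_im`, `cn_na_in`, `cn_na_out`. `join`: `join_im`,
`join_dS`. `bound`: `ci_im`, `ci_dS`, `card_dS`. -/
theorem fam_dbl (h : Fam A F) (v : V) : Fam (dA A v) (dF A F v) := by
  classical
  -- the members of a double
  have hmem : ∀ {C : Finset V} {x' : V × Bool}, x' ∈ dS A v C →
      x'.1 ∈ C ∧ x'.1 ≠ v ∧ ((A v x'.1 ∧ x' = de A v false x'.1) ∨
        (¬ A v x'.1 ∧ x' = de A v x'.2 x'.1)) := by
    intro C x' hx'
    obtain ⟨h1, h2, h3⟩ := mem_dS.1 hx'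
    refine ⟨h1, h2, ?_⟩
    by_cases h4 : A v x'.1
    · left
      refine ⟨h4, ?_⟩
      unfold de
      rw [if_pos h4]
      exact Prod.ext rfl (h3 h4)
    · right
      refine ⟨h4, ?_⟩
      unfold de
      rw [if_neg h4]
  refine ⟨?_, ?_, ?_, ?_, ?_, ?_, ?_, ?_, ?_, ?_⟩
  · rintro p q ⟨h1, h2⟩
    refine ⟨h.symm _ _ h1, ?_⟩
    rcases h2 with h2 | h2 | h2
    · exact Or.inl h2.symm
    · exact Or.inr (Or.inr h2)
    · exact Or.inr (Or.inl h2)
  · rintro p ⟨h1, -⟩
    exact h.irr _ h1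
  · intro D
    constructor
    · rintro ⟨C, hC, h1⟩
      rw [h.zero] at hC
      subst hC
      rcases h1 with ⟨-, i, rfl⟩ | ⟨h2, -⟩
      · unfold im
        exact Finset.image_empty _
      · exact absurd h2 (Finset.notMem_empty v)
    · rintro rfl
      refine ⟨∅, (h.zero ∅).2 rfl, Or.inl ⟨Finset.notMem_empty v, false, ?_⟩⟩
      unfold im
      exact (Finset.image_empty _).symm
  · rintro D ⟨C, hC, h1⟩
    obtain ⟨a, b, hab, hA, rfl⟩ := h.one C hC
    have key : ∀ y : V, ¬ A v y → y ≠ v → ∀ E : Finset V, (∀ z, z ∈ E ∧ z ≠ v ↔ z = y) →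
        ∃ a b : V × Bool, a ≠ b ∧ ¬ dA A v a b ∧ dS A v E = {a, b} := by
      intro y hy hyv E hE
      refine ⟨(y, false), (y, true), ?_, ?_, ?_⟩
      · intro he
        exact Bool.false_ne_true (congrArg Prod.snd he)
      · rintro ⟨h2, -⟩
        exact h.irr _ h2
      · ext p
        rw [mem_dS, Finset.mem_insert, Finset.mem_singleton]
        constructor
        · rintro ⟨h2, h3, -⟩
          have h4 : p.1 = y := (hE _).1 ⟨h2, h3⟩
          rcases hb : p.2 with _ | _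
          · exact Or.inl (Prod.ext h4 hb)
          · exact Or.inr (Prod.ext h4 hb)
        · have h5 := (hE y).2 rfl
          rintro (rfl | rfl)
          · exact ⟨h5.1, h5.2, fun h6 => absurd h6 hy⟩
          · exact ⟨h5.1, h5.2, fun h6 => absurd h6 hy⟩
    rcases h1 with ⟨-, i, rfl⟩ | ⟨h2, rfl⟩
    · refine ⟨de A v i a, de A v i b, fun he => hab (de_inj v i he), ?_, ?_⟩
      · rw [dA_de]
        exact hA
      · unfold im
        rw [Finset.image_insert, Finset.image_singleton]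
    · rw [Finset.mem_insert, Finset.mem_singleton] at h2
      rcases h2 with rfl | rfl
      · refine key b hA hab.symm _ fun z => ?_
        rw [Finset.mem_insert, Finset.mem_singleton]
        constructor
        · rintro ⟨h3 | h3, h4⟩
          · exact absurd h3 h4
          · exact h3
        · rintro rfl
          exact ⟨Or.inr rfl, hab.symm⟩
      · refine key a (fun h3 => hA (h.symm _ _ h3)) hab _ fun z => ?_
        rw [Finset.mem_insert, Finset.mem_singleton]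
        constructor
        · rintro ⟨h3 | h3, h4⟩
          · exact h3
          · exact absurd h3 h4
        · rintro rfl
          exact ⟨Or.inl rfl, hab⟩
  · rintro m D x' ⟨C, hC, h1⟩ hx'
    rcases h1 with ⟨h2, i, rfl⟩ | ⟨h2, rfl⟩
    · obtain ⟨h3, h4⟩ := mem_im.1 hx'
      refine ⟨nb A C x'.1, h.link m C _ hC h3, Or.inl ⟨fun h5 => h2 (mem_nb.1 h5).1, i, ?_⟩⟩
      rw [← nb_im, ← h4]
    · obtain ⟨h3, h4, ⟨h5, h6⟩ | ⟨h5, h6⟩⟩ := hmem hx'
      · refine ⟨nb A C x'.1, h.link m C _ hC h3,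
          Or.inr ⟨mem_nb.2 ⟨h2, h.symm _ _ h5⟩, ?_⟩⟩
        rw [← nb_in v false C x'.1 h5, ← h6]
      · refine ⟨nb A C x'.1, h.link m C _ hC h3,
          Or.inl ⟨fun h7 => h5 (h.symm _ _ (mem_nb.1 h7).2), x'.2, ?_⟩⟩
        rw [← nb_out h.symm v x'.2 C x'.1 h5, ← h6]
  · rintro m D ⟨C, hC, h1⟩
    rcases h1 with ⟨-, i, rfl⟩ | ⟨h2, rfl⟩
    · exact (h.ne m C hC).image _
    · obtain ⟨y, hy⟩ := h.na_nonempty m C v hC h2
      rw [mem_na] at hy
      exact ⟨(y, false), mem_dS.2 ⟨hy.1, hy.2.1, fun h6 => absurd h6 hy.2.2⟩⟩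
  · rintro m D ⟨C, hC, h1⟩
    rcases h1 with ⟨-, i, rfl⟩ | ⟨h2, rfl⟩
    · exact cn_im (h.conn m C hC)
    · exact cn_dS h hC h2
  · rintro m D x' ⟨C, hC, h1⟩ hx'
    rcases h1 with ⟨-, i, rfl⟩ | ⟨h2, rfl⟩
    · obtain ⟨h3, h4⟩ := mem_im.1 hx'
      rw [h4, na_im]
      exact cn_im (h.mconn m C _ hC h3)
    · obtain ⟨h3, h4, ⟨h5, h6⟩ | ⟨h5, h6⟩⟩ := hmem hx'
      · have h7 := cn_na_in h hC h2 h3 h5
        rwa [← h6] at h7
      · have h7 := cn_na_out h hC h2 h3 h4 h5 x'.2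
        rwa [← h6] at h7
  · rintro m D X ⟨C, hC, h1⟩ hX hne hne' hc
    rcases h1 with ⟨h2, i, rfl⟩ | ⟨h2, rfl⟩
    · exact join_im h hC h2 hX hne hne' hc
    · exact join_dS h hC h2 hX hne hne' hc
  · rintro m D ⟨C, hC, h1⟩ hc
    rcases h1 with ⟨-, i, rfl⟩ | ⟨h2, rfl⟩
    · have h3 := h.bound m C hC (ci_im hc)
      unfold im
      rwa [Finset.card_image_of_injective _ (de_inj v i)]
    · exact (h.bound m C hC (ci_dS h hC h2 hc)).trans (card_dS h hC h2)

end Pool.Agent.MP19e880.DB
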