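import Pool.Agent.Lib.MP_19e880_co_DB.Dbl

/-!
The second entry of the double.
-/

set_option autoImplicit false
set_option linter.unusedSectionVars false

namespace Pool.Agent.MP19e880.DB

open Pool.Agent.MP19e880.Low Pool.Agent.MP19e880.G2

variable {V : Type} [DecidableEq V] {A : V → V → Prop} {F : ℕ → Finset V → Prop}

private theorem card_im (v : V) (i : Bool) (C : Finset V) :
    (im A v i C).card = C.card := by
  unfold im
  exact Finset.card_image_of_injective C (de_inj v i)

private theorem sum_im (v : V) (i : Bool) (C : Finset V) (f : V × Bool → ℤ) :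
    ∑ p ∈ im A v i C, f p = ∑ x ∈ C, f (de A v i x) := by
  unfold im
  exact Finset.sum_image (fun x _ y _ h => de_inj v i h)

private theorem dS_eq (v : V) (C : Finset V) :
    dS A v C = im A v false (C.erase v) ∪ im A v true (na A C v) := by
  ext p
  obtain ⟨x, i⟩ := p
  rw [mem_dS, Finset.mem_union, mem_im, mem_im, mem_na, Finset.mem_erase]
  unfold de
  by_cases hx : A v x
  · simp only [hx, if_true, forall_true_left, not_true_eq_false, and_false, false_and, or_false,
      Prod.mk.injEq, true_and]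
    tauto
  · simp only [hx, if_false, IsEmpty.forall_iff, not_false_eq_true, and_true, Prod.mk.injEq,
      true_and]
    cases i
    · simp
      tauto
    · simp

private theorem dS_disj (v : V) (C : Finset V) :
    Disjoint (im A v false (C.erase v)) (im A v true (na A C v)) := by
  rw [Finset.disjoint_left]
  intro p hp hq
  rw [mem_im] at hp hq
  have h1 : ¬ A v p.1 := (mem_na.mp hq.1).2.2
  have h2 : p.2 = false := by
    rw [hp.2]
    unfold de
    simp
  have h3 : p.2 = true := by
    rw [hq.2]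
    unfold de
    simp [h1]
  rw [h2] at h3
  exact Bool.false_ne_true h3

private theorem erase_eq (hi : ∀ a, ¬ A a a) (v : V) (C : Finset V) :
    C.erase v = nb A C v ∪ na A C v := by
  ext x
  rw [Finset.mem_erase, Finset.mem_union, mem_nb, mem_na]
  by_cases hx : A v x
  · have hne : x ≠ v := fun h => hi v (by rw [h] at hx; exact hx)
    tauto
  · tauto

private theorem nbna_disj (v : V) (C : Finset V) : Disjoint (nb A C v) (na A C v) := by
  rw [Finset.disjoint_left]
  intro x hx hy
  exact (mem_na.mp hy).2.2 (mem_nb.mp hx).2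

private theorem sum_dS (hi : ∀ a, ¬ A a a) (v : V) (C : Finset V) (f : V × Bool → ℤ) :
    ∑ p ∈ dS A v C, f p = ∑ x ∈ nb A C v, f (de A v false x) +
      ∑ x ∈ na A C v, (f (de A v false x) + f (de A v true x)) := by
  rw [dS_eq, Finset.sum_union (dS_disj v C), sum_im, sum_im, erase_eq hi,
    Finset.sum_union (nbna_disj v C), Finset.sum_add_distrib]
  ring

private theorem sum_split (hi : ∀ a, ¬ A a a) (v : V) (C : Finset V) (hv : v ∈ C) (g : V → ℤ) :
    ∑ x ∈ C, g x = g v + ∑ x ∈ nb A C v, g x + ∑ x ∈ na A C v, g x := by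
  rw [← Finset.add_sum_erase C g hv, erase_eq hi, Finset.sum_union (nbna_disj v C)]
  ring

private theorem card_dS (hi : ∀ a, ¬ A a a) (v : V) (C : Finset V) (hv : v ∈ C) :
    ((dS A v C).card : ℤ) = 2 * (C.card : ℤ) - 2 - ((nb A C v).card : ℤ) := by
  have h1 := sum_dS (A := A) hi v C (fun _ => 1)
  have h2 := sum_split (A := A) hi v C hv (fun _ => 1)
  simp only [Finset.sum_const, nsmul_eq_mul, mul_one] at h1 h2
  rw [h1, h2]
  ring

theorem g2_im (v : V) (i : Bool) (C : Finset V) (t : ℤ) :
    Fam.g2 (dA A v) (im A v i C) t = Fam.g2 A C t := by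
  have hd : ((dg (dA A v) (im A v i C) : ℕ) : ℤ) = ((dg A C : ℕ) : ℤ) := by
    unfold dg
    push_cast
    rw [sum_im (A := A) v i C (fun p => ((nb (dA A v) (im A v i C) p).card : ℤ))]
    refine Finset.sum_congr rfl fun x _ => ?_
    rw [nb_im, card_im]
  unfold Fam.g2
  rw [hd, card_im]

/-- With `n = |C|`, `a = |nb C v|`: the double has `2 n - 2 - a` vertices; the degree of the copy of
`x` is `2 deg x - 2 - |nb (nb C v) x|` if `x` is a neighbour of `v`, and `deg x` otherwise (two
copies); so the sum of the degrees is `2 dg C - 4 a - dg (nb C v)`. -/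
theorem g2_dS (hs : ∀ a b, A a b → A b a) (hi : ∀ a, ¬ A a a) (v : V) (C : Finset V) (hv : v ∈ C)
    (t : ℤ) : Fam.g2 (dA A v) (dS A v C) t = 2 * Fam.g2 A C t - Fam.g2 A (nb A C v) (t - 1) := by
  have hN : ∀ x ∈ nb A C v, ((nb (dA A v) (dS A v C) (de A v false x)).card : ℤ) =
      2 * ((nb A C x).card : ℤ) - 2 - ((nb A (nb A C v) x).card : ℤ) := by
    intro x hx
    have hx2 := (mem_nb.mp hx).2
    rw [nb_in v false C x hx2, card_dS hi v (nb A C x) (mem_nb.mpr ⟨hv, hs v x hx2⟩)]
    have he : nb A (nb A C x) v = nb A (nb A C v) x := by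
      ext y
      rw [mem_nb, mem_nb, mem_nb, mem_nb]
      tauto
    rw [he]
  have hP : ∀ x ∈ na A C v, ∀ i, ((nb (dA A v) (dS A v C) (de A v i x)).card : ℤ) =
      ((nb A C x).card : ℤ) := by
    intro x hx i
    rw [nb_out hs v i C x (mem_na.mp hx).2.2, card_im]
  have h1 : ((dg (dA A v) (dS A v C) : ℕ) : ℤ) =
      ∑ x ∈ nb A C v, (2 * ((nb A C x).card : ℤ) - 2 - ((nb A (nb A C v) x).card : ℤ)) +
        ∑ x ∈ na A C v, (((nb A C x).card : ℤ) + ((nb A C x).card : ℤ)) := by
    unfold dg
    push_cast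
    rw [sum_dS (A := A) hi v C (fun p => ((nb (dA A v) (dS A v C) p).card : ℤ))]
    refine congrArg₂ (· + ·) (Finset.sum_congr rfl fun x hx => hN x hx)
      (Finset.sum_congr rfl fun x hx => ?_)
    show ((nb (dA A v) (dS A v C) (de A v false x)).card : ℤ) +
      ((nb (dA A v) (dS A v C) (de A v true x)).card : ℤ) = _
    rw [hP x hx false, hP x hx true]
  have h2 : ((dg A C : ℕ) : ℤ) = ((nb A C v).card : ℤ) + ∑ x ∈ nb A C v, ((nb A C x).card : ℤ) +
      ∑ x ∈ na A C v, ((nb A C x).card : ℤ) := by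
    unfold dg
    push_cast
    exact sum_split (A := A) hi v C hv (fun x => ((nb A C x).card : ℤ))
  have h3 : ((dg A (nb A C v) : ℕ) : ℤ) = ∑ x ∈ nb A C v, ((nb A (nb A C v) x).card : ℤ) := by
    unfold dg
    push_cast
    rfl
  rw [Finset.sum_sub_distrib, Finset.sum_sub_distrib, ← Finset.mul_sum, Finset.sum_const,
    nsmul_eq_mul, Finset.sum_add_distrib] at h1
  unfold Fam.g2
  rw [h1, h2, h3, card_dS hi v C hv]
  ring

end Pool.Agent.MP19e880.DB
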