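import Pool.Agent.Lib.MP_19e880_co_DB.Tes

/-!
Rank 6, second entry 2, no full vertex: the vertices with second entry 1 in the link of an edge with
second entry 1 form a graph of maximal degree at most two.
-/

set_option autoImplicit false
set_option linter.unusedSectionVars false

namespace Pool.Agent.MP19e880.DB

open Pool.Agent.MP19e880 Pool.Agent.MP19e880.FV

variable {V : Type} [Fintype V] [LinearOrder V] {k : Type} [Field k]

/-- The function for a link. -/
theorem gv_lkF {S : Finset (Finset V)} {d : ℕ} (h : HS k S d) {g : Finset V → ℕ → ℤ}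
    (hg : G3.GV S d g) {τ : Finset V} (hτ : τ ∈ S) :
    G3.GV (lkF S τ) (d - τ.card) (fun σ => g (σ ∪ τ)) := by
  intro σ hσ
  obtain ⟨h1, h2⟩ := (W1.HslkAux.mem_lk h τ σ).mp hσ
  obtain ⟨h3, h4⟩ := hg (σ ∪ τ) h2
  have h5 := h.card_le τ hτ
  rw [Finset.card_union_of_disjoint h1] at h3 h4
  refine ⟨fun i hi => h3 i (by omega), ?_⟩
  rw [TT.H_lkF h hτ h1 h2, h4]
  have h6 : d - (σ.card + τ.card) = d - τ.card - σ.card := by omega
  rw [h6]

/-- `full_na` for the link of `a` in rank 6. -/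
theorem full_na_lk {S : Finset (Finset V)} (h : HS k S 6) {g : Finset V → ℕ → ℤ}
    (hg : G3.GV S 6 g) {a b c : V} (hS : ({a, b, c} : Finset V) ∈ S) (hab : a ≠ b) (hac : a ≠ c)
    (hbc : b ≠ c) (hb : g {a, b} 2 = g {a} 2) : g {a, c} 2 ≤ 0 := by
  have haS : ({a} : Finset V) ∈ S := h.down _ hS _ (by simp)
  have hL : HS k (lkF S {a}) 5 := by
    have h1 := W1.hs_lk h {a} haS
    rwa [Finset.card_singleton] at h1
  have hgL : G3.GV (lkF S {a}) 5 (fun σ => g (σ ∪ {a})) := by
    have h1 := gv_lkF h hg haS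
    rwa [Finset.card_singleton] at h1
  have hm : ({b, c} : Finset V) ∈ lkF S {a} := by
    refine (W1.HslkAux.mem_lk h {a} {b, c}).mpr ⟨?_, ?_⟩
    · rw [Finset.disjoint_singleton_right, Finset.mem_insert, Finset.mem_singleton, not_or]
      exact ⟨hab, hac⟩
    · refine h.down _ hS _ ?_
      intro x hx
      simp only [Finset.mem_union, Finset.mem_insert, Finset.mem_singleton] at hx ⊢
      tauto
  have h1 := full_na hL hgL hbc hm (by
    show g ({b} ∪ {a}) 2 = g (∅ ∪ {a}) 2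
    rw [Finset.empty_union, Finset.union_comm, ← Finset.insert_eq, hb])
  have h2 : g ({c} ∪ {a}) 2 ≤ 0 := h1
  rwa [Finset.union_comm, ← Finset.insert_eq] at h2

/-- At most two vertices `w` with `g {c, w} 2 = 1` if `g {c} 2 = 1` (`gamma_sum` for `σ = {c}`,
`e = 5`, `j = 2`: the sum of `g {c, w} 2` over the neighbours `w` of `c` is `2`; the terms are
nonnegative). -/
theorem two_full {S : Finset (Finset V)} (h : HS k S 6) {g : Finset V → ℕ → ℤ}
    (hg : G3.GV S 6 g) {c : V} (hc : ({c} : Finset V) ∈ S) (h1 : g {c} 2 = 1) {Z : Finset V}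
    (hZ : ∀ w ∈ Z, w ≠ c ∧ ({c, w} : Finset V) ∈ S ∧ g {c, w} 2 = 1) : Z.card ≤ 2 := by
  have hE := TT.eul_of_hs h
  have hs := G3.gamma_sum hE g hg {c} hc 5 (by simp) (by omega) 2
  have hg3 : g {c} (2 + 1) = 0 := (hg {c} hc).1 (2 + 1) (by simp)
  rw [hg3, h1] at hs
  have hsub : Z ⊆ lv S {c} := by
    intro w hw
    obtain ⟨h2, h3, _⟩ := hZ w hw
    refine (mem_lv _ _).mpr ⟨?_, ?_⟩
    · rwa [Finset.mem_singleton]
    · rwa [Finset.pair_comm]
  have hnn : ∀ v ∈ lv S {c}, 0 ≤ g (insert v {c}) 2 := by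
    intro v hv
    obtain ⟨h3, h5⟩ := G3.lv_card_insert (d := 6) (σ := {c}) (e := 4) (by simp) hv
    exact G3.nonneg h hE (G2.lemmaL (fam h hE)) hg (insert v {c}) h3 4 h5 (by omega)
  have h2 : ∑ v ∈ Z, g (insert v {c}) 2 ≤ ∑ v ∈ lv S {c}, g (insert v {c}) 2 :=
    Finset.sum_le_sum_of_subset_of_nonneg hsub (fun v hv _ => hnn v hv)
  have h3 : ∑ v ∈ Z, g (insert v {c}) 2 = (Z.card : ℤ) := by
    rw [Finset.sum_congr rfl (fun v hv => (show g (insert v {c}) 2 = 1 by
      rw [Finset.pair_comm]; exact (hZ v hv).2.2))]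
    simp
  rw [h3, hs] at h2
  push_cast at h2
  omega

/-- Let `r s` be an edge with `g {r, s} 2 = 1` and `c` a vertex adjacent to `r` and `s` with
`g {c} 2 = 1`; then `g {c, r} 2 = 0` (`full_na_lk` for `r`, `s`, `c`; nonnegativity). Let `x ≠ y` be
two more such vertices, adjacent to `c`. Then `x`, `y` are not adjacent and `g {c, x} 2 = g {c, y} 2
= 1`: all losses at `r` are equal to one (`g ∅ 2 - g {r} 2 = 1`, `g {c} 2 - g {c, r} 2 = 1`, ...).
If `x`, `y` are not adjacent, `vee` gives `0 ≤ 16 - 8 - 8 - 6 + 4 g {x, c} 2 + 3 g {y, c} 2`, so both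
are `1` (they are at most `g {c} 2 = 1`, `G3.mono`). If they are adjacent, `tri` gives
`2 ≤ g {c, x} 2 + g {c, y} 2 + g {x, y} 2`, so two of the three are `1`, say those at the common
vertex `w` of the two edges `w u`, `w v`; as `u`, `v` are adjacent `full_na_lk` for `w`, `u`, `v`
gives a contradiction. -/
theorem pair_one {S : Finset (Finset V)} (h : HS k S 6) {g : Finset V → ℕ → ℤ}
    (hg : G3.GV S 6 g) (h2 : g ∅ 2 = 2) {r s : V} (hrs : r ≠ s)
    (hrS : ({r, s} : Finset V) ∈ S) (hr1 : g {r} 2 = 1) (hrs1 : g {r, s} 2 = 1)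
    {c x y : V} (hc1 : g {c} 2 = 1) (hx1 : g {x} 2 = 1) (hy1 : g {y} 2 = 1)
    (hcr : c ≠ r) (hcs : c ≠ s) (hxr : x ≠ r) (hxs : x ≠ s) (hyr : y ≠ r) (hys : y ≠ s)
    (hxc : x ≠ c) (hyc : y ≠ c) (hxy : x ≠ y)
    (hxS : ({x, c, r, s} : Finset V) ∈ S) (hyS : ({y, c, r, s} : Finset V) ∈ S) :
    g {c, x} 2 = 1 := by
  have hE := TT.eul_of_hs h
  have hsub : ∀ F ∈ S, ∀ G : Finset V, (∀ w ∈ G, w ∈ F) → G ∈ S :=
    fun F hF G hG => h.down F hF G hG
  have hLm := G2.lemmaL (fam h hE)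
  -- second entries of edges
  have hnn : ∀ u v : V, u ≠ v → ({u, v} : Finset V) ∈ S → 0 ≤ g {u, v} 2 := by
    intro u v huv huS
    refine G3.nonneg h hE hLm hg {u, v} huS 4 ?_ (by omega)
    rw [Finset.card_pair huv]
  have hle : ∀ u v : V, u ≠ v → ({u, v} : Finset V) ∈ S → g {v} 2 = 1 → g {u, v} 2 ≤ 1 := by
    intro u v huv huS hv1
    have hvS : ({v} : Finset V) ∈ S := h.down _ huS _ (by simp)
    have h3 := G3.mono h hE hLm hg {v} hvS 5 (by simp) (by omega) u
      ((mem_lv _ _).mpr ⟨by rwa [Finset.mem_singleton], huS⟩)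
    rwa [hv1] at h3
  have hlink : ∀ w : V, w ≠ r → w ≠ s → ({w, r, s} : Finset V) ∈ S → g {w, r} 2 = 0 := by
    intro w hwr hws hwS
    have h3 : ({r, s, w} : Finset V) ∈ S := hsub _ hwS _ (by
      intro z hz
      simp only [Finset.mem_insert, Finset.mem_singleton] at hz ⊢
      tauto)
    have h4 := full_na_lk h hg h3 hrs hwr.symm hws.symm (by rw [hrs1, hr1])
    have h5 := hnn w r hwr (hsub _ hwS _ (by
      intro z hz
      simp only [Finset.mem_insert, Finset.mem_singleton] at hz ⊢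
      tauto))
    rw [Finset.pair_comm] at h4
    omega
  have hcr0 : g {c, r} 2 = 0 := hlink c hcr hcs (hsub _ hxS _ (by
    intro z hz
    simp only [Finset.mem_insert, Finset.mem_singleton] at hz ⊢
    tauto))
  have hxr0 : g {x, r} 2 = 0 := hlink x hxr hxs (hsub _ hxS _ (by
    intro z hz
    simp only [Finset.mem_insert, Finset.mem_singleton] at hz ⊢
    tauto))
  have hyr0 : g {y, r} 2 = 0 := hlink y hyr hys (hsub _ hyS _ (by
    intro z hz
    simp only [Finset.mem_insert, Finset.mem_singleton] at hz ⊢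
    tauto))
  have hxcS : ({x, c} : Finset V) ∈ S := hsub _ hxS _ (by
    intro z hz
    simp only [Finset.mem_insert, Finset.mem_singleton] at hz ⊢
    tauto)
  have hycS : ({y, c} : Finset V) ∈ S := hsub _ hyS _ (by
    intro z hz
    simp only [Finset.mem_insert, Finset.mem_singleton] at hz ⊢
    tauto)
  have hxc_le := hle x c hxc hxcS hc1
  have hyc_le := hle y c hyc hycS hc1
  by_cases hxyS : ({x, y} : Finset V) ∈ S
  · exfalso
    -- the four vertices form a face
    have hfour : ({c, x, y, r} : Finset V) ∈ S := by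
      refine h.flag _ ?_
      have hmem : ∀ a b : V, a ∈ ({c, x, y, r} : Finset V) → b ∈ ({c, x, y, r} : Finset V) →
          (({a, b} : Finset V) ⊆ {x, c, r, s} ∨ ({a, b} : Finset V) ⊆ {y, c, r, s} ∨
            ({a, b} : Finset V) ⊆ {x, y}) := by
        intro a b ha hb
        simp only [Finset.mem_insert, Finset.mem_singleton] at ha hb
        rcases ha with rfl | rfl | rfl | rfl <;> rcases hb with rfl | rfl | rfl | rfl <;>
          simp [Finset.insert_subset_iff]
      intro a ha b hb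
      rcases hmem a b ha hb with h3 | h3 | h3
      · exact h.down _ hxS _ h3
      · exact h.down _ hyS _ h3
      · exact h.down _ hxyS _ h3
    have h3 := tri h hg hfour hxc.symm hyc.symm hxy hcr hxr hyr
    rw [h2, hr1, hc1, hx1, hy1, hcr0, hxr0, hyr0] at h3
    have hcyS : ({c, y} : Finset V) ∈ S := by rwa [Finset.pair_comm]
    have hxy_le := hle x y hxy hxyS hy1
    have e1 : g {c, x} 2 = g {x, c} 2 := by rw [Finset.pair_comm]
    have e2 : g {c, y} 2 = g {y, c} 2 := by rw [Finset.pair_comm]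
    have e3 : g {y, x} 2 = g {x, y} 2 := by rw [Finset.pair_comm]
    have hp : ∀ a b d : V, ({a, b, d} : Finset V) ⊆ ({c, x, y, r} : Finset V) →
        ({a, b, d} : Finset V) ∈ S := fun a b d hd => h.down _ hfour _ hd
    -- no two edges with a common vertex have second entry one
    have k1 : ¬ (g {x, c} 2 = 1 ∧ g {y, c} 2 = 1) := by
      rintro ⟨h4, h5⟩
      have h6 := full_na_lk h hg (hp c x y (by simp [Finset.insert_subset_iff])) hxc.symm
        hyc.symm hxy (by rw [e1, h4, hc1])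
      rw [e2, h5] at h6
      omega
    have k2 : ¬ (g {x, c} 2 = 1 ∧ g {x, y} 2 = 1) := by
      rintro ⟨h4, h5⟩
      have h6 := full_na_lk h hg (hp x c y (by simp [Finset.insert_subset_iff])) hxc
        hxy hyc.symm (by rw [h4, hx1])
      rw [h5] at h6
      omega
    have k3 : ¬ (g {y, c} 2 = 1 ∧ g {x, y} 2 = 1) := by
      rintro ⟨h4, h5⟩
      have h6 := full_na_lk h hg (hp y c x (by simp [Finset.insert_subset_iff])) hyc
        hxy.symm hxc.symm (by rw [h4, hy1])
      rw [e3, h5] at h6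
      omega
    rw [e1, e2] at h3
    omega
  · have h3 := vee h hg (a := x) (b := y) (c := c) (r := r) (hsub _ hxS _ (by
      intro z hz
      simp only [Finset.mem_insert, Finset.mem_singleton] at hz ⊢
      tauto)) (hsub _ hyS _ (by
      intro z hz
      simp only [Finset.mem_insert, Finset.mem_singleton] at hz ⊢
      tauto)) hxy hxc hyc hxr hyr hcr hxyS
    rw [h2, hr1, hc1, hx1, hy1, hcr0, hxr0, hyr0] at h3
    rw [Finset.pair_comm]
    omega

/-- The vertices `x` with `g {x} 2 = 1` adjacent to `c`, `r`, `s` (as in `pair_one`): at most two.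
If there are two distinct ones then `g {c, x} 2 = 1` for all of them (`pair_one`), and
`two_full`. -/
theorem deg_two {S : Finset (Finset V)} (h : HS k S 6) {g : Finset V → ℕ → ℤ}
    (hg : G3.GV S 6 g) (h2 : g ∅ 2 = 2) {r s : V} (hrs : r ≠ s)
    (hrS : ({r, s} : Finset V) ∈ S) (hr1 : g {r} 2 = 1) (hrs1 : g {r, s} 2 = 1)
    {c : V} (hc1 : g {c} 2 = 1) (hcr : c ≠ r) (hcs : c ≠ s) {Z : Finset V}
    (hZ : ∀ x ∈ Z, g {x} 2 = 1 ∧ x ≠ r ∧ x ≠ s ∧ x ≠ c ∧ ({x, c, r, s} : Finset V) ∈ S) :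
    Z.card ≤ 2 := by
  by_contra hcon
  have hZ2 : 2 < Z.card := by omega
  obtain ⟨x₀, hx₀⟩ : Z.Nonempty := Finset.card_pos.mp (by omega)
  have hcS : ({c} : Finset V) ∈ S := h.down _ (hZ x₀ hx₀).2.2.2.2 _ (by simp)
  refine hcon (two_full h hg hcS hc1 (Z := Z) fun w hw => ?_)
  obtain ⟨hw1, hwr, hws, hwc, hwS⟩ := hZ w hw
  obtain ⟨y, hy, hyw⟩ : ∃ y ∈ Z, y ≠ w := by
    by_contra hno
    push Not at hno
    have h3 : Z ⊆ {w} := fun z hz => Finset.mem_singleton.mpr (hno z hz)
    have h4 := Finset.card_le_card h3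
    rw [Finset.card_singleton] at h4
    omega
  obtain ⟨hy1, hyr, hys, hyc, hyS⟩ := hZ y hy
  refine ⟨hwc, ?_, pair_one h hg h2 hrs hrS hr1 hrs1 hc1 hw1 hy1 hcr hcs hwr hws hyr hys hwc
    hyc hyw.symm hwS hyS⟩
  refine h.down _ hwS _ ?_
  intro z hz
  simp only [Finset.mem_insert, Finset.mem_singleton] at hz ⊢
  tauto

end Pool.Agent.MP19e880.DB
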