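import Pool.Agent.Lib.MP_19e880_co_DB.Few
import Pool.Agent.Lib.MP_19e880_co_LD.Gvl
import Pool.Agent.Lib.MP_19e880_co_TT.EulHS

/-!
Spheres of odd rank: exactness in all degrees but one implies exactness in all degrees.
-/

set_option autoImplicit false
set_option linter.unusedSectionVars false

namespace Pool.Agent.MP19e880.DB

open Pool.Agent.MP19e880 Pool.Agent.MP19e880.W1 Pool.Agent.MP19e880.LD

variable {V : Type} [Fintype V] [LinearOrder V]

private theorem eu_sum_faces (S : Finset (Finset V)) (N : ℕ) (hcard : ∀ F ∈ S, F.card ≤ N) :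
    ∑ F ∈ S, (-2 : ℤ) ^ (N - F.card) =
      ∑ j ∈ Finset.range (N + 1),
        ((Finset.univ.filter (fun F => F ∈ S ∧ F.card = j)).card : ℤ) *
          (-2 : ℤ) ^ (N - j) := by
  rw [← Finset.sum_fiberwise_of_maps_to (s := S) (t := Finset.range (N + 1))
    (g := fun F => F.card) (fun F hF => Finset.mem_range.mpr (by have := hcard F hF; omega))]
  refine Finset.sum_congr rfl fun j _ => ?_
  have h1 : (Finset.univ.filter (fun F => F ∈ S ∧ F.card = j)) =
      S.filter (fun F => F.card = j) := by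
    ext F; simp
  rw [h1, Finset.sum_congr rfl (g := fun _ => (-2 : ℤ) ^ (N - j))]
  · rw [Finset.sum_const, nsmul_eq_mul]
  · intro F hF
    rw [(Finset.mem_filter.mp hF).2]

/-- The proof of `W1.euler` with `2 m` replaced by `N` and the degree `m` replaced by `i`. -/
theorem euler_at {K : Type} [Field K] {M : Type} [AddCommGroup M] [Module K M]
    {g : V → V → K} {X : Finset V} {ψ φ : V → M →ₗ[K] M} [FiniteDimensional K M]
    [Nontrivial M] (hR : Rel g X ψ φ) (S : Finset (Finset V)) (hS : ∀ F ∈ S, ∀ G, G ⊆ F → G ∈ S)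
    (hSX : ∀ F ∈ S, F ⊆ X) (hg : ∀ a b, a ≠ b → ({a, b} : Finset V) ∈ S → g a b = 0) (i N : ℕ)
    (hcard : ∀ F ∈ S, F.card ≤ N) (hex : ∀ j, j ≠ i → ExAt (fun F => F ∈ S) ψ j)
    (h0 : ∑ F ∈ S, (-2 : ℤ) ^ (N - F.card) = 0) : ExAt (fun F => F ∈ S) ψ i := by
  classical
  set P : Finset V → Prop := fun F => F ∈ S with hP
  rcases Nat.lt_or_ge N i with hiN | hiN
  · -- no faces of size i
    intro x hx _
    refine ⟨0, fun F hF => absurd rfl hF, ?_⟩
    have hx0 : x = 0 := by
      funext F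
      by_contra hne
      obtain ⟨h1, h2, _⟩ := hx F hne
      have h3 := hcard F h1
      omega
    rw [hx0]
    funext G
    simp [dl]
  have hgF : ∀ F, P F → ∀ a ∈ F, ∀ b ∈ F, a ≠ b → g a b = 0 := by
    intro F hF a ha b hb hab
    refine hg a b hab (hS F hF _ ?_)
    intro w hw
    rw [Finset.mem_insert, Finset.mem_singleton] at hw
    rcases hw with rfl | rfl
    · exact ha
    · exact hb
  have hOk : Ok P ψ := by
    refine ⟨hS, fun F hF v hv => hR.sq v (hSX F hF hv), ?_⟩
    intro F hF u hu v hv huv x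
    rw [hR.ac u (hSX F hF hu) v (hSX F hF hv) huv, hgF F hF u hu v hv huv, zero_smul]
  -- the numbers
  set r : ℕ → ℤ := fun j => (Module.finrank K (EulerAux.B P ψ j) : ℤ) with hr
  set z : ℕ → ℤ := fun j => (Module.finrank K (EulerAux.Z P ψ j) : ℤ) with hz
  set h : ℕ → ℤ := fun j => z j - r j with hh
  have hzero : ∀ j, h j = 0 ↔ ExAt P ψ j := by
    intro j
    rw [EulerAux.exAt_iff]
    constructor
    · intro h1
      have h2 : Module.finrank K (EulerAux.B P ψ j) = Module.finrank K (EulerAux.Z P ψ j) := by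
        simp only [hh, hr, hz] at h1
        omega
      exact (Submodule.eq_of_le_of_finrank_eq (EulerAux.B_le_Z hOk j) h2).ge
    · intro h1
      have h2 : EulerAux.B P ψ j = EulerAux.Z P ψ j := le_antisymm (EulerAux.B_le_Z hOk j) h1
      have h3 : r j = z j := by
        change (Module.finrank K (EulerAux.B P ψ j) : ℤ) =
          (Module.finrank K (EulerAux.Z P ψ j) : ℤ)
        rw [h2]
      change z j - r j = 0
      rw [h3, sub_self]
  have hc : ∀ j, (Module.finrank K (coS P ψ j) : ℤ) = (r (j + 1) + r j) + h j := by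
    intro j
    have h1 := EulerAux.split P ψ j
    simp only [hh, hr, hz]
    omega
  have hr0 : r 0 = 0 := by
    change (Module.finrank K (⊥ : Submodule K (Finset V → M)) : ℤ) = 0
    rw [finrank_bot, Nat.cast_zero]
  have hrtop : r (N + 1) = 0 := by
    have h1 : EulerAux.B P ψ (N + 1) = ⊥ := by
      rw [eq_bot_iff]
      intro x hx
      obtain ⟨h2, _⟩ := EulerAux.mem_Z.mp (EulerAux.B_le_Z hOk (N + 1) hx)
      rw [Submodule.mem_bot]
      funext F
      by_contra hF
      obtain ⟨h3, h4, _⟩ := h2 F hF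
      have := hcard F h3
      omega
    change (Module.finrank K (EulerAux.B P ψ (N + 1)) : ℤ) = 0
    rw [h1, finrank_bot, Nat.cast_zero]
  have hsum : ∑ j ∈ Finset.range (N + 1),
      (-1 : ℤ) ^ j * (Module.finrank K (coS P ψ j) : ℤ) = (-1) ^ i * h i := by
    have h1 : ∀ j ∈ Finset.range (N + 1),
        (-1 : ℤ) ^ j * (Module.finrank K (coS P ψ j) : ℤ) =
        (-1 : ℤ) ^ j * (r (j + 1) + r j) + (-1) ^ j * h j := by
      intro j _
      rw [hc j]; ring
    rw [Finset.sum_congr rfl h1, Finset.sum_add_distrib, EulerAux.tele, hr0, hrtop, mul_zero,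
      add_zero, zero_add]
    refine Finset.sum_eq_single i ?_ ?_
    · intro j _ hjm
      rw [(hzero j).mpr (hex j hjm), mul_zero]
    · intro hm
      exact absurd (Finset.mem_range.mpr (by omega)) hm
  have hmain : (Module.finrank K M : ℤ) * ∑ F ∈ S, (-2 : ℤ) ^ (N - F.card) =
      (-1) ^ N * 2 ^ N * ((-1) ^ i * h i) := by
    rw [eu_sum_faces S N hcard, ← hsum, Finset.mul_sum, Finset.mul_sum]
    refine Finset.sum_congr rfl fun j hj => ?_
    have hj' : j ≤ N := by
      have := Finset.mem_range.mp hj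
      omega
    have h1 := dim_coS hR P hSX hgF j
    have h2 : (Module.finrank K (coS P ψ j) : ℤ) * 2 ^ j =
        ((Finset.univ.filter (fun F => P F ∧ F.card = j)).card : ℤ) *
          (Module.finrank K M : ℤ) := by exact_mod_cast h1
    obtain ⟨t, ht⟩ : ∃ t, N = j + t := ⟨N - j, by omega⟩
    have h3 : N - j = t := by omega
    have h6 : (-1 : ℤ) ^ j * (-1) ^ j = 1 := by
      rw [← pow_add, ← two_mul, pow_mul]; norm_num
    have h7 : (-2 : ℤ) ^ t = (-1) ^ t * 2 ^ t := by
      rw [← mul_pow]; norm_num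
    rw [h3, h7, ht, pow_add, pow_add]
    have h8 : (-1 : ℤ) ^ j * (-1) ^ t * (2 ^ j * 2 ^ t) *
        ((-1) ^ j * (Module.finrank K (coS P ψ j) : ℤ)) =
        ((-1 : ℤ) ^ j * (-1) ^ j) * ((-1) ^ t * 2 ^ t) *
          ((Module.finrank K (coS P ψ j) : ℤ) * 2 ^ j) := by ring
    rw [h8, h6, h2]
    ring
  rw [h0, mul_zero] at hmain
  apply (hzero i).mp
  have h1 : (2 : ℤ) ^ N ≠ 0 := by positivity
  have h2 : (-1 : ℤ) ^ i ≠ 0 := pow_ne_zero _ (by norm_num)
  have h2' : (-1 : ℤ) ^ N ≠ 0 := pow_ne_zero _ (by norm_num)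
  rcases mul_eq_zero.mp hmain.symm with h3 | h3
  · exact absurd h3 (mul_ne_zero h2' h1)
  · rcases mul_eq_zero.mp h3 with h4 | h4
    · exact absurd h4 h2
    · exact h4

variable {k : Type} [Field k]

/-- The alternating sum vanishes in odd rank (`G3.gammas` for `Eul S d` (`TT.eul_of_hs`), evaluated
at `-1` for `σ = ∅`: all exponents of `1 + X` are positive). -/
theorem sum_odd {S : Finset (Finset V)} {d : ℕ} (h : HS k S d) (hd : d % 2 = 1) :
    ∑ F ∈ S, (-2 : ℤ) ^ (d - F.card) = 0 := by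
  classical
  have h0 : (∅ : Finset V) ∈ S := h.flag ∅ (by simp)
  obtain ⟨g, hg⟩ := G3.gammas (TT.eul_of_hs h)
  have h1 := congrArg (Polynomial.eval (-1 : ℤ)) (hg ∅ h0).2
  unfold H at h1
  rw [Polynomial.eval_finsetSum, Polynomial.eval_finsetSum, Finset.sum_eq_zero (s :=
    Finset.range ((d - (∅ : Finset V).card) / 2 + 1))] at h1
  · rw [Finset.filter_true_of_mem (fun F _ => Finset.empty_subset F)] at h1
    rw [← h1]
    refine Finset.sum_congr rfl fun F _ => ?_
    rw [Polynomial.eval_pow, Polynomial.eval_sub, Polynomial.eval_X, Polynomial.eval_one]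
    norm_num
  · intro i hi
    rw [Finset.mem_range, Finset.card_empty] at hi
    simp only [Polynomial.eval_mul, Polynomial.eval_pow, Polynomial.eval_C, Polynomial.eval_X,
      Polynomial.eval_add, Polynomial.eval_one, Finset.card_empty]
    rw [show (1 + (-1 : ℤ)) = 0 by norm_num, zero_pow (by omega), mul_zero]

/-- `euler_at` for the Fock module and `univ_ex`, as in `W1.main`. -/
theorem ex_odd {S : Finset (Finset V)} {d i : ℕ} (h : HS k S d) (hd : d % 2 = 1)
    (hex : ∀ j, j ≠ i → EX (gen k (ad S)) (ad S) (lv S ∅) (lv S ∅) j) :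
    ∀ n, GV k (ad S) (lv S ∅) n := by
  intro n
  have hP := cl_eq h
  have hR' := fock_rel (gr k (ad S) (lv S ∅)) (gr_symm (ad_symm S) _) (lv S ∅)
  have hagree : ∀ a ∈ lv S ∅, ∀ b ∈ lv S ∅, gr k (ad S) (lv S ∅) a b = gen k (ad S) a b := by
    intro a ha b hb
    unfold gr
    rw [if_pos ⟨ha, hb⟩]
  have hR : Rel (gen k (ad S)) (lv S ∅)
      (fun v => (Pm (KK V k) (gr k (ad S) (lv S ∅)) v).mulVecLin)
      (fun v => (Fm (KK V k) v).mulVecLin) :=
    ⟨hR'.sq, fun u hu v hv huv x => by rw [← hagree u hu v hv]; exact hR'.ac u hu v hv huv x,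
      hR'.one, hR'.zer, hR'.psq, hR'.pac⟩
  have hex' : ∀ j, j ≠ i → ExAt (fun F => F ∈ S)
      (fun v => (Pm (KK V k) (gr k (ad S) (lv S ∅)) v).mulVecLin) j := by
    intro j hj
    rw [← hP]
    exact hex j hj _ _ _ hR
  have hSX : ∀ F ∈ S, F ⊆ lv S ∅ := by
    intro F hF a ha
    rw [mem_lv0]
    exact h.down F hF _ (by simpa using ha)
  have hE := euler_at hR' S h.down hSX (fun a b _ hab => by
    unfold gr
    rw [gen_zero k hab]
    simp) i d h.card_le hex' (sum_odd h hd)
  have hall : ∀ j, j < n → ExAt (Cl (ad S) (lv S ∅))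
      (fun v => (Pm (KK V k) (gr k (ad S) (lv S ∅)) v).mulVecLin) j := by
    intro j _
    rw [hP]
    by_cases hj : j = i
    · rw [hj]
      exact hE
    · exact hex' j hj
  have hU := univ_ex (gr k (ad S) (lv S ∅)) (gr_symm (ad_symm S) _) (ad S) (lv S ∅) (by
    intro a b ha
    unfold gr
    rw [if_neg (fun h' => ha h'.1)]) n hall
  exact VV.congr hU (fun a ha b hb _ => hagree a ha b hb) (fun _ _ _ _ _ => Iff.rfl)

end Pool.Agent.MP19e880.DB
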