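import Pool.Agent.Lib.MP_19e880_co_LD.Hv
import Pool.Agent.Lib.MP_19e880_co_W1.Rules

/-!
Exactness for small graphs.
-/

set_option autoImplicit false
set_option linter.unusedSectionVars false

namespace Pool.Agent.MP19e880.DB

open Pool.Agent.MP19e880.W1 Pool.Agent.MP19e880.LD

variable {V : Type} [Fintype V] [LinearOrder V] {K : Type} [Field K]

/-- Exactness in degree `j` for the graph on `T`, for all modules with the relations on `X`. -/
def EX (g : V → V → K) (A : V → V → Prop) (X T : Finset V) (j : ℕ) : Prop :=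
  ∀ (M : Type) [AddCommGroup M] [Module K M] (ψ φ : V → M →ₗ[K] M), Rel g X ψ φ →
    ExAt (Cl A T) ψ j

/-- `g` vanishes exactly on the edges of `X`. -/
def Gn (g : V → V → K) (A : V → V → Prop) (X : Finset V) : Prop :=
  ∀ a ∈ X, ∀ b ∈ X, a ≠ b → (g a b = 0 ↔ A a b)

theorem Gn.mono {g : V → V → K} {A : V → V → Prop} {X Y : Finset V} (h : Gn g A X) (hY : Y ⊆ X) :
    Gn g A Y := fun a ha b hb hab => h a (hY ha) b (hY hb) hab

theorem EX.mono {g : V → V → K} {A : V → V → Prop} {X Y T : Finset V} {j : ℕ}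
    (h : EX g A X T j) (hX : X ⊆ Y) : EX g A Y T j :=
  fun M _ _ ψ φ hR => h M ψ φ (hR.mono hX)

/-- `HV` in terms of `EX`. -/
theorem hv_EX {g : V → V → K} {A : V → V → Prop} {X : Finset V} {p : ℕ} (h : HV g A X p)
    {Y : Finset V} (hY : Y ⊆ X) {j : ℕ} (hj : p ≤ j) : EX g A X Y j :=
  fun M _ _ ψ φ hR => h M ψ φ hR Y hY j hj

private theorem nh_sub {A : V → V → Prop} {T X : Finset V} {x : V} (h : T ⊆ X) :
    nh A T x ⊆ nh A X x := by
  intro w hw
  obtain ⟨h1, h2, h3⟩ := AddvAux.mem_nh.mp hw
  exact AddvAux.mem_nh.mpr ⟨h h1, h2, h3⟩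

private theorem nh_le {A : V → V → Prop} {T : Finset V} {x : V} : nh A T x ⊆ T :=
  fun _ hw => (AddvAux.mem_nh.mp hw).1

private theorem nh_ins {A : V → V → Prop} {T : Finset V} {x : V} :
    nh A (insert x T) x = nh A T x := by
  ext w
  rw [AddvAux.mem_nh, AddvAux.mem_nh, Finset.mem_insert]
  constructor
  · rintro ⟨h1 | h1, h2, h3⟩
    · exact absurd h1 h2
    · exact ⟨h1, h2, h3⟩
  · rintro ⟨h1, h2, h3⟩
    exact ⟨Or.inr h1, h2, h3⟩

private theorem nh_erase {A : V → V → Prop} {T : Finset V} {x : V} :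
    nh A (T.erase x) x = nh A T x := by
  ext w
  rw [AddvAux.mem_nh, AddvAux.mem_nh, Finset.mem_erase]
  constructor
  · rintro ⟨⟨_, h1⟩, h2, h3⟩
    exact ⟨h1, h2, h3⟩
  · rintro ⟨h1, h2, h3⟩
    exact ⟨⟨h2, h1⟩, h2, h3⟩

private theorem ok_sub {g : V → V → K} {A : V → V → Prop} {X Y : Finset V}
    (hg : ∀ a ∈ X, ∀ b ∈ X, a ≠ b → A a b → g a b = 0) {M : Type} [AddCommGroup M] [Module K M]
    {ψ φ : V → M →ₗ[K] M} (hR : Rel g X ψ φ) (hY : Y ⊆ X) : Ok (Cl A Y) ψ :=
  Ok.of_rel (hR.mono hY) (fun a ha b hb hab h => hg a (hY ha) b (hY hb) hab h)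

private theorem relAt {g : V → V → K} {A : V → V → Prop} (hA : ∀ a b, A a b → A b a)
    {X : Finset V} (hg : ∀ a ∈ X, ∀ b ∈ X, a ≠ b → A a b → g a b = 0)
    {M : Type} [AddCommGroup M] [Module K M]
    {ψ φ : V → M →ₗ[K] M} (hR : Rel g X ψ φ) {x : V} (hx : x ∈ X) :
    ∃ ψ' φ' : V → LinearMap.ker (ψ x) →ₗ[K] LinearMap.ker (ψ x),
      Rel g (nh A X x) ψ' φ' ∧
        ∀ v ∈ nh A X x, ∀ m, ((ψ' v m : LinearMap.ker (ψ x)) : M) = ψ v m := by
  refine rel_ker hR x hx (fun w hw => (AddvAux.mem_nh.mp hw).1)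
    (fun h' => (AddvAux.mem_nh.mp h').2.1 rfl) (fun v hv => ?_)
  obtain ⟨e1, e2, e3⟩ := AddvAux.mem_nh.mp hv
  exact hg v e1 x hx e2 (hA _ _ e3)

/-- `ex_add`. -/
theorem EX_add {g : V → V → K} {A : V → V → Prop} (hA : ∀ a b, A a b → A b a) {X T : Finset V}
    (hg : ∀ a ∈ X, ∀ b ∈ X, a ≠ b → A a b → g a b = 0) {x : V} (hx : x ∈ X) (hxT : x ∉ T)
    (hT : T ⊆ X) {j : ℕ} (h1 : EX g A X T (j + 1)) (h2 : EX g A (nh A X x) (nh A T x) j) :
    EX g A X (insert x T) (j + 1) := by
  intro M _ _ ψ φ hR
  obtain ⟨ψ', φ', hrel, hcoe⟩ := relAt hA hg hR hx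
  exact ex_add hA hxT (ok_sub hg hR (Finset.insert_subset hx hT)) (ψ' := ψ')
    (fun v hv m => hcoe v (nh_sub hT hv) m) (h1 M ψ φ hR) (h2 _ ψ' φ' hrel)

/-- `ex_del`. -/
theorem EX_del {g : V → V → K} {A : V → V → Prop} (hA : ∀ a b, A a b → A b a) {X T : Finset V}
    (hg : ∀ a ∈ X, ∀ b ∈ X, a ≠ b → A a b → g a b = 0) {x : V} (hx : x ∈ X) (hxT : x ∉ T)
    (hT : T ⊆ X) {j : ℕ} (h1 : EX g A X (insert x T) j) (h2 : EX g A (nh A X x) (nh A T x) j) :
    EX g A X T j := by
  intro M _ _ ψ φ hR
  obtain ⟨ψ', φ', hrel, hcoe⟩ := relAt hA hg hR hx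
  exact ex_del hA hxT (ok_sub hg hR (Finset.insert_subset hx hT)) (ψ' := ψ')
    (fun v hv m => hcoe v (nh_sub hT hv) m) (h1 M ψ φ hR) (h2 _ ψ' φ' hrel)

/-- No faces with `j` vertices if `T` is empty and `1 ≤ j`. -/
theorem EX_empty {g : V → V → K} {A : V → V → Prop} {X : Finset V} {j : ℕ} (hj : 1 ≤ j) :
    EX g A X ∅ j := by
  intro M _ _ ψ φ _ x hx _
  have e : x = 0 := by
    funext F
    by_contra h'
    obtain ⟨h1, h2, _⟩ := hx F h'
    have h3 : F = ∅ := Finset.subset_empty.mp h1.1
    rw [h3, Finset.card_empty] at h2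
    omega
  exact ⟨0, fun F hF => absurd rfl hF, by rw [dl_zero, e]⟩

/-- A simplex is exact in degree 1. -/
private theorem clique_one {g : V → V → K} {A : V → V → Prop} {T : Finset V}
    (hg : ∀ a ∈ T, ∀ b ∈ T, a ≠ b → A a b ∧ g a b = 0) : EX g A T T 1 := by
  classical
  intro M _ _ ψ φ hR x hx hdx
  have hcl : ∀ F, F ⊆ T → Cl A T F := fun F hF =>
    ⟨hF, fun a ha b hb hab => (hg a (hF ha) b (hF hb) hab).1⟩
  have h1 : ∀ v, ψ v (x {v}) = 0 := fun v => hx.kill (Finset.mem_singleton_self v)
  have h2 : ∀ v ∈ T, ∀ w ∈ T, v ≠ w → ψ v (x {w}) + ψ w (x {v}) = 0 := by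
    intro v hv w hw hvw
    have hsub : ({v, w} : Finset V) ⊆ T :=
      Finset.insert_subset hv (Finset.singleton_subset_iff.mpr hw)
    have e := congrFun hdx {v, w}
    rw [dl_pos (hcl _ hsub), Finset.sum_pair hvw, Pi.zero_apply] at e
    have e1 : ({v, w} : Finset V).erase v = {w} := by
      rw [Finset.erase_insert (fun h => hvw (Finset.mem_singleton.mp h))]
    have e2 : ({v, w} : Finset V).erase w = {v} := by
      rw [Finset.pair_comm, Finset.erase_insert (fun h => hvw (Finset.mem_singleton.mp h).symm)]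
    rwa [e1, e2] at e
  have key : ∀ S : Finset V, S ⊆ T → ∃ m : M, ∀ v ∈ S, ψ v m = x {v} := by
    intro S
    induction S using Finset.induction_on with
    | empty => exact fun _ => ⟨0, fun v hv => absurd hv (Finset.notMem_empty v)⟩
    | insert w S hw ih =>
      intro hS
      have hwT : w ∈ T := hS (Finset.mem_insert_self w S)
      have hST : S ⊆ T := fun v hv => hS (Finset.mem_insert_of_mem hv)
      obtain ⟨m, hm⟩ := ih hST
      have hne : ∀ v ∈ S, v ≠ w := fun v hv h => hw (h ▸ hv)
      have z1 : ψ w (x {w} - ψ w m) = 0 := by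
        rw [map_sub, h1 w, hR.sq w hwT, sub_zero]
      have z2 : ∀ v ∈ S, ψ v (x {w} - ψ w m) = 0 := by
        intro v hv
        have a1 := h2 v (hST hv) w hwT (hne v hv)
        have a2 := hR.ac v (hST hv) w hwT (hne v hv) m
        rw [(hg v (hST hv) w hwT (hne v hv)).2, zero_smul, hm v hv] at a2
        rw [map_sub, eq_neg_of_add_eq_zero_left a1, eq_neg_of_add_eq_zero_left a2, sub_self]
      have y1 : ψ w (φ w (x {w} - ψ w m)) = x {w} - ψ w m := by
        have a1 := hR.one w hwT (x {w} - ψ w m)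
        rwa [z1, map_zero, zero_add] at a1
      have y2 : ∀ v ∈ S, ψ v (φ w (x {w} - ψ w m)) = 0 := by
        intro v hv
        have a1 := hR.zer w hwT v (hST hv) (hne v hv).symm (x {w} - ψ w m)
        rwa [z2 v hv, map_zero, zero_add] at a1
      refine ⟨m + φ w (x {w} - ψ w m), fun v hv => ?_⟩
      rcases Finset.mem_insert.mp hv with rfl | hv
      · rw [map_add, y1, add_sub_cancel]
      · rw [map_add, hm v hv, y2 v hv, add_zero]
  obtain ⟨m, hm⟩ := key T (Finset.Subset.refl T)
  refine ⟨fun F => if F = ∅ then m else 0, fun F hF => ?_, ?_⟩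
  · have e : F = ∅ := by
      by_contra h
      exact hF (if_neg h)
    subst e
    exact ⟨hcl _ (Finset.empty_subset T), rfl, fun v hv => absurd hv (Finset.notMem_empty v)⟩
  · funext G
    by_cases hG : Cl A T G
    · rw [dl_pos hG]
      by_cases hc : G.card = 1
      · obtain ⟨v, rfl⟩ := Finset.card_eq_one.mp hc
        rw [Finset.sum_singleton, Finset.erase_singleton, if_pos rfl]
        exact hm v (hG.1 (Finset.mem_singleton_self v))
      · rw [hx.card hc]
        refine Finset.sum_eq_zero fun v hv => ?_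
        have e : G.erase v ≠ ∅ := by
          intro h
          apply hc
          have e1 := Finset.card_erase_add_one hv
          rw [h, Finset.card_empty] at e1
          exact e1.symm
        rw [if_neg e, map_zero]
    · rw [dl_neg hG, hx.off hG]

/-- A simplex is exact in the positive degrees. Degree 1, by induction on `T`: subtract `dl` of the
element given by `T \ x` to get a cocycle supported on `{x}`, with value `z`, `ψ x z = 0`, and the
cocycle condition on `{v, x}` gives `ψ v z = 0` for `v ∈ T \ x`; then `y = φ x z` satisfies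
`ψ x y = z` and `ψ v y = 0` (`v ∈ T \ x`). Degree `j + 1`, `1 ≤ j`: `EX_add`, induction. -/
theorem EX_clique {g : V → V → K} {A : V → V → Prop} (hA : ∀ a b, A a b → A b a) {T : Finset V}
    (hg : ∀ a ∈ T, ∀ b ∈ T, a ≠ b → A a b ∧ g a b = 0) {j : ℕ} (hj : 1 ≤ j) : EX g A T T j := by
  classical
  induction T using Finset.induction_on generalizing j with
  | empty => exact EX_empty hj
  | insert x T hx ih =>
    rcases Nat.lt_or_ge 1 j with h1 | h1
    · obtain ⟨i, rfl⟩ : ∃ i, j = i + 1 := ⟨j - 1, by omega⟩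
      have hxT : x ∈ insert x T := Finset.mem_insert_self x T
      have hsub : T ⊆ insert x T := Finset.subset_insert x T
      have hg' : ∀ a ∈ T, ∀ b ∈ T, a ≠ b → A a b ∧ g a b = 0 :=
        fun a ha b hb hab => hg a (hsub ha) b (hsub hb) hab
      have e1 : nh A T x = T := by
        ext w
        rw [AddvAux.mem_nh]
        refine ⟨fun h => h.1, fun h => ?_⟩
        have hwx : w ≠ x := fun h' => hx (h' ▸ h)
        exact ⟨h, hwx, (hg x hxT w (hsub h) hwx.symm).1⟩
      refine EX_add hA (fun a ha b hb hab _ => (hg a ha b hb hab).2) hxT hx hsub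
        ((ih hg' hj).mono hsub) ?_
      rw [nh_ins, e1]
      exact ih hg' (by omega)
    · obtain rfl : j = 1 := by omega
      exact clique_one hg

/-- Induction on `|T|`, for all `j`. If some `x ∈ T` has less than `3 (j - 1)` neighbours in `T`
(so `2 ≤ j`): `EX_add` for `T.erase x` and `x` (induction for `T.erase x`, degree `j`, and for the
neighbours of `x`, degree `j - 1`). Otherwise each `x ∈ T` has at most one non-neighbour in
`T.erase x`. If `a ≠ b` are not adjacent, `T` is the suspension: `vv_susp`. Otherwise `T` is a clique: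
`EX_clique`. -/
theorem few {g : V → V → K} {A : V → V → Prop} (hA : ∀ a b, A a b → A b a) {T : Finset V}
    (hg : Gn g A T) {j : ℕ} (hj : T.card < 3 * j) : EX g A T T j := by
  classical
  induction T using Finset.strongInduction generalizing j with
  | H T ih =>
    have hg0 : ∀ a ∈ T, ∀ b ∈ T, a ≠ b → A a b → g a b = 0 :=
      fun a ha b hb hab h => (hg a ha b hb hab).mpr h
    by_cases hex : ∃ x ∈ T, (nh A T x).card < 3 * (j - 1)
    · obtain ⟨x, hx, hc⟩ := hex
      obtain ⟨i, rfl⟩ : ∃ i, j = i + 1 := ⟨j - 1, by omega⟩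
      rw [Nat.add_sub_cancel] at hc
      have hss : T.erase x ⊂ T := Finset.erase_ssubset hx
      have hns : nh A T x ⊂ T := by
        refine Finset.ssubset_iff_subset_ne.mpr ⟨nh_le, fun h => ?_⟩
        have h' : x ∈ nh A T x := by rw [h]; exact hx
        exact (AddvAux.mem_nh.mp h').2.1 rfl
      have h1 : EX g A T (T.erase x) (i + 1) :=
        (ih _ hss (hg.mono hss.1) (lt_of_le_of_lt (Finset.card_le_card hss.1) hj)).mono hss.1
      have h2 : EX g A (nh A T x) (nh A (T.erase x) x) i := by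
        rw [nh_erase]
        exact ih _ hns (hg.mono hns.1) hc
      have h3 := EX_add hA hg0 hx (Finset.notMem_erase x T) hss.1 h1 h2
      rwa [Finset.insert_erase hx] at h3
    · have hdeg : ∀ x ∈ T, ∀ a ∈ T, ∀ b ∈ T, a ≠ b → x ≠ a → x ≠ b → A x a ∨ A x b := by
        intro x hx a ha b hb hab hxa hxb
        by_contra hcon
        rw [not_or] at hcon
        apply hex
        refine ⟨x, hx, ?_⟩
        have hsub : insert x (insert a (insert b (nh A T x))) ⊆ T := by
          refine Finset.insert_subset hx (Finset.insert_subset ha (Finset.insert_subset hb nh_le))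
        have hb' : b ∉ nh A T x := fun h => hcon.2 (AddvAux.mem_nh.mp h).2.2
        have ha' : a ∉ insert b (nh A T x) := by
          intro h
          rcases Finset.mem_insert.mp h with h | h
          · exact hab h
          · exact hcon.1 (AddvAux.mem_nh.mp h).2.2
        have hx' : x ∉ insert a (insert b (nh A T x)) := by
          intro h
          rcases Finset.mem_insert.mp h with h | h
          · exact hxa h
          · rcases Finset.mem_insert.mp h with h | h
            · exact hxb h
            · exact (AddvAux.mem_nh.mp h).2.1 rfl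
        have hcard := Finset.card_le_card hsub
        rw [Finset.card_insert_of_notMem hx', Finset.card_insert_of_notMem ha',
          Finset.card_insert_of_notMem hb'] at hcard
        omega
      by_cases hcl : ∃ a ∈ T, ∃ b ∈ T, a ≠ b ∧ ¬ A a b
      · obtain ⟨a, ha, b, hb, hab, hn⟩ := hcl
        have hgab : g a b ≠ 0 := fun h => hn ((hg a ha b hb hab).mp h)
        have hw : ∀ w ∈ T, w ≠ a → w ≠ b → A a w ∧ A b w := by
          intro w hw hwa hwb
          constructor
          · rcases hdeg a ha w hw b hb hwb hwa.symm hab with h | h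
            · exact h
            · exact absurd h hn
          · rcases hdeg b hb w hw a ha hwa hwb.symm hab.symm with h | h
            · exact h
            · exact absurd (hA _ _ h) hn
        intro M _ _ ψ φ hR
        exact vv_susp a b ha hb hab hgab hA hn hw hg0 (j + 1) M ψ φ hR j (Nat.lt_succ_self j)
      · have hall : ∀ a ∈ T, ∀ b ∈ T, a ≠ b → A a b ∧ g a b = 0 := by
          intro a ha b hb hab
          have h1 : A a b := by
            by_contra hn
            exact hcl ⟨a, ha, b, hb, hab, hn⟩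
          exact ⟨h1, (hg a ha b hb hab).mpr h1⟩
        exact EX_clique hA hall (by omega)

/-- Each vertex of `T` has less than `3 j` neighbours in `T`: exactness in degree `j + 1`. -/
theorem few_deg {g : V → V → K} {A : V → V → Prop} (hA : ∀ a b, A a b → A b a) {T : Finset V}
    (hg : Gn g A T) {j : ℕ} (hj : ∀ x ∈ T, (nh A T x).card < 3 * j) : EX g A T T (j + 1) := by
  classical
  induction T using Finset.induction_on with
  | empty => exact EX_empty (by omega)
  | insert x T hx ih =>
    have hxT : x ∈ insert x T := Finset.mem_insert_self x T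
    have hsub : T ⊆ insert x T := Finset.subset_insert x T
    have h1 : EX g A T T (j + 1) := ih (hg.mono hsub) (fun y hy =>
      lt_of_le_of_lt (Finset.card_le_card (nh_sub hsub)) (hj y (hsub hy)))
    refine EX_add hA (fun a ha b hb hab h => (hg a ha b hb hab).mpr h) hxT hx hsub
      (h1.mono hsub) ?_
    rw [nh_ins]
    have hc := hj x hxT
    rw [nh_ins] at hc
    exact few hA (hg.mono (nh_le.trans hsub)) hc

end Pool.Agent.MP19e880.DB
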