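import Pool.Agent.Lib.MP_19e880_co_DB.Gal
import Pool.Agent.Lib.MP_19e880_co_LD.Fin

/-!
The final statements.
-/

set_option autoImplicit false
set_option linter.unusedSectionVars false
set_option linter.unusedVariables false

namespace Pool.Agent.MP19e880.DB

open Pool.Agent.MP19e880 Pool.Agent.MP19e880.W1 Pool.Agent.MP19e880.LD Pool.Agent.MP19e880.FV
  Polynomial

variable {V : Type} [Fintype V] [LinearOrder V] {k : Type} [Field k]

/-- The second entry of the link of `F` is small, or small locally. -/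
def Sm (S : Finset (Finset V)) (d : ℕ) (F : Finset V) : Prop :=
  gt S d F ≤ 3 ∨
  (d ≤ F.card + 7 ∧ ∀ G ∈ S, F ⊆ G → G.card + 6 = d → gt S d G ≤ 5) ∨
  (F.card + 8 ≤ d ∧ ∀ G ∈ S, F ⊆ G → G.card + 8 = d → gt S d G ≤ 3) ∨
  (F.card + 6 ≤ d ∧ ∀ G ∈ S, F ⊆ G → G.card + 6 = d → gt S d G ≤ 2)

theorem sm_gal {S : Finset (Finset V)} {d : ℕ} (h : HS k S d) {g : Finset V → ℕ → ℤ}
    (hg : G3.GV S d g) {F : Finset V} (hF : F ∈ S) (hd : F.card + 4 ≤ d) (hs : Sm S d F) :
    ∀ i, 0 ≤ g F i := by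
  have hc := h.card_le F hF
  have hL := W1.hs_lk h F hF
  have hgL := gv_lkF h hg hF
  have hE := TT.eul_of_hs h
  have hEL := TT.eul_of_hs hL
  have hLm := G2.lemmaL (fam h hE)
  -- faces of the link
  have hface : ∀ τ ∈ lkF S F, τ ∪ F ∈ S ∧ F ⊆ τ ∪ F ∧ (τ ∪ F).card = τ.card + F.card := by
    intro τ hτ
    obtain ⟨h1, h2, h3⟩ := lkF_lkF h hF hτ
    exact ⟨h2, Finset.subset_union_right, h3⟩
  have hgt : ∀ τ ∈ lkF S F, (τ ∪ F).card + 4 ≤ d → g (τ ∪ F) 2 = gt S d (τ ∪ F) := by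
    intro τ hτ h4
    exact (gt_g h hg (hface τ hτ).1 h4).symm
  intro i
  have key : (d - F.card ≤ 5 ∨ (d - F.card ≤ 7 ∧ ∀ τ ∈ lkF S F, τ.card + 6 = d - F.card →
        g (τ ∪ F) 2 ≤ 5) ∨
      (8 ≤ d - F.card ∧ ∀ τ ∈ lkF S F, τ.card + 8 = d - F.card → g (τ ∪ F) 2 ≤ 3) ∨
      (6 ≤ d - F.card ∧ ∀ τ ∈ lkF S F, τ.card + 6 = d - F.card → g (τ ∪ F) 2 ≤ 2)) →
      0 ≤ g F i := by
    intro hk
    have h1 := gal hL hgL (by omega) hk i
    rwa [Finset.empty_union] at h1
  rcases hs with hs | hs | hs | hs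
  · by_cases h5 : d - F.card ≤ 5
    · exact key (Or.inl h5)
    · have h3 := gt_g h hg hF hd
      rw [h3] at hs
      obtain ⟨h6, h7⟩ := three_gamma h hg (d - F.card) F hF (by omega) (by omega) hs
      have h8 := G2.g2_nonneg (fam h hE) hLm
      rcases Nat.lt_or_ge i 3 with h9 | h9
      · have h10 := G3.nonneg h hE hLm hg F hF (d - F.card) (by omega) (by omega)
        obtain ⟨h11, h12⟩ := G3.entries hE hg F hF (d - F.card) (by omega) (by omega)
        interval_cases i
        · have h13 := gal hL hgL (by omega)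
          have h14 := (hg F hF).2
          have h15 := congrArg (Polynomial.eval (0 : ℤ)) h14
          rw [hE.H_sum' F hF (d - F.card) (by omega)] at h15
          rw [eval_finsetSum, eval_finsetSum, Finset.sum_range_succ', Finset.sum_range_succ'] at h15
          simp only [eval_mul, eval_C, eval_pow, eval_X, eval_sub, eval_one, eval_add, ne_eq,
            Nat.add_eq_zero_iff, one_ne_zero, and_false, not_false_eq_true, zero_pow, mul_zero,
            Finset.sum_const_zero, zero_add, pow_zero, mul_one, sub_zero, one_pow,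
            add_zero] at h15
          rw [← h15]
          positivity
        · rw [h11, fn_one S hE.down]
          have h13 := lv_two_mul h (d - F.card) F hF (by omega)
          have h14 : (2 * (d - F.card : ℕ) : ℤ) ≤ (lv S F).card := by exact_mod_cast h13
          linarith
        · exact h10
      · rcases Nat.lt_or_ge i 4 with h10 | h10
        · have : i = 3 := by omega
          rw [this]
          exact h6
        · rw [h7 i h10]
  · refine key (Or.inr (Or.inl ⟨by omega, fun τ hτ h6 => ?_⟩))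
    obtain ⟨h1, h2, h3⟩ := hface τ hτ
    rw [hgt τ hτ (by omega)]
    exact hs.2 _ h1 h2 (by omega)
  · refine key (Or.inr (Or.inr (Or.inl ⟨by omega, fun τ hτ h6 => ?_⟩)))
    obtain ⟨h1, h2, h3⟩ := hface τ hτ
    rw [hgt τ hτ (by omega)]
    exact hs.2 _ h1 h2 (by omega)
  · refine key (Or.inr (Or.inr (Or.inr ⟨by omega, fun τ hτ h6 => ?_⟩)))
    obtain ⟨h1, h2, h3⟩ := hface τ hτ
    rw [hgt τ hτ (by omega)]
    exact hs.2 _ h1 h2 (by omega)

/-- The final statement. -/
theorem final {S : Finset (Finset V)} {d : ℕ} (h : HS k S d) (hd : 4 ≤ d) (γ : ℕ → ℤ)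
    (hγ : ∑ j ∈ Finset.range (d + 1),
        C (((S.filter (fun G => G.card = j)).card : ℕ) : ℤ) * X ^ j * (1 - X) ^ (d - j) =
      ∑ i ∈ Finset.range (d / 2 + 1), C (γ i) * X ^ i * (1 + X : ℤ[X]) ^ (d - 2 * i)) :
    (∀ F ∈ S, F.card + 4 ≤ d → gt S d F = gt S d ∅ →
      (∀ γ' : ℕ → ℤ, (∑ j ∈ Finset.range (d - F.card + 1),
          C ((((lkF S F).filter (fun G => G.card = j)).card : ℕ) : ℤ) * X ^ j *
            (1 - X) ^ (d - F.card - j) =
        ∑ i ∈ Finset.range ((d - F.card) / 2 + 1),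
          C (γ' i) * X ^ i * (1 + X : ℤ[X]) ^ (d - F.card - 2 * i)) →
        ∀ i, 2 ≤ i → i ≤ (d - F.card) / 2 → γ i = γ' i) ∧
      (∀ i, (d - F.card) / 2 < i → i ≤ d / 2 → γ i = 0) ∧
      (Sm S d F → ∀ i, i ≤ d / 2 → 0 ≤ γ i)) ∧
    (gt S d ∅ = 0 ↔ ∃ T, OR d ∅ S T ∧ Cross d T) ∧
    (5 ≤ d → (∀ F ∈ S, F.card + 4 = d → gt S d F = 0) → gt S d ∅ = 0) := by
  have hE := TT.eul_of_hs h
  have hLm := G2.lemmaL (fam h hE)
  have h0 : (∅ : Finset V) ∈ S := h.flag ∅ (fun a ha => absurd ha (Finset.notMem_empty a))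
  obtain ⟨g, hg⟩ := G3.gammas hE
  have hg' : G3.GV S d g := hg
  have hag : ∀ i, i ≤ d / 2 → γ i = g ∅ i := by
    have h1 := agree h hg' h0 γ (by
      rw [lkF_empty, Finset.card_empty, Nat.sub_zero]
      exact hγ)
    rw [Finset.card_empty, Nat.sub_zero] at h1
    exact h1
  have hg0 : gt S d ∅ = g ∅ 2 := gt_g h hg' h0 (by rw [Finset.card_empty]; omega)
  refine ⟨?_, ?_, ?_⟩
  · intro F hF hFd heq
    have h1 := gt_g h hg' hF hFd
    rw [h1, hg0] at heq
    have h2 := face_gamma h hg' F.card ∅ F (Finset.empty_subset _) hF (by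
      rw [Finset.sdiff_empty]) hFd heq
    refine ⟨?_, ?_, ?_⟩
    · intro γ' hγ' i hi hi'
      rw [hag i (by omega), ← h2 i hi]
      exact (agree h hg' hF γ' hγ' i hi').symm
    · intro i hi hi'
      rw [hag i hi', ← h2 i (by omega)]
      exact (hg F hF).1 i (by omega)
    · intro hs i hi
      rw [hag i hi]
      rcases Nat.lt_or_ge i 2 with h3 | h3
      · have h4 := sm_gal h hg' hF hFd hs
        obtain ⟨h5, h6⟩ := G3.entries hE hg' ∅ h0 d (by simp) (by omega)
        interval_cases i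
        · rw [← hag 0 (by omega), G3.gamma_zero_eq h0 γ hγ]
          norm_num
        · rw [h5, fn_one S hE.down]
          have h7 := lv_two_mul h d ∅ h0 (by simp)
          have h8 : (2 * d : ℤ) ≤ (lv S ∅).card := by exact_mod_cast h7
          linarith
      · rw [← h2 i h3]
        exact sm_gal h hg' hF hFd hs i
  · have h1 := gt_gg h h0
    rw [Finset.card_empty, Nat.sub_zero] at h1
    rw [← zero_or h hd, ← h1]
    constructor
    · intro h2
      rw [h2, mul_zero]
    · intro h2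
      linarith
  · intro hd5 hz
    rw [hg0]
    refine ld_one h hg' ?_ d ∅ h0 (by simp) hd 2 le_rfl
    intro σ hσ hσd
    rw [← gt_g h hg' hσ (by omega)]
    exact hz σ hσ hσd

end Pool.Agent.MP19e880.DB
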