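import Pool.Agent.Lib.MP_19e880_co_DB.Eu
import Pool.Agent.Lib.MP_19e880_co_LD.Ldg
import Pool.Agent.Lib.MP_19e880_co_LD.Cf

/-!
Spheres of rank 5 with few vertices whose links have a nonzero second entry.
-/

set_option autoImplicit false
set_option linter.unusedSectionVars false

namespace Pool.Agent.MP19e880.DB

open Pool.Agent.MP19e880 Pool.Agent.MP19e880.W1 Pool.Agent.MP19e880.LD

variable {V : Type} [Fintype V] [LinearOrder V] {k : Type} [Field k]

/-- `gen` vanishes exactly on the edges (`gen_zero`, `gen_ne`). -/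
theorem gn_gen (S : Finset (Finset V)) (X : Finset V) : Gn (gen k (ad S)) (ad S) X := by
  intro a _ b _ hab
  constructor
  · intro h
    by_contra h'
    exact gen_ne k hab h' h
  · intro h
    exact gen_zero k h

private theorem Five_nh_sub {A : V → V → Prop} {T X : Finset V} {x : V} (h : T ⊆ X) :
    nh A T x ⊆ nh A X x := by
  intro w hw
  rw [AddvAux.mem_nh] at hw ⊢
  exact ⟨h hw.1, hw.2⟩

/-- The neighbours of a vertex, if the alternating sum of its link (rank 4) vanishes: `LD.ld` with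
`p = 1` for the link (`Loc k 1 4`: `Cert.low`, `red_gv`) and `hv_lk`. -/
theorem hv_zero {S : Finset (Finset V)} (h : HS k S 5) {v : V} (hv : v ∈ lv S ∅)
    (h0 : ∑ F ∈ lkF S {v}, (-2 : ℤ) ^ (4 - F.card) = 0) :
    HV (gen k (ad S)) (ad S) (nh (ad S) (lv S ∅) v) 2 := by
  have hv' : ({v} : Finset V) ∈ S := (mem_lv0 v).mp hv
  have hL : HS k (lkF S {v}) 4 := by
    have h1 := hs_lk h {v} hv'
    rw [Finset.card_singleton] at h1
    exact h1
  have hloc : Loc k 1 4 (lkF S {v}) := by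
    refine ⟨?_, ?_⟩
    · intro ρ hρ _
      exact red_gv (Cert.low (4 - ρ.card) ((4 - ρ.card + 1) / 2) _ (by omega) (by omega))
        (hs_lk hL ρ hρ)
    · intro ρ _ hc
      have hr : ρ = ∅ := by
        rw [← Finset.card_eq_zero]
        omega
      rw [hr, lkF_empty]
      exact h0
  exact hv_lk h hv (ld (le_refl 1) 4 (lkF S {v}) hL hloc).1

/-- At most 8 vertices whose link has a nonzero alternating sum: exactness in degree 3, by adding
the other vertices one by one to the set of these vertices (`few` with `j = 3`, `EX_add`,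
`hv_zero`). -/
theorem five_three {S : Finset (Finset V)} (h : HS k S 5) {Γ : Finset V} (hΓ : Γ ⊆ lv S ∅)
    (h8 : Γ.card ≤ 8)
    (h0 : ∀ v ∈ lv S ∅, v ∉ Γ → ∑ F ∈ lkF S {v}, (-2 : ℤ) ^ (4 - F.card) = 0) :
    EX (gen k (ad S)) (ad S) (lv S ∅) (lv S ∅) 3 := by
  have key : ∀ Z : Finset V, Z ⊆ lv S ∅ \ Γ →
      EX (gen k (ad S)) (ad S) (lv S ∅) (Γ ∪ Z) 3 := by
    intro Z
    induction Z using Finset.induction_on with
    | empty =>
      intro _
      rw [Finset.union_empty]
      exact (few (ad_symm S) (gn_gen S Γ) (by omega)).mono hΓ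
    | insert v Z hvZ ih =>
      intro hZ
      have h1 := ih (fun w hw => hZ (Finset.mem_insert_of_mem hw))
      have hv1 := Finset.mem_sdiff.mp (hZ (Finset.mem_insert_self v Z))
      have hT : Γ ∪ Z ⊆ lv S ∅ := by
        intro w hw
        rcases Finset.mem_union.mp hw with hw | hw
        · exact hΓ hw
        · exact (Finset.mem_sdiff.mp (hZ (Finset.mem_insert_of_mem hw))).1
      have hvT : v ∉ Γ ∪ Z := by
        intro hw
        rcases Finset.mem_union.mp hw with hw | hw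
        · exact hv1.2 hw
        · exact hvZ hw
      rw [Finset.union_insert]
      exact EX_add (ad_symm S) (fun a _ b _ _ hab => gen_zero k hab) hv1.1 hvT hT h1
        (hv_EX (hv_zero h hv1.1 (h0 v hv1.1 hv1.2)) (Five_nh_sub hT) (le_refl 2))
  have h2 := key (lv S ∅ \ Γ) (Finset.Subset.refl _)
  rwa [Finset.union_sdiff_of_subset hΓ] at h2

/-- Degrees 0, 1 by `Cert.low`, degrees 4, 5, ... by `ex_high`, degree 3 by `five_three`, degree 2
by `ex_odd`. -/
theorem five_gv {S : Finset (Finset V)} (h : HS k S 5) {Γ : Finset V} (hΓ : Γ ⊆ lv S ∅)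
    (h8 : Γ.card ≤ 8)
    (h0 : ∀ v ∈ lv S ∅, v ∉ Γ → ∑ F ∈ lkF S {v}, (-2 : ℤ) ^ (4 - F.card) = 0) :
    ∀ n, GV k (ad S) (lv S ∅) n := by
  have hG : GV k (ad S) (lv S ∅) 2 := red_gv (Cert.low 5 2 S (by omega) (by omega)) h
  refine ex_odd (i := 2) h (by norm_num) ?_
  intro j hj
  rcases Nat.lt_or_ge j 2 with h2 | h2
  · exact fun M _ _ ψ φ hR => hG M ψ φ hR j h2
  · by_cases h3 : j = 3
    · rw [h3]
      exact five_three h hΓ h8 h0
    · exact fun M _ _ ψ φ hR => ex_high h hG ψ φ hR j (by omega)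

/-- A link of rank 5 with second entry at most 4 (`gamma_sum`: the sum of the second entries of
the links of its vertices is `2 g σ 2 ≤ 8`; they are nonnegative; `top_lk` with `m = 2`). -/
theorem five_lk {S : Finset (Finset V)} {d : ℕ} (h : HS k S d) {g : Finset V → ℕ → ℤ}
    (hg : G3.GV S d g) {σ : Finset V} (hσ : σ ∈ S) (he : σ.card + 5 = d) (h4 : g σ 2 ≤ 4) :
    ∀ n, GV k (ad (lkF S σ)) (lv (lkF S σ) ∅) n := by
  have hE := TT.eul_of_hs h
  have hL : HS k (lkF S σ) 5 := by
    have h1 := hs_lk h σ hσ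
    rwa [show d - σ.card = 5 by omega] at h1
  have hlv : lv (lkF S σ) ∅ = lv S σ := lv_lkF h σ hσ
  have hnn : ∀ v ∈ lv S σ, 0 ≤ g (insert v σ) 2 := by
    intro v hv
    obtain ⟨h3, h5⟩ := G3.lv_card_insert (e := 4) he hv
    exact G3.nonneg h hE (G2.lemmaL (fam h hE)) hg (insert v σ) h3 4 h5 (by omega)
  have hs := G3.gamma_sum hE g hg σ hσ 5 he (by omega) 2
  have hg3 : g σ (2 + 1) = 0 := (hg σ hσ).1 (2 + 1) (by omega)
  rw [hg3] at hs
  have hΓ : (lv S σ).filter (fun v => g (insert v σ) 2 ≠ 0) ⊆ lv (lkF S σ) ∅ := by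
    rw [hlv]
    exact Finset.filter_subset _ _
  have hcard : ((lv S σ).filter (fun v => g (insert v σ) 2 ≠ 0)).card ≤ 8 := by
    have h1 : (((lv S σ).filter (fun v => g (insert v σ) 2 ≠ 0)).card : ℤ) ≤
        ∑ v ∈ (lv S σ).filter (fun v => g (insert v σ) 2 ≠ 0), g (insert v σ) 2 := by
      rw [Finset.card_eq_sum_ones]
      push_cast
      refine Finset.sum_le_sum fun v hv => ?_
      rw [Finset.mem_filter] at hv
      have := hnn v hv.1
      omega
    have h2 : ∑ v ∈ (lv S σ).filter (fun v => g (insert v σ) 2 ≠ 0), g (insert v σ) 2 ≤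
        ∑ v ∈ lv S σ, g (insert v σ) 2 :=
      Finset.sum_le_sum_of_subset_of_nonneg (Finset.filter_subset _ _)
        (fun v hv _ => hnn v hv)
    have h3 := h1.trans (h2.trans (le_of_eq hs))
    push_cast at h3
    omega
  refine five_gv hL hΓ hcard ?_
  intro v hv hvΓ
  have hvσ : v ∈ lv S σ := by
    rw [← hlv]
    exact hv
  have hz : g (insert v σ) 2 = 0 := by
    by_contra hne
    exact hvΓ (Finset.mem_filter.mpr ⟨hvσ, hne⟩)
  obtain ⟨h3, h5⟩ := G3.lv_card_insert (e := 4) he hvσ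
  have hvL : ({v} : Finset V) ∈ lkF S σ := (mem_lv0 v).mp hv
  rw [(lkF_lkF h hσ hvL).1, ← Finset.insert_eq]
  exact (top_lk h hg h3 2 (by omega)).mpr hz

end Pool.Agent.MP19e880.DB
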