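import Pool.Agent.Lib.MP_19e880_co_DB.Sgc

/-!
All entries are nonnegative if the second entry is small, locally.
-/

set_option autoImplicit false
set_option linter.unusedSectionVars false

namespace Pool.Agent.MP19e880.DB

open Pool.Agent.MP19e880 Pool.Agent.MP19e880.W1 Pool.Agent.MP19e880.LD Pool.Agent.MP19e880.FV

variable {V : Type} [Fintype V] [LinearOrder V] {k : Type} [Field k]

private theorem gal_bd {S : Finset (Finset V)} {d : ℕ} (h : HS k S d) {g : Finset V → ℕ → ℤ}
    (hg : G3.GV S d g) {c : ℕ} {b : ℤ} (hc : c ≤ d) (h3 : ∀ τ ∈ S, τ.card + c = d → g τ 2 ≤ b)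
    {σ : Finset V} (hσ : σ ∈ S) (h1 : σ.card + 4 ≤ d) (h2 : d ≤ σ.card + c) : g σ 2 ≤ b := by
  obtain ⟨τ, hτ, hτc⟩ := Finset.exists_subset_card_eq (show d - c ≤ σ.card by omega)
  exact (mono_face h hg hτ hσ h1).trans (h3 τ (h.down σ hσ τ hτ) (by omega))

/-- `d ≥ 9`, all links of rank 8 have second entry at most 3: the entries from the fourth one on
vanish in rank at least 7. `LD.ld_gamma` with `p = 3`: rank 8: `three_gv` and `three_gamma`; rank 7:
`three_gv`; rank 6: `six_three`; rank 5: `five_lk`; ranks at most 4: `Cert.low` and `red_gv`; the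
second entries of the links of rank at most 8 are at most 3 (`mono_face`; every face with at least
`d - 8` vertices contains one with `d - 8` vertices). -/
theorem loc_three {S : Finset (Finset V)} {d : ℕ} (h : HS k S d) {g : Finset V → ℕ → ℤ}
    (hg : G3.GV S d g) (hd : 8 ≤ d) (h3 : ∀ τ ∈ S, τ.card + 8 = d → g τ 2 ≤ 3) :
    ∀ (e : ℕ) (σ : Finset V), σ ∈ S → σ.card + e = d → 7 ≤ e → ∀ i, 4 ≤ i → g σ i = 0 := by
  refine LD.ld_gamma h hg (p := 3) (by norm_num) ?_ ?_
  · intro σ hσ hc
    have hle := h.card_le σ hσ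
    have hcase : d - σ.card ≤ 4 ∨ σ.card + 5 = d ∨ σ.card + 6 = d ∨ 7 ≤ d - σ.card := by omega
    rcases hcase with h4 | h5 | h6 | h7
    · exact red_gv (Cert.low (d - σ.card) _ _ (by omega) (by omega)) (hs_lk h σ hσ)
    · have hb := gal_bd h hg hd h3 hσ (by omega) (by omega)
      exact five_lk h hg hσ h5 (by omega) _
    · rw [show (d - σ.card + 1) / 2 = 3 by omega]
      refine six_three h hg hσ h6 fun v hv => ?_
      have hv' := (mem_lv σ v).mp hv
      have hcv := Finset.card_insert_of_notMem hv'.1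
      have hb := gal_bd h hg hd h3 hv'.2 (by omega) (by omega)
      omega
    · have hb := gal_bd h hg hd h3 hσ (by omega) (by omega)
      exact three_gv h hg hσ (show σ.card + (d - σ.card) = d by omega) h7 hb _
  · intro σ hσ hc
    exact (three_gamma h hg 8 σ hσ (by omega) (by norm_num) (h3 σ hσ (by omega))).2 4 le_rfl

/-- The third entry, by averaging: `gamma_sum` with `j = 3` in rank `e ≥ 7`:
`∑ g (insert v σ) 3 = (2 e - 12) g σ 3 + 4 g σ 4`, and `g σ 4 = 0` (`loc_three`); rank at most 6: `three_gamma`. -/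
theorem loc_three_nonneg {S : Finset (Finset V)} {d : ℕ} (h : HS k S d) {g : Finset V → ℕ → ℤ}
    (hg : G3.GV S d g) (hd : 8 ≤ d) (h3 : ∀ τ ∈ S, τ.card + 8 = d → g τ 2 ≤ 3) :
    ∀ (e : ℕ) (σ : Finset V), σ ∈ S → σ.card + e = d → 0 ≤ g σ 3 := by
  have hE := TT.eul_of_hs h
  intro e
  induction e with
  | zero =>
    intro σ hσ he
    exact ((hg σ hσ).1 3 (by omega)).ge
  | succ e ih =>
    intro σ hσ he
    have hcase : e + 1 ≤ 5 ∨ e + 1 = 6 ∨ 7 ≤ e + 1 := by omega
    rcases hcase with h5 | h6 | h7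
    · exact ((hg σ hσ).1 3 (by omega)).ge
    · have hb := gal_bd h hg hd h3 hσ (by omega) (by omega)
      exact (three_gamma h hg (e + 1) σ hσ he (by omega) hb).1
    · have h4 := loc_three h hg hd h3 (e + 1) σ hσ he h7 4 le_rfl
      have hs := G3.gamma_sum hE g hg σ hσ (e + 1) he (by omega) 3
      have hnn : 0 ≤ ∑ v ∈ lv S σ, g (insert v σ) 3 := by
        refine Finset.sum_nonneg fun v hv => ?_
        obtain ⟨h8, h9⟩ := G3.lv_card_insert he hv
        exact ih _ h8 h9
      rw [hs, h4] at hnn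
      push_cast at hnn
      have h10 : (7 : ℤ) ≤ (e : ℤ) + 1 := by exact_mod_cast h7
      by_contra hneg
      push Not at hneg
      nlinarith

/-- All entries are nonnegative. Entries 0, 1: `G3` (`entries`, `lv_two_mul`); entry 2: `G3.nonneg`.
First case (`d = 6`: `six_five`; `d = 7`: `gamma_sum` with `j = 3`, `e = 7`:
`∑ g {v} 3 = 2 g ∅ 3`, and `six_five` for the vertex links; `g ∅ i = 0` for `4 ≤ i`). Second case:
`loc_three`, `loc_three_nonneg`. Third case: `loc_two` (`d ≥ 7`), `six_zero` (`d = 6`). -/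
theorem gal {S : Finset (Finset V)} {d : ℕ} (h : HS k S d) {g : Finset V → ℕ → ℤ}
    (hg : G3.GV S d g) (hd : 4 ≤ d)
    (hc : d ≤ 5 ∨ (d ≤ 7 ∧ ∀ τ ∈ S, τ.card + 6 = d → g τ 2 ≤ 5) ∨
      (8 ≤ d ∧ ∀ τ ∈ S, τ.card + 8 = d → g τ 2 ≤ 3) ∨
      (6 ≤ d ∧ ∀ τ ∈ S, τ.card + 6 = d → g τ 2 ≤ 2)) : ∀ i, 0 ≤ g ∅ i := by
  have hE := TT.eul_of_hs h
  have hLm := G2.lemmaL (fam h hE)
  have h0 : (∅ : Finset V) ∈ S := h.flag ∅ (by simp)
  have hce : (∅ : Finset V).card + d = d := by simp
  intro i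
  have hi : i = 0 ∨ i = 1 ∨ i = 2 ∨ 3 ≤ i := by omega
  rcases hi with rfl | rfl | rfl | hi3
  · have h1 : g ∅ 0 = 1 := by
      refine G2.gamma_zero d (fun j => (fn S ∅ j : ℤ)) (g ∅) ?_ ?_
      · rw [fn_zero S ∅ h0]
        rfl
      · have h2 := (hg ∅ h0).2
        rw [hE.H_sum' ∅ h0 d hce, Finset.card_empty, Nat.sub_zero] at h2
        rw [← h2]
        refine Finset.sum_congr rfl fun j _ => ?_
        rw [mul_assoc]
    rw [h1]
    norm_num
  · rw [(G3.entries hE hg ∅ h0 d hce hd).1, fn_one S hE.down]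
    have h2 := lv_two_mul h d ∅ h0 hce
    have h3 : (2 * d : ℤ) ≤ (lv S ∅).card := by exact_mod_cast h2
    linarith
  · exact G3.nonneg h hE hLm hg ∅ h0 d hce hd
  · have hz : d < 2 * i → 0 ≤ g ∅ i := fun hlt => ((hg ∅ h0).1 i (by simpa using hlt)).ge
    rcases hc with h5 | ⟨h7, hb⟩ | ⟨h8, hb⟩ | ⟨h6, hb⟩
    · exact hz (by omega)
    · have hcase : d ≤ 5 ∨ d = 6 ∨ d = 7 := by omega
      rcases hcase with hd5 | hd6 | hd7
      · exact hz (by omega)
      · rcases Nat.lt_or_ge i 4 with hi4 | hi4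
        · rw [show i = 3 by omega]
          exact six_five h hg h0 (by rw [Finset.card_empty]; omega)
            (hb ∅ h0 (by rw [Finset.card_empty]; omega))
        · exact hz (by omega)
      · rcases Nat.lt_or_ge i 4 with hi4 | hi4
        · rw [show i = 3 by omega]
          have hs := G3.gamma_sum hE g hg ∅ h0 d hce (by omega) 3
          have h4 : g ∅ (3 + 1) = 0 := (hg ∅ h0).1 4 (by rw [Finset.card_empty]; omega)
          have hnn : 0 ≤ ∑ v ∈ lv S ∅, g (insert v ∅) 3 := by
            refine Finset.sum_nonneg fun v hv => ?_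
            have hv' := (mem_lv ∅ v).mp hv
            have hcv := Finset.card_insert_of_notMem hv'.1
            rw [Finset.card_empty] at hcv
            exact six_five h hg hv'.2 (by omega) (hb _ hv'.2 (by omega))
          rw [hs, h4, hd7] at hnn
          push_cast at hnn
          linarith
        · exact hz (by omega)
    · rcases Nat.lt_or_ge i 4 with hi4 | hi4
      · rw [show i = 3 by omega]
        exact loc_three_nonneg h hg h8 hb d ∅ h0 hce
      · exact (loc_three h hg h8 hb d ∅ h0 hce (by omega) i hi4).ge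
    · rcases Nat.lt_or_ge d 7 with hd7 | hd7
      · rcases Nat.lt_or_ge i 4 with hi4 | hi4
        · rw [show i = 3 by omega]
          exact (six_zero h hg h0 (by rw [Finset.card_empty]; omega)
            (hb ∅ h0 (by rw [Finset.card_empty]; omega))).ge
        · exact hz (by omega)
      · exact ((loc_two h hg h0 hce hd7 (fun τ hτ _ hc' => hb τ hτ hc')).2 i hi3).ge

end Pool.Agent.MP19e880.DB
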