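import Pool.Agent.Lib.MP_19e880_co_LD.Fin

/-!
Rigidity: the faces whose links have the same second entry as the whole sphere.
-/

set_option autoImplicit false
set_option linter.unusedSectionVars false
set_option linter.unusedVariables false

namespace Pool.Agent.MP19e880.DB

open Pool.Agent.MP19e880 Pool.Agent.MP19e880.W1 Pool.Agent.MP19e880.LD Pool.Agent.MP19e880.FV

variable {V : Type} [Fintype V] [LinearOrder V] {k : Type} [Field k]

/-- `T` is a suspension with pole `x`. -/
def Pole (T : Finset (Finset V)) (x : V) : Prop :=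
  ∃ y, {y} ∈ T ∧ y ≠ x ∧ ({x, y} : Finset V) ∉ T ∧
    ∀ w, {w} ∈ T → w ≠ x → w ≠ y → ({x, w} : Finset V) ∈ T ∧ ({y, w} : Finset V) ∈ T

private theorem r_empty {S : Finset (Finset V)} {d : ℕ} (h : HS k S d) : (∅ : Finset V) ∈ S :=
  h.flag ∅ (fun a ha => absurd ha (Finset.notMem_empty a))

private theorem r_lv {S : Finset (Finset V)} {y : V} : y ∈ lv S ∅ ↔ ({y} : Finset V) ∈ S := by
  rw [mem_lv, insert_empty_eq]
  simp

/-- The link of a pole has the same second entry. -/
theorem pole_gg {T : Finset (Finset V)} {d : ℕ} (h : HS k T d) {x : V} (hx : ({x} : Finset V) ∈ T)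
    (hp : Pole T x) : gg T (d - 1) {x} = gg T d ∅ := by
  classical
  obtain ⟨y, hy, hyx, hxy, hw⟩ := hp
  have hE := TT.eul_of_hs h
  have hF := fam h hE
  have hd : 1 ≤ d := by
    have := h.card_le _ hx
    rwa [Finset.card_singleton] at this
  have hxU : x ∈ lv T ∅ := r_lv.mpr hx
  have hyU : y ∈ lv T ∅ := r_lv.mpr hy
  have hnb := nb_lv h hE ∅ x hxU
  rw [insert_empty_eq] at hnb
  set U := lv T ∅ with hU
  set N := Low.nb (Adj T) U x with hN
  have hxN : x ∉ N := fun h' => hF.irr x (Low.mem_nb.mp h').2
  have hyN : y ∉ N := fun h' => hxy (Low.mem_nb.mp h').2.2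
  have hmem : ∀ w : V, w ∈ N ↔ w ∈ U ∧ w ≠ x ∧ w ≠ y := by
    intro w
    rw [hN, Low.mem_nb]
    constructor
    · rintro ⟨h1, h2⟩
      refine ⟨h1, fun e => h2.1 e.symm, ?_⟩
      rintro rfl
      exact hxy h2.2
    · rintro ⟨h1, h2, h3⟩
      exact ⟨h1, fun e => h2 e.symm, (hw w (r_lv.mp h1) h2 h3).1⟩
  have hUe : U = insert x (insert y N) := by
    ext w
    rw [Finset.mem_insert, Finset.mem_insert, hmem]
    constructor
    · intro h1
      by_cases h2 : w = x
      · exact Or.inl h2
      · by_cases h3 : w = y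
        · exact Or.inr (Or.inl h3)
        · exact Or.inr (Or.inr ⟨h1, h2, h3⟩)
    · rintro (rfl | rfl | h1)
      · exact hxU
      · exact hyU
      · exact h1.1
  have hny : Low.nb (Adj T) U y = N := by
    ext w
    rw [hmem, Low.mem_nb]
    constructor
    · rintro ⟨h1, h2⟩
      refine ⟨h1, ?_, fun e => h2.1 e.symm⟩
      rintro rfl
      apply hxy
      rw [Finset.pair_comm]
      exact h2.2
    · rintro ⟨h1, h2, h3⟩
      exact ⟨h1, fun e => h3 e.symm, (hw w (r_lv.mp h1) h2 h3).2⟩
  have hxyN : x ∉ insert y N := by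
    rw [Finset.mem_insert, not_or]
    exact ⟨hyx.symm, hxN⟩
  have hv : ∀ v ∈ N, (Low.nb (Adj T) U v).card = (Low.nb (Adj T) N v).card + 2 := by
    intro v hv
    obtain ⟨v1, v2, v3⟩ := (hmem v).mp hv
    obtain ⟨a1, a2⟩ := hw v (r_lv.mp v1) v2 v3
    have h1 : Low.nb (Adj T) U v = insert x (insert y (Low.nb (Adj T) N v)) := by
      ext w
      rw [Finset.mem_insert, Finset.mem_insert, Low.mem_nb, Low.mem_nb]
      constructor
      · rintro ⟨h1, h2⟩
        rw [hUe, Finset.mem_insert, Finset.mem_insert] at h1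
        rcases h1 with h1 | h1 | h1
        · exact Or.inl h1
        · exact Or.inr (Or.inl h1)
        · exact Or.inr (Or.inr ⟨h1, h2⟩)
      · rintro (rfl | rfl | ⟨h1, h2⟩)
        · exact ⟨hxU, v2, by rw [Finset.pair_comm]; exact a1⟩
        · exact ⟨hyU, v3, by rw [Finset.pair_comm]; exact a2⟩
        · exact ⟨((hmem w).mp h1).1, h2⟩
    rw [h1, Finset.card_insert_of_notMem, Finset.card_insert_of_notMem]
    · intro h'
      exact hyN (Low.mem_nb.mp h').1
    · rw [Finset.mem_insert, not_or]
      exact ⟨hyx.symm, fun h' => hxN (Low.mem_nb.mp h').1⟩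
  have hcard : U.card = N.card + 2 := by
    rw [hUe, Finset.card_insert_of_notMem hxyN, Finset.card_insert_of_notMem hyN]
  have hdg : Low.dg (Adj T) U = Low.dg (Adj T) N + 4 * N.card := by
    have h1 : Low.dg (Adj T) U = (Low.nb (Adj T) U x).card + ((Low.nb (Adj T) U y).card +
        ∑ v ∈ N, (Low.nb (Adj T) U v).card) := by
      unfold Low.dg
      conv_lhs => rw [hUe]
      rw [Finset.sum_insert hxyN, Finset.sum_insert hyN, ← hUe]
    rw [h1, hny, ← hN, Finset.sum_congr rfl hv, Finset.sum_add_distrib, Finset.sum_const,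
      smul_eq_mul]
    unfold Low.dg
    ring
  unfold gg Low.Fam.g2
  rw [← hnb, ← hU, hdg, hcard]
  push_cast [Nat.cast_sub hd]
  ring

/-- Monotonicity of the second entry, in all ranks. -/
theorem gg_step {S : Finset (Finset V)} {d : ℕ} (h : HS k S d) {F : Finset V} {x : V}
    (hx : x ∈ lv S F) : gg S (d - (insert x F).card) (insert x F) ≤ gg S (d - F.card) F := by
  have hE := TT.eul_of_hs h
  have hx' := (mem_lv F x).mp hx
  have hF : F ∈ S := h.down _ hx'.2 _ (Finset.subset_insert _ _)
  have hc := h.card_le _ hx'.2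
  rw [Finset.card_insert_of_notMem hx'.1] at hc ⊢
  have hnb := nb_lv h hE F x hx
  obtain ⟨m, hm⟩ : ∃ m, d - F.card = m + 1 := ⟨d - F.card - 1, by omega⟩
  have hm' : d - (F.card + 1) = m := by omega
  rw [hm, hm']
  have hU : Lk S d (m + 1) (lv S F) := ⟨F, hF, rfl, by omega⟩
  rcases Nat.eq_zero_or_pos m with h0 | h0
  · subst h0
    obtain ⟨a, b, hab, hA, hCe⟩ := (fam h hE).one _ hU
    have h1 : lv S (insert x F) = ∅ := by
      rw [← hnb]
      have h2 := (fam h hE).link 0 _ x hU hx
      exact ((fam h hE).zero _).mp h2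
    have h2 : ∀ v ∈ lv S F, (Low.nb (Adj S) (lv S F) v).card = 0 := by
      intro v hv
      rw [Finset.card_eq_zero]
      exact ((fam h hE).zero _).mp ((fam h hE).link 0 _ v hU hv)
    unfold gg Low.Fam.g2 Low.dg
    rw [Finset.sum_congr rfl h2, h1, hCe, Finset.card_pair hab]
    simp
  · obtain ⟨j, rfl⟩ : ∃ j, m = j + 1 := ⟨m - 1, by omega⟩
    have key := G2.g2_link (fam h hE) (G2.lemmaL (fam h hE)) j _ x hU hx
    rw [hnb] at key
    unfold gg
    exact key

theorem gt_mono {S : Finset (Finset V)} {d : ℕ} (h : HS k S d) : ∀ (n : ℕ) (F G : Finset V),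
    F ⊆ G → G ∈ S → (G \ F).card = n → gt S d G ≤ gt S d F := by
  intro n
  induction n with
  | zero =>
    intro F G hF _ hn
    have h1 : G ⊆ F := by
      rw [← Finset.sdiff_eq_empty_iff_subset]
      exact Finset.card_eq_zero.mp hn
    rw [Finset.Subset.antisymm hF h1]
  | succ n ih =>
    intro F G hF hG hn
    obtain ⟨v, hv⟩ : (G \ F).Nonempty := by
      rw [← Finset.card_pos]
      omega
    rw [Finset.mem_sdiff] at hv
    have hG' : G.erase v ∈ S := h.down G hG _ (Finset.erase_subset _ _)
    have hvl : v ∈ lv S (G.erase v) := by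
      rw [mem_lv, Finset.insert_erase hv.1]
      exact ⟨Finset.notMem_erase _ _, hG⟩
    have h1 := ih F (G.erase v) (Finset.subset_erase.mpr ⟨hF, hv.2⟩) hG' (by
      rw [Finset.erase_sdiff_comm, Finset.card_erase_of_mem (Finset.mem_sdiff.mpr hv), hn]
      omega)
    have h2 := gg_step h hvl
    rw [Finset.insert_erase hv.1, ← gt_gg h hG, ← gt_gg h hG'] at h2
    linarith

theorem OR.mono {d : ℕ} {K K' : Finset V} (hK : K' ⊆ K) {S T : Finset (Finset V)}
    (ho : OR d K S T) : OR d K' S T := by
  induction ho with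
  | refl S => exact .refl S
  | step S T a b h1 h2 h3 h4 h5 h6 _ ih =>
    exact .step S T a b h1 (fun h' => h2 (hK h')) (fun h' => h3 (hK h')) h4 h5 h6 ih

theorem OR.trans {d : ℕ} {K : Finset V} {S T R : Finset (Finset V)}
    (ho : OR d K S T) (ho' : OR d K T R) : OR d K S R := by
  induction ho with
  | refl S => exact ho'
  | step S T a b h1 h2 h3 h4 h5 h6 _ ih =>
    exact .step S R a b h1 h2 h3 h4 h5 h6 (ih ho')

/-- Reductions keep poles which, with their antipodes, are avoided. -/
theorem OR.pole {d : ℕ} {K : Finset V} {S T : Finset (Finset V)} (ho : OR d K S T) :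
    HS k S d → ∀ x y, x ∈ K → y ∈ K → ({x} : Finset V) ∈ S → {y} ∈ S → ({x, y} : Finset V) ∉ S →
      (∀ w, {w} ∈ S → w ≠ x → w ≠ y → ({x, w} : Finset V) ∈ S ∧ ({y, w} : Finset V) ∈ S) →
      {x} ∈ T ∧ {y} ∈ T ∧ ({x, y} : Finset V) ∉ T ∧
      (∀ w, {w} ∈ T → w ≠ x → w ≠ y → ({x, w} : Finset V) ∈ T ∧ ({y, w} : Finset V) ∈ T) := by
  induction ho with
  | refl S =>
    intro _ x y _ _ h1 h2 h3 h4
    exact ⟨h1, h2, h3, h4⟩
  | step S T a b hab haK hbK habS hno hcard _ ih =>
    intro h x y hxK hyK h1 h2 h3 h4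
    have hxa : x ≠ a := fun e => haK (e ▸ hxK)
    have hxb : x ≠ b := fun e => hbK (e ▸ hxK)
    have hya : y ≠ a := fun e => haK (e ▸ hyK)
    have hyb : y ≠ b := fun e => hbK (e ▸ hyK)
    have h' := W1.hs_con h a b hab habS hno
    have key : ∀ G : Finset V, b ∉ G → G ∈ S → G ∈ W1.con S a b := by
      intro G hb hG
      rw [W1.CtrcAux.mem_con h.down hab]
      exact ⟨hb, Or.inl hG⟩
    refine ih h' x y hxK hyK (key _ ?_ h1) (key _ ?_ h2) ?_ ?_
    · rw [Finset.mem_singleton]
      exact hxb.symm
    · rw [Finset.mem_singleton]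
      exact hyb.symm
    · rw [W1.CtrcAux.mem_con h.down hab]
      rintro ⟨_, h5 | ⟨h5, _⟩⟩
      · exact h3 h5
      · rw [Finset.mem_insert, Finset.mem_singleton] at h5
        rcases h5 with h5 | h5
        · exact hxa h5.symm
        · exact hya h5.symm
    · intro w hw hwx hwy
      rw [← r_lv, W1.lv_con h.down a b hab habS, Finset.mem_erase, r_lv] at hw
      obtain ⟨h5, h6⟩ := h4 w hw.2 hwx hwy
      constructor
      · refine key _ ?_ h5
        rw [Finset.mem_insert, Finset.mem_singleton, not_or]
        exact ⟨hxb.symm, hw.1.symm⟩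
      · refine key _ ?_ h6
        rw [Finset.mem_insert, Finset.mem_singleton, not_or]
        exact ⟨hyb.symm, hw.1.symm⟩

/-- The link of a face is determined by the link of one of its vertices. -/
theorem lk_face {S T : Finset (Finset V)} {d : ℕ} (h : HS k S d) (h' : HS k T d) {x : V}
    (hx : lkF T {x} = lkF S {x}) {F : Finset V} (hF : F ∈ S) (hxF : x ∈ F) :
    F ∈ T ∧ lkF T F = lkF S F := by
  have key : ∀ G : Finset V, x ∈ G → (G ∈ T ↔ G ∈ S) := by
    intro G hG
    have h1 : ∀ R : Finset (Finset V), HS k R d → (G.erase x ∈ lkF R {x} ↔ G ∈ R) := by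
      intro R hR
      rw [W1.HslkAux.mem_lk hR]
      have h2 : G.erase x ∪ {x} = G := by
        rw [Finset.union_comm, Finset.singleton_union, Finset.insert_erase hG]
      rw [h2]
      exact ⟨fun h3 => h3.2, fun h3 => ⟨by simp, h3⟩⟩
    rw [← h1 T h', ← h1 S h, hx]
  refine ⟨(key F hxF).mpr hF, ?_⟩
  ext G
  rw [W1.HslkAux.mem_lk h', W1.HslkAux.mem_lk h, key _ (Finset.mem_union_right _ hxF)]

theorem gt_lk {S T : Finset (Finset V)} {F : Finset V} {d : ℕ} (h : lkF T F = lkF S F) :
    gt T d F = gt S d F := by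
  unfold gt
  rw [h]

theorem lv_lk {S T : Finset (Finset V)} {d : ℕ} (h : HS k S d) (h' : HS k T d) {F : Finset V}
    (hF : F ∈ S) (hF' : F ∈ T) (he : lkF T F = lkF S F) : lv T F = lv S F := by
  rw [← W1.lv_lkF h F hF, ← W1.lv_lkF h' F hF', he]

/-- The reduction. -/
theorem rig_fwd {S : Finset (Finset V)} {d : ℕ} (h : HS k S d) (hd : 2 ≤ d) {F : Finset V}
    (hF : F ∈ S) (hg : gt S d F = gt S d ∅) : ∀ A : Finset V, A ⊆ F →
    ∃ T, OR d (F ∪ lv S F) S T ∧ F ∈ T ∧ lkF T F = lkF S F ∧ ∀ x ∈ A, Pole T x := by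
  classical
  intro A
  induction A using Finset.induction_on with
  | empty =>
    intro _
    exact ⟨S, .refl S, hF, rfl, fun x hx => absurd hx (Finset.notMem_empty x)⟩
  | insert x A hxA ih =>
    intro hA
    have hxF : x ∈ F := hA (Finset.mem_insert_self _ _)
    obtain ⟨T, hT, hFT, hl, hp⟩ := ih (fun a ha => hA (Finset.mem_insert_of_mem ha))
    obtain ⟨hT', hgT, -⟩ := OR.keep hd hT h
    have h0 := r_empty h
    have h0' := r_empty hT'
    have hxT : ({x} : Finset V) ∈ T := hT'.down F hFT _ (Finset.singleton_subset_iff.mpr hxF)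
    have e0 : gt T d ∅ = gt S d ∅ := by
      have h1 := gt_gg h h0
      have h2 := gt_gg hT' h0'
      rw [Finset.card_empty, Nat.sub_zero] at h1 h2
      rw [hgT, ← h1] at h2
      linarith
    have e1 : gt T d {x} = gt T d ∅ := by
      refine le_antisymm (gt_mono hT' _ _ _ (Finset.empty_subset _) hxT rfl) ?_
      rw [e0, ← hg, ← gt_lk hl]
      exact gt_mono hT' _ _ _ (Finset.singleton_subset_iff.mpr hxF) hFT rfl
    have e2 : gg T (d - 1) {x} = gg T d ∅ := by
      have h1 := gt_gg hT' hxT
      have h2 := gt_gg hT' h0'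
      rw [Finset.card_empty, Nat.sub_zero] at h2
      rw [Finset.card_singleton] at h1
      rw [← h1, ← h2, e1]
    obtain ⟨R, y, hR, r1, r2, r3, r4⟩ := full_or hT' hd (r_lv.mpr hxT) e2
    obtain ⟨hR', -, hk⟩ := OR.keep hd hR hT'
    obtain ⟨hxR, hlx⟩ := hk x (r_lv.mpr hxT) (Finset.Subset.refl _)
    obtain ⟨hFR, hlF⟩ := lk_face hT' hR' hlx hFT hxF
    have hFK : F ⊆ insert x (lv T {x}) := by
      intro a ha
      rw [Finset.mem_insert]
      by_cases hax : a = x
      · exact Or.inl hax
      · right
        rw [mem_lv, Finset.mem_singleton]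
        refine ⟨hax, hT'.down F hFT _ ?_⟩
        intro b hb
        rw [Finset.mem_insert, Finset.mem_singleton] at hb
        rcases hb with rfl | rfl
        · exact ha
        · exact hxF
    have hlK : lv S F ⊆ insert x (lv T {x}) := by
      rw [← lv_lk h hT' hF hFT hl]
      intro a ha
      rw [mem_lv] at ha
      rw [Finset.mem_insert, mem_lv, Finset.mem_singleton]
      right
      refine ⟨fun e => ha.1 (e ▸ hxF), hT'.down _ ha.2 _ ?_⟩
      intro b hb
      rw [Finset.mem_insert, Finset.mem_singleton] at hb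
      rw [Finset.mem_insert]
      rcases hb with rfl | rfl
      · exact Or.inl rfl
      · exact Or.inr hxF
    have hK : F ∪ lv S F ⊆ insert x (lv T {x}) := Finset.union_subset hFK hlK
    refine ⟨R, OR.trans hT (OR.mono hK hR), hFR, hlF.trans hl, ?_⟩
    intro z hz
    rw [Finset.mem_insert] at hz
    rcases hz with rfl | hz
    · exact ⟨y, r1, r2, r3, r4⟩
    · obtain ⟨u, u1, u2, u3, u4⟩ := hp z hz
      have hzF : z ∈ F := hA (Finset.mem_insert_of_mem hz)
      have hzx : x ≠ z := by
        rintro rfl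
        exact hxA hz
      have hxu : x ≠ u := by
        rintro rfl
        apply u3
        refine hT'.down F hFT _ ?_
        intro b hb
        rw [Finset.mem_insert, Finset.mem_singleton] at hb
        rcases hb with rfl | rfl
        · exact hzF
        · exact hxF
      obtain ⟨-, hux⟩ := u4 x hxT hzx hxu
      have huK : u ∈ insert x (lv T {x}) := by
        rw [Finset.mem_insert, mem_lv, Finset.mem_singleton]
        exact Or.inr ⟨hxu.symm, hux⟩
      obtain ⟨-, p2, p3, p4⟩ := OR.pole hR hT' z u (hFK hzF) huK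
        (hT'.down F hFT _ (Finset.singleton_subset_iff.mpr hzF)) u1 u3 u4
      exact ⟨u, p2, u2, p3, p4⟩

/-- Poles do not change the second entry. -/
theorem poles_gt {T : Finset (Finset V)} {d : ℕ} (h : HS k T d) {F : Finset V} (hF : F ∈ T)
    (hp : ∀ x ∈ F, Pole T x) : ∀ A : Finset V, A ⊆ F → gt T d A = gt T d ∅ := by
  classical
  intro A
  induction A using Finset.induction_on with
  | empty =>
    intro _
    rfl
  | insert x A hxA ih =>
    intro hA
    have hAF : A ⊆ F := fun a ha => hA (Finset.mem_insert_of_mem ha)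
    rw [← ih hAF]
    have hxF : x ∈ F := hA (Finset.mem_insert_self _ _)
    have hAT : A ∈ T := h.down F hF _ hAF
    have hxAT : insert x A ∈ T := h.down F hF _ hA
    have hL := W1.hs_lk h A hAT
    obtain ⟨y, y1, y2, y3, y4⟩ := hp x hxF
    have hpair : ∀ a ∈ A, ({x, a} : Finset V) ∈ T := by
      intro a ha
      refine h.down F hF _ ?_
      intro b hb
      rw [Finset.mem_insert, Finset.mem_singleton] at hb
      rcases hb with rfl | rfl
      · exact hxF
      · exact hAF ha
    have hax : ∀ a ∈ A, a ≠ x := by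
      rintro a ha rfl
      exact hxA ha
    have hay : ∀ a ∈ A, a ≠ y := by
      rintro a ha rfl
      exact y3 (hpair a ha)
    have hyA : y ∉ A := fun h' => hay y h' rfl
    have hyAT : insert y A ∈ T := by
      apply h.flag
      have hy' : ∀ a ∈ A, ({y, a} : Finset V) ∈ T := fun a ha =>
        (y4 a (h.down _ hAT _ (Finset.singleton_subset_iff.mpr ha)) (hax a ha) (hay a ha)).2
      intro a ha b hb
      rw [Finset.mem_insert] at ha hb
      rcases ha with rfl | ha
      · rcases hb with rfl | hb
        · rw [Finset.pair_eq_singleton]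
          exact y1
        · exact hy' b hb
      · rcases hb with rfl | hb
        · rw [Finset.pair_comm]
          exact hy' a ha
        · refine h.down _ hAT _ ?_
          intro c hc
          rw [Finset.mem_insert, Finset.mem_singleton] at hc
          rcases hc with rfl | rfl
          · exact ha
          · exact hb
    have hmem : ∀ G : Finset V, G ∈ lkF T A ↔ Disjoint G A ∧ G ∪ A ∈ T := W1.HslkAux.mem_lk h A
    have hxL : ({x} : Finset V) ∈ lkF T A := by
      rw [hmem, Finset.disjoint_singleton_left, Finset.singleton_union]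
      exact ⟨hxA, hxAT⟩
    have hpL : Pole (lkF T A) x := by
      refine ⟨y, ?_, y2, ?_, ?_⟩
      · rw [hmem, Finset.disjoint_singleton_left, Finset.singleton_union]
        exact ⟨hyA, hyAT⟩
      · intro h1
        rw [hmem] at h1
        exact y3 (h.down _ h1.2 _ Finset.subset_union_left)
      · intro w hw hwx hwy
        rw [hmem, Finset.disjoint_singleton_left, Finset.singleton_union] at hw
        have hwT : ({w} : Finset V) ∈ T :=
          h.down _ hw.2 _ (Finset.singleton_subset_iff.mpr (Finset.mem_insert_self _ _))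
        obtain ⟨w1, w2⟩ := y4 w hwT hwx hwy
        have key : ∀ z : V, z ∉ A → insert z A ∈ T → ({z, w} : Finset V) ∈ T →
            ({z, w} : Finset V) ∈ lkF T A := by
          intro z hz hzA hzw
          rw [hmem]
          refine ⟨?_, ?_⟩
          · rw [Finset.disjoint_insert_left, Finset.disjoint_singleton_left]
            exact ⟨hz, hw.1⟩
          · apply h.flag
            have hfl : ∀ G ∈ T, ∀ a ∈ G, ∀ b ∈ G, ({a, b} : Finset V) ∈ T := by
              intro G hG a ha b hb
              refine h.down _ hG _ ?_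
              intro c hc
              rw [Finset.mem_insert, Finset.mem_singleton] at hc
              rcases hc with rfl | rfl
              · exact ha
              · exact hb
            intro a ha b hb
            rw [Finset.mem_union, Finset.mem_insert, Finset.mem_singleton] at ha hb
            rcases ha with (rfl | rfl) | ha
            · rcases hb with (rfl | rfl) | hb
              · exact hfl _ hzA _ (Finset.mem_insert_self _ _) _ (Finset.mem_insert_self _ _)
              · exact hzw
              · exact hfl _ hzA _ (Finset.mem_insert_self _ _) _ (Finset.mem_insert_of_mem hb)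
            · rcases hb with (rfl | rfl) | hb
              · rw [Finset.pair_comm]
                exact hzw
              · exact hfl _ hw.2 _ (Finset.mem_insert_self _ _) _ (Finset.mem_insert_self _ _)
              · exact hfl _ hw.2 _ (Finset.mem_insert_self _ _) _ (Finset.mem_insert_of_mem hb)
            · rcases hb with (rfl | rfl) | hb
              · exact hfl _ hzA _ (Finset.mem_insert_of_mem ha) _ (Finset.mem_insert_self _ _)
              · exact hfl _ hw.2 _ (Finset.mem_insert_of_mem ha) _ (Finset.mem_insert_self _ _)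
              · exact hfl _ hAT _ ha _ hb
        exact ⟨key x hxA hxAT w1, key y hyA hyAT w2⟩
    have h1 := pole_gg hL hxL hpL
    obtain ⟨l1, l2, l3⟩ := lkF_lkF h hAT hxL
    rw [Finset.singleton_union] at l1 l2 l3
    rw [Finset.card_singleton] at l3
    have h0L : (∅ : Finset V) ∈ lkF T A := r_empty hL
    have g1 := gt_gg hL hxL
    have g2 := gt_gg hL h0L
    rw [Finset.card_empty, Nat.sub_zero] at g2
    rw [Finset.card_singleton] at g1
    rw [← g1, ← g2] at h1
    have hc := h.card_le _ hxAT
    rw [l3] at hc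
    have e1 : gt (lkF T A) (d - A.card) {x} = gt T d (insert x A) := by
      unfold gt
      rw [l1, l3, Finset.card_singleton]
      push_cast [Nat.cast_sub (show A.card ≤ d by omega)]
      ring
    have e2 : gt (lkF T A) (d - A.card) ∅ = gt T d A := by
      unfold gt
      rw [W1.lkF_empty, Finset.card_empty]
      push_cast [Nat.cast_sub (show A.card ≤ d by omega)]
      ring
    rw [← e1, ← e2]
    linarith

/-- Rigidity: the link of a face has the same second entry as the sphere if and only if the sphere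
reduces, away from the star of the face, to the join of the link with a cross-polytope. -/
theorem rig {S : Finset (Finset V)} {d : ℕ} (h : HS k S d) (hd : 2 ≤ d) {F : Finset V}
    (hF : F ∈ S) : gt S d F = gt S d ∅ ↔
    ∃ T, OR d (F ∪ lv S F) S T ∧ F ∈ T ∧ lkF T F = lkF S F ∧ ∀ x ∈ F, Pole T x := by
  constructor
  · intro hg
    exact rig_fwd h hd hF hg F (Finset.Subset.refl _)
  · rintro ⟨T, hT, hFT, hl, hp⟩
    obtain ⟨hT', hgT, -⟩ := OR.keep hd hT h
    have h1 := poles_gt hT' hFT hp F (Finset.Subset.refl _)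
    have e1 := gt_gg h (r_empty h)
    have e2 := gt_gg hT' (r_empty hT')
    rw [Finset.card_empty, Nat.sub_zero] at e1 e2
    rw [← gt_lk hl, h1]
    linarith

end Pool.Agent.MP19e880.DB
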