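import Pool.Agent.Lib.MP_19e880_co_DB.A6

/-!
Spheres whose second entry is at most three.
-/

set_option autoImplicit false
set_option linter.unusedSectionVars false

namespace Pool.Agent.MP19e880.DB

open Pool.Agent.MP19e880 Pool.Agent.MP19e880.W1 Pool.Agent.MP19e880.LD Pool.Agent.MP19e880.FV

variable {V : Type} [Fintype V] [LinearOrder V] {k : Type} [Field k]

/-- Rank 6, second entries of the vertex links at most 4: `GV 3` (`W1.loc` for `lkF S σ` with
`R = ∅`, as in the proof of `LD.ld`: rank 5 by `five_lk`, ranks at most 4 by `Cert.low`). -/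
theorem six_three {S : Finset (Finset V)} {d : ℕ} (h : HS k S d) {g : Finset V → ℕ → ℤ}
    (hg : G3.GV S d g) {σ : Finset V} (hσ : σ ∈ S) (he : σ.card + 6 = d)
    (h4 : ∀ v ∈ lv S σ, g (insert v σ) 2 ≤ 4) :
    GV k (ad (lkF S σ)) (lv (lkF S σ) ∅) 3 := by
  have hL : HS k (lkF S σ) 6 := by
    have h3 := hs_lk h σ hσ
    rwa [show d - σ.card = 6 by omega] at h3
  refine loc (hs_ext k hL) (gen k (ad (lkF S σ))) (fun a b _ hS => gen_zero k hS) ∅ ?_ ?_
  · intro F _ hF
    rw [Finset.subset_empty] at hF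
    rw [hF, Finset.card_empty]
    omega
  · intro ρ hρ hρ0 _ hρn
    have hpos : 0 < ρ.card := Finset.card_pos.mpr (Finset.nonempty_iff_ne_empty.mpr hρ0)
    refine gv_link hL ρ hρ ?_
    have hc : ρ.card = 1 ∨ ρ.card = 2 ∨ ρ.card = 3 := by omega
    rcases hc with hc | hc | hc
    · obtain ⟨e1, e2, e3⟩ := lkF_lkF h hσ hρ
      obtain ⟨h5, _⟩ := (W1.HslkAux.mem_lk h σ ρ).mp hρ
      rw [e1]
      refine five_lk h hg e2 (by omega) ?_ _
      obtain ⟨v, rfl⟩ := Finset.card_eq_one.mp hc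
      rw [Finset.singleton_union] at e2 ⊢
      rw [Finset.disjoint_singleton_left] at h5
      exact h4 v ((mem_lv σ v).mpr ⟨h5, e2⟩)
    · rw [hc]
      refine red_gv (Cert.low (6 - 2) _ _ (by norm_num) (by norm_num)) ?_
      have h3 := hs_lk hL ρ hρ
      rwa [hc] at h3
    · rw [hc]
      refine red_gv (Cert.low (6 - 3) _ _ (by norm_num) (by norm_num)) ?_
      have h3 := hs_lk hL ρ hρ
      rwa [hc] at h3

/-- Rank 6, second entry at most 5: the third entry is nonnegative. If some vertex is full,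
`face_gamma` (rank 5: third entry zero); otherwise `six_three`, `W1.main` with `m = 3` for the
link, `top_gamma`, `lk_sum` (as in `LD.top_lk`). -/
theorem six_five {S : Finset (Finset V)} {d : ℕ} (h : HS k S d) {g : Finset V → ℕ → ℤ}
    (hg : G3.GV S d g) {σ : Finset V} (hσ : σ ∈ S) (he : σ.card + 6 = d) (h5 : g σ 2 ≤ 5) :
    0 ≤ g σ 3 := by
  have hE := TT.eul_of_hs h
  have hLm := G2.lemmaL (fam h hE)
  by_cases hex : ∃ v ∈ lv S σ, g (insert v σ) 2 = g σ 2
  · obtain ⟨v, hv, hv2⟩ := hex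
    obtain ⟨h3, h4⟩ := G3.lv_card_insert (e := 5) he hv
    have hvσ := ((mem_lv σ v).mp hv).1
    have h6 := face_gamma h hg 1 σ (insert v σ) (Finset.subset_insert _ _) h3 (by
      rw [Finset.insert_sdiff_of_notMem _ hvσ, Finset.sdiff_self, insert_empty_eq,
        Finset.card_singleton]) (by omega) hv2
    rw [← h6 3 (by norm_num)]
    exact le_of_eq ((hg _ h3).1 3 (by omega)).symm
  · have hL : HS k (lkF S σ) (2 * 3) := by
      have h3 := hs_lk h σ hσ
      rwa [show d - σ.card = 2 * 3 by omega] at h3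
    have hall : ∀ v ∈ lv S σ, g (insert v σ) 2 ≤ 4 := by
      intro v hv
      have h2 := G3.mono h hE hLm hg σ hσ 6 he (by norm_num) v hv
      have h3 : g (insert v σ) 2 ≠ g σ 2 := fun h4 => hex ⟨v, hv, h4⟩
      have h4 := lt_of_le_of_ne h2 h3
      omega
    have h1 := (main hL (six_three h hg hσ he hall)).1
    rw [lk_sum h.down σ (2 * 3) d he] at h1
    rw [top_gamma hg σ hσ 3 (by omega)]
    exact h1

/-- Rank `e ≥ 7`, all links of rank 6 inside the link of `σ` have second entry at most 2: all `GV`,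
and the entries after the second one vanish. `LD.ld`, `LD.ld_gamma` with `p = 2` for `lkF S σ`
(`gv_lkF`): rank 6: `six_gv`, `six_zero`; rank 5: `five_lk` (`mono_face` from the face with one vertex
of `ρ` less, where `ρ ∪ σ`, `ρ ∈ lkF S σ`, is the face in question); ranks at most 4: `Cert.low`,
`red_gv`. -/
theorem loc_two {S : Finset (Finset V)} {d : ℕ} (h : HS k S d) {g : Finset V → ℕ → ℤ}
    (hg : G3.GV S d g) {σ : Finset V} (hσ : σ ∈ S) {e : ℕ} (he : σ.card + e = d) (he7 : 7 ≤ e)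
    (h2 : ∀ τ ∈ S, σ ⊆ τ → τ.card + 6 = d → g τ 2 ≤ 2) :
    (∀ n, GV k (ad (lkF S σ)) (lv (lkF S σ) ∅) n) ∧ ∀ i, 3 ≤ i → g σ i = 0 := by
  have hde : d - σ.card = e := by omega
  have hL := W1.hs_lk h σ hσ
  have hgL := gv_lkF h hg hσ
  rw [hde] at hL hgL
  -- the certificates of the links of small rank
  have hgv : ∀ ρ ∈ lkF S σ, e ≤ ρ.card + (2 * 2 + 2) →
      GV k (ad (lkF (lkF S σ) ρ)) (lv (lkF (lkF S σ) ρ) ∅) ((e - ρ.card + 1) / 2) := by
    intro ρ hρ hρ6
    obtain ⟨e1, e2, e3⟩ := lkF_lkF h hσ hρ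
    obtain ⟨h5, _⟩ := (W1.HslkAux.mem_lk h σ ρ).mp hρ
    have hcl := hL.card_le ρ hρ
    rw [e1]
    by_cases hr6 : ρ.card + 6 = e
    · exact six_gv h hg e2 (by omega) (h2 _ e2 Finset.subset_union_right (by omega)) _
    by_cases hr5 : ρ.card + 5 = e
    · have hne : ρ.Nonempty := by
        rw [← Finset.card_pos]
        omega
      obtain ⟨v, hv⟩ := hne
      have hvσ : v ∉ σ := Finset.disjoint_left.mp h5 hv
      have hsub : (ρ ∪ σ).erase v ⊆ ρ ∪ σ := Finset.erase_subset _ _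
      have hmem : v ∈ ρ ∪ σ := Finset.mem_union_left _ hv
      have hS' : (ρ ∪ σ).erase v ∈ S := h.down _ e2 _ hsub
      have hc' := Finset.card_erase_add_one hmem
      have h6 := h2 _ hS' (Finset.subset_erase.mpr ⟨Finset.subset_union_right, hvσ⟩) (by omega)
      have h7 := mono_face h hg hsub e2 (by omega)
      exact five_lk h hg e2 (by omega) (by omega) _
    · have hS' := W1.hs_lk h (ρ ∪ σ) e2
      rw [show d - (ρ ∪ σ).card = e - ρ.card by omega] at hS'
      exact red_gv (Cert.low _ _ _ (by omega) (by omega)) hS'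
  have hz : ∀ ρ ∈ lkF S σ, ρ.card + (2 * 2 + 2) = e → g (ρ ∪ σ) (2 + 1) = 0 := by
    intro ρ hρ hρ6
    obtain ⟨e1, e2, e3⟩ := lkF_lkF h hσ hρ
    exact six_zero h hg e2 (by omega) (h2 _ e2 Finset.subset_union_right (by omega))
  have hl : Loc k 2 e (lkF S σ) := by
    refine ⟨hgv, ?_⟩
    intro ρ hρ hρ6
    have h3 := (top_lk hL hgL hρ (2 + 1) (by omega)).2 (hz ρ hρ hρ6)
    rwa [show 2 * (2 + 1) = 2 * 2 + 2 by norm_num] at h3
  refine ⟨(ld (by norm_num) e (lkF S σ) hL hl).2 (by omega), ?_⟩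
  have hmain := ld_gamma hL hgL (p := 2) (by norm_num) hgv hz e ∅
    (hL.flag ∅ (fun a ha => absurd ha (Finset.notMem_empty a))) (by simp) (by omega)
  intro i hi
  have h3 := hmain i (by omega)
  simpa using h3

/-- No full vertex and second entry at most three: the faces of rank 6 above `σ`. -/
private theorem Sgc_two {S : Finset (Finset V)} {d : ℕ} (h : HS k S d) {g : Finset V → ℕ → ℤ}
    (hg : G3.GV S d g) {σ : Finset V} (hσ : σ ∈ S) {e : ℕ} (he : σ.card + e = d) (he7 : 7 ≤ e)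
    (h3 : g σ 2 ≤ 3) (hex : ¬ ∃ v ∈ lv S σ, g (insert v σ) 2 = g σ 2) :
    ∀ τ ∈ S, σ ⊆ τ → τ.card + 6 = d → g τ 2 ≤ 2 := by
  have hE := TT.eul_of_hs h
  have hLm := G2.lemmaL (fam h hE)
  intro τ hτ hστ hc
  obtain ⟨v, hv⟩ : (τ \ σ).Nonempty := by
    rw [← Finset.card_pos, Finset.card_sdiff_of_subset hστ]
    omega
  rw [Finset.mem_sdiff] at hv
  have hsub : insert v σ ⊆ τ := by
    intro w hw
    rw [Finset.mem_insert] at hw
    rcases hw with rfl | hw
    · exact hv.1
    · exact hστ hw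
  have hvl : v ∈ lv S σ := (mem_lv σ v).mpr ⟨hv.2, h.down _ hτ _ hsub⟩
  have h4 := mono_face h hg hsub hτ (by omega)
  have h5 := G3.mono h hE hLm hg σ hσ e he (by omega) v hvl
  have h6 : g (insert v σ) 2 ≠ g σ 2 := fun h7 => hex ⟨v, hvl, h7⟩
  have h7 := lt_of_le_of_ne h5 h6
  omega

/-- Rank at least 7, second entry at most 3: all `GV`. If some vertex is full, `full_cert_lk` and
`red_gv`; otherwise the second entries of the vertex links are at most 2 and `loc_two`
(`mono_face`). -/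
theorem three_gv {S : Finset (Finset V)} {d : ℕ} (h : HS k S d) {g : Finset V → ℕ → ℤ}
    (hg : G3.GV S d g) {σ : Finset V} (hσ : σ ∈ S) {e : ℕ} (he : σ.card + e = d) (he7 : 7 ≤ e)
    (h3 : g σ 2 ≤ 3) : ∀ n, GV k (ad (lkF S σ)) (lv (lkF S σ) ∅) n := by
  by_cases hex : ∃ v ∈ lv S σ, g (insert v σ) 2 = g σ 2
  · obtain ⟨v, hv, hv2⟩ := hex
    have hL := W1.hs_lk h σ hσ
    rw [show d - σ.card = e by omega] at hL
    intro n
    exact red_gv (full_cert_lk h hg hσ hv he (by omega) hv2 n) hL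
  · exact (loc_two h hg hσ he he7 (Sgc_two h hg hσ he he7 h3 hex)).1

/-- Second entry at most 3: induction on `e`; `e ≤ 5`: zero; `e = 6`: `six_five`; `e ≥ 7`: if some
vertex is full, `face_gamma` and induction; otherwise `loc_two`. -/
theorem three_gamma {S : Finset (Finset V)} {d : ℕ} (h : HS k S d) {g : Finset V → ℕ → ℤ}
    (hg : G3.GV S d g) : ∀ (e : ℕ) (σ : Finset V), σ ∈ S → σ.card + e = d → 4 ≤ e →
      g σ 2 ≤ 3 → 0 ≤ g σ 3 ∧ ∀ i, 4 ≤ i → g σ i = 0 := by
  intro e
  induction e with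
  | zero =>
    intro σ _ _ h4
    omega
  | succ e ih =>
    intro σ hσ he he4 hle
    by_cases he6 : e + 1 < 6
    · exact ⟨le_of_eq ((hg σ hσ).1 3 (by omega)).symm, fun i hi => (hg σ hσ).1 i (by omega)⟩
    by_cases he7 : 7 ≤ e + 1
    · by_cases hex : ∃ v ∈ lv S σ, g (insert v σ) 2 = g σ 2
      · obtain ⟨v, hv, hv2⟩ := hex
        obtain ⟨h3, h4⟩ := G3.lv_card_insert he hv
        have hvσ := ((mem_lv σ v).mp hv).1
        have h5 := face_gamma h hg 1 σ (insert v σ) (Finset.subset_insert _ _) h3 (by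
          rw [Finset.insert_sdiff_of_notMem _ hvσ, Finset.sdiff_self, insert_empty_eq,
            Finset.card_singleton]) (by omega) hv2
        obtain ⟨h6, h7⟩ := ih (insert v σ) h3 h4 (by omega) (by rw [hv2]; exact hle)
        rw [h5 3 (by norm_num)] at h6
        exact ⟨h6, fun i hi => by rw [← h5 i (by omega)]; exact h7 i hi⟩
      · have h2 := (loc_two h hg hσ he he7 (Sgc_two h hg hσ he he7 hle hex)).2
        exact ⟨le_of_eq (h2 3 (by norm_num)).symm, fun i hi => h2 i (by omega)⟩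
    · exact ⟨six_five h hg hσ (by omega) (by omega), fun i hi => (hg σ hσ).1 i (by omega)⟩

end Pool.Agent.MP19e880.DB
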