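import Pool.Agent.Lib.MP_19e880_co_DB.Tin
import Pool.Agent.Lib.MP_19e880_co_FV.Poly

/-!
The inequalities for the links of vertices in spheres of rank 5 and 6.
-/

set_option autoImplicit false
set_option linter.unusedSectionVars false

namespace Pool.Agent.MP19e880.DB

open Pool.Agent.MP19e880 Pool.Agent.MP19e880.FV Pool.Agent.MP19e880.Low Pool.Agent.MP19e880.G2

variable {V : Type} [Fintype V] [LinearOrder V] {k : Type} [Field k]

/-- The second entry vanishes in the ranks at most 3 (rank 3: `dg = 6 n - 12`; rank 2: `dg = 2 n`,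
rank 1: two points, rank 0: empty). -/
theorem low_zero {S : Finset (Finset V)} {d : ℕ} (h : HS k S d) {σ : Finset V} (hσ : σ ∈ S)
    {e : ℕ} (he : σ.card + e = d) (h3 : e ≤ 3) : gg S e σ = 0 := by
  have hE := TT.eul_of_hs h
  have hf0 := fn_zero S σ hσ
  have hdg := dg_face h hE σ
  have hf1 := fn_one S hE.down σ
  unfold gg Fam.g2
  rw [hdg, ← hf1]
  push_cast
  obtain rfl | rfl | rfl | rfl : e = 0 ∨ e = 1 ∨ e = 2 ∨ e = 3 := by omega
  · have h1 : lv S σ = ∅ := ((fam h hE).zero (lv S σ)).mp ⟨σ, hσ, rfl, he⟩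
    have h2 : dg (Adj S) (lv S σ) = 0 := by
      rw [h1]
      rfl
    rw [hdg] at h2
    rw [h1, Finset.card_empty] at hf1
    have h4 : fn S σ 2 = 0 := by omega
    rw [h4, hf1]
    norm_num
  · obtain ⟨a, b, hab, hA, hC⟩ := (fam h hE).one (lv S σ) ⟨σ, hσ, rfl, he⟩
    have h2 : dg (Adj S) (lv S σ) = 0 := by
      unfold dg
      refine Finset.sum_eq_zero fun v hv => ?_
      rw [Finset.card_eq_zero, Finset.eq_empty_iff_forall_notMem]
      intro y hy
      rw [mem_nb] at hy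
      rw [hC] at hv
      have hy1 := hy.1
      rw [hC] at hy1
      rw [Finset.mem_insert, Finset.mem_singleton] at hv hy1
      rcases hv with rfl | rfl <;> rcases hy1 with rfl | rfl
      · exact (fam h hE).irr _ hy.2
      · exact hA hy.2
      · exact hA ((fam h hE).symm _ _ hy.2)
      · exact (fam h hE).irr _ hy.2
    rw [hdg] at h2
    rw [hC, Finset.card_pair hab] at hf1
    have h4 : fn S σ 2 = 0 := by omega
    rw [h4, hf1]
    norm_num
  · have e0 := hE.ev σ hσ 2 he 0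
    have e2 := hE.ev σ hσ 2 he 2
    simp only [Finset.sum_range_succ, Finset.sum_range_zero, hf0] at e0 e2
    norm_num at e0 e2
    push_cast
    linarith
  · have e0 := hE.ev σ hσ 3 he 0
    have e2 := hE.ev σ hσ 3 he 2
    simp only [Finset.sum_range_succ, Finset.sum_range_zero, hf0] at e0 e2
    norm_num at e0 e2
    push_cast
    linarith

private theorem tes_D {S : Finset (Finset V)} {d : ℕ} (h : HS k S d) {σ : Finset V} {r : V}
    (hr : r ∉ σ) (hσ : insert r σ ∈ S) (e : ℕ) {t : ℤ} (ht : t = (e : ℤ) + 1) :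
    D (Adj S) (lv S σ) t r = gg S (e + 1) σ - gg S e (insert r σ) := by
  have h1 : r ∈ lv S σ := (mem_lv σ r).mpr ⟨hr, hσ⟩
  unfold D gg
  rw [nb_lv h (TT.eul_of_hs h) σ r h1, ht]
  push_cast
  rw [add_sub_cancel_right]

private theorem tes_g {S : Finset (Finset V)} {d : ℕ} (h : HS k S d) {g : Finset V → ℕ → ℤ}
    (hg : G3.GV S d g) {σ : Finset V} (hσ : σ ∈ S) (e : ℕ) (he : σ.card + e = d) (h4 : 4 ≤ e) :
    gg S e σ = 2 * g σ 2 :=
  G3.two_g2 h (TT.eul_of_hs h) hg σ hσ e he h4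

private theorem tes_nb {S : Finset (Finset V)} {d : ℕ} (h : HS k S d) {σ : Finset V} {r : V}
    (hr : r ∉ σ) (hσ : insert r σ ∈ S) : Low.nb (Adj S) (lv S σ) r = lv S (insert r σ) :=
  nb_lv h (TT.eul_of_hs h) σ r ((mem_lv σ r).mpr ⟨hr, hσ⟩)

private theorem tes_n1 {a b : V} (h : a ≠ b) : a ∉ ({b} : Finset V) := by
  rwa [Finset.mem_singleton]

private theorem tes_n2 {a b c : V} (h : a ≠ b) (h' : a ≠ c) : a ∉ ({b, c} : Finset V) := by
  rw [Finset.mem_insert, Finset.mem_singleton, not_or]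
  exact ⟨h, h'⟩

private theorem tes_n3 {a b c d : V} (h : a ≠ b) (h' : a ≠ c) (h2 : a ≠ d) :
    a ∉ ({b, c, d} : Finset V) := by
  rw [Finset.mem_insert, not_or]
  exact ⟨h, tes_n2 h' h2⟩

/-- The loss at `r` in rank 6. -/
private theorem tes_L0 {S : Finset (Finset V)} (h : HS k S 6) {g : Finset V → ℕ → ℤ}
    (hg : G3.GV S 6 g) {r : V} (hr : ({r} : Finset V) ∈ S) {t : ℤ} (ht : t = 6) :
    D (Adj S) (lv S ∅) t r = 2 * (g ∅ 2 - g {r} 2) := by
  have h0 : (∅ : Finset V) ∈ S := h.down _ hr _ (Finset.empty_subset _)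
  have h1 := tes_D h (Finset.notMem_empty r) (by rwa [insert_empty_eq]) 5
    (t := t) (by rw [ht]; norm_num)
  rw [h1, insert_empty_eq, tes_g h hg h0 6 (by simp) (by norm_num),
    tes_g h hg hr 5 (by simp) (by norm_num)]
  ring

/-- The loss at `r` in the link of `a`. -/
private theorem tes_L1 {S : Finset (Finset V)} (h : HS k S 6) {g : Finset V → ℕ → ℤ}
    (hg : G3.GV S 6 g) {a r : V} (har : a ≠ r) (hS : ({a, r} : Finset V) ∈ S) {t : ℤ}
    (ht : t = 5) :
    D (Adj S) (Low.nb (Adj S) (lv S ∅) a) t r = 2 * (g {a} 2 - g {a, r} 2) := by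
  have ha : ({a} : Finset V) ∈ S := h.down _ hS _ (by simp)
  rw [tes_nb h (Finset.notMem_empty a) (by rwa [insert_empty_eq]), insert_empty_eq]
  have h1 := tes_D h (tes_n1 har.symm) (by rwa [Finset.pair_comm]) 4
    (t := t) (by rw [ht]; norm_num)
  rw [h1, Finset.pair_comm r a, tes_g h hg ha 5 (by simp) (by norm_num),
    tes_g h hg hS 4 (by rw [Finset.card_pair har]) (by norm_num)]
  ring

/-- The loss at `r` in the link of `a, b`. -/
private theorem tes_L2 {S : Finset (Finset V)} (h : HS k S 6) {g : Finset V → ℕ → ℤ}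
    (hg : G3.GV S 6 g) {a b r : V} (hab : a ≠ b) (har : a ≠ r) (hbr : b ≠ r)
    (hS : ({a, b, r} : Finset V) ∈ S) {t : ℤ} (ht : t = 4) :
    D (Adj S) (Low.nb (Adj S) (Low.nb (Adj S) (lv S ∅) a) b) t r = 2 * g {a, b} 2 := by
  have ha : ({a} : Finset V) ∈ S := h.down _ hS _ (by simp)
  have hba : ({b, a} : Finset V) ∈ S := h.down _ hS _ (by
    intro x hx
    simp only [Finset.mem_insert, Finset.mem_singleton] at hx ⊢
    tauto)
  have hrba : ({r, b, a} : Finset V) ∈ S := h.down _ hS _ (by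
    intro x hx
    simp only [Finset.mem_insert, Finset.mem_singleton] at hx ⊢
    tauto)
  rw [tes_nb h (Finset.notMem_empty a) (by rwa [insert_empty_eq]), insert_empty_eq,
    tes_nb h (tes_n1 hab.symm) hba]
  have h1 := tes_D h (tes_n2 hbr.symm har.symm) hrba 3 (t := t) (by rw [ht]; norm_num)
  rw [h1, low_zero h hrba (e := 3) (by
      rw [Finset.card_insert_of_notMem (tes_n2 hbr.symm har.symm), Finset.card_pair hab.symm])
    (by norm_num), tes_g h hg hba 4 (by rw [Finset.card_pair hab.symm]) (by norm_num),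
    Finset.pair_comm b a]
  ring

/-- The loss at `r` in the link of `a, b, c`. -/
private theorem tes_L3 {S : Finset (Finset V)} (h : HS k S 6) {a b c r : V} (hab : a ≠ b)
    (hac : a ≠ c) (hbc : b ≠ c) (har : a ≠ r) (hbr : b ≠ r) (hcr : c ≠ r)
    (hS : ({a, b, c, r} : Finset V) ∈ S) {t : ℤ} (ht : t = 3) :
    D (Adj S) (Low.nb (Adj S) (Low.nb (Adj S) (Low.nb (Adj S) (lv S ∅) a) b) c) t r = 0 := by
  have ha : ({a} : Finset V) ∈ S := h.down _ hS _ (by simp)
  have hba : ({b, a} : Finset V) ∈ S := h.down _ hS _ (by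
    intro x hx
    simp only [Finset.mem_insert, Finset.mem_singleton] at hx ⊢
    tauto)
  have hcba : ({c, b, a} : Finset V) ∈ S := h.down _ hS _ (by
    intro x hx
    simp only [Finset.mem_insert, Finset.mem_singleton] at hx ⊢
    tauto)
  have hrcba : ({r, c, b, a} : Finset V) ∈ S := h.down _ hS _ (by
    intro x hx
    simp only [Finset.mem_insert, Finset.mem_singleton] at hx ⊢
    tauto)
  rw [tes_nb h (Finset.notMem_empty a) (by rwa [insert_empty_eq]), insert_empty_eq,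
    tes_nb h (tes_n1 hab.symm) hba, tes_nb h (tes_n2 hbc.symm hac.symm) hcba]
  have h1 := tes_D h (tes_n3 hcr.symm hbr.symm har.symm) hrcba 2 (t := t)
    (by rw [ht]; norm_num)
  have hc3 : ({c, b, a} : Finset V).card = 3 := by
    rw [Finset.card_insert_of_notMem (tes_n2 hbc.symm hac.symm), Finset.card_pair hab.symm]
  rw [h1, low_zero h hrcba (e := 2) (by
      rw [Finset.card_insert_of_notMem (tes_n3 hcr.symm hbr.symm har.symm), hc3])
    (by norm_num), low_zero h hcba (e := 3) (by rw [hc3]) (by norm_num)]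
  ring

private theorem tes_adj {S : Finset (Finset V)} {d : ℕ} (h : HS k S d) {F : Finset V} (hF : F ∈ S)
    {a b : V} (hab : a ≠ b) (ha : a ∈ F) (hb : b ∈ F) : Adj S a b :=
  ⟨hab, h.down _ hF _ (by
    intro x hx
    rw [Finset.mem_insert, Finset.mem_singleton] at hx
    rcases hx with rfl | rfl
    · exact ha
    · exact hb)⟩

private theorem tes_lv {S : Finset (Finset V)} {d : ℕ} (h : HS k S d) {F : Finset V} (hF : F ∈ S)
    {a : V} (ha : a ∈ F) : a ∈ lv S ∅ := by
  refine (mem_lv ∅ a).mpr ⟨Finset.notMem_empty a, ?_⟩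
  rw [insert_empty_eq]
  exact h.down _ hF _ (Finset.singleton_subset_iff.mpr ha)

/-- `T1` in rank 5: two vertices `b ≠ c` whose links have the same second entry `1` as the whole
are not adjacent. (`T1` with `r = b`, `a = c`: `2 (g ∅ - g {b}) ≥ g {c} - g {b, c}`, where the link
of `{b, c}` has rank 3.) -/
theorem full_na {S : Finset (Finset V)} (h : HS k S 5) {g : Finset V → ℕ → ℤ} (hg : G3.GV S 5 g)
    {b c : V} (hbc : b ≠ c) (hS : ({b, c} : Finset V) ∈ S) (hb : g {b} 2 = g ∅ 2) :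
    g {c} 2 ≤ 0 := by
  have hE := TT.eul_of_hs h
  have h0 : (∅ : Finset V) ∈ S := h.down _ hS _ (Finset.empty_subset _)
  have hbS : ({b} : Finset V) ∈ S := h.down _ hS _ (by simp)
  have hcS : ({c} : Finset V) ∈ S := h.down _ hS _ (by simp)
  have h1 := T1 (fam h hE) (m := 3) (U := lv S ∅) ⟨∅, h0, rfl, by simp⟩ (r := b) (a := c)
    (tes_lv h hbS (by simp)) (tes_lv h hcS (by simp)) (tes_adj h hS hbc.symm (by simp) (by simp))
  rw [tes_D h (Finset.notMem_empty b) (by rwa [insert_empty_eq]) 4 (by norm_num),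
    tes_nb h (Finset.notMem_empty c) (by rwa [insert_empty_eq]), insert_empty_eq,
    insert_empty_eq, tes_D h (tes_n1 hbc) hS 3 (by norm_num),
    tes_g h hg h0 5 (by simp) (by norm_num), tes_g h hg hbS 4 (by simp) (by norm_num),
    tes_g h hg hcS 4 (by simp) (by norm_num),
    low_zero h hS (e := 3) (by rw [Finset.card_pair hbc]) (by norm_num)] at h1
  linarith

/-- `T3` in rank 6. -/
theorem tri {S : Finset (Finset V)} (h : HS k S 6) {g : Finset V → ℕ → ℤ} (hg : G3.GV S 6 g)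
    {a b c r : V} (hS : ({a, b, c, r} : Finset V) ∈ S) (hab : a ≠ b) (hac : a ≠ c) (hbc : b ≠ c)
    (har : a ≠ r) (hbr : b ≠ r) (hcr : c ≠ r) :
    0 ≤ 8 * (g ∅ 2 - g {r} 2) - 4 * (g {a} 2 - g {a, r} 2) - 4 * (g {b} 2 - g {b, r} 2) -
      4 * (g {c} 2 - g {c, r} 2) + 2 * g {a, b} 2 + 2 * g {a, c} 2 + 2 * g {b, c} 2 := by
  have hE := TT.eul_of_hs h
  have hd : ∀ F : Finset V, (∀ x ∈ F, x ∈ ({a, b, c, r} : Finset V)) → F ∈ S :=
    fun F hF => h.down _ hS _ hF
  have h1 := T3 (fam h hE) (m := 4) (U := lv S ∅)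
    ⟨∅, h.down _ hS _ (Finset.empty_subset _), rfl, by simp⟩ (r := r) (a := a) (b := b) (c := c)
    (tes_lv h hS (by simp)) (tes_lv h hS (by simp)) (tes_lv h hS (by simp))
    (tes_lv h hS (by simp)) (tes_adj h hS har (by simp) (by simp))
    (tes_adj h hS hbr (by simp) (by simp)) (tes_adj h hS hcr (by simp) (by simp))
    (tes_adj h hS hab (by simp) (by simp)) (tes_adj h hS hac (by simp) (by simp))
    (tes_adj h hS hbc (by simp) (by simp))
  rw [tes_L0 h hg (hd {r} (by simp)) (by norm_num),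
    tes_L1 h hg har (hd {a, r} (by simp)) (by norm_num),
    tes_L1 h hg hbr (hd {b, r} (by simp)) (by norm_num),
    tes_L1 h hg hcr (hd {c, r} (by simp)) (by norm_num),
    tes_L2 h hg hab har hbr (hd {a, b, r} (by simp)) (by norm_num),
    tes_L2 h hg hac har hcr (hd {a, c, r} (by simp)) (by norm_num),
    tes_L2 h hg hbc hbr hcr (hd {b, c, r} (by simp)) (by norm_num),
    tes_L3 h hab hac hbc har hbr hcr hS (by norm_num)] at h1
  linarith

/-- `U3` in rank 6. -/
theorem vee {S : Finset (Finset V)} (h : HS k S 6) {g : Finset V → ℕ → ℤ} (hg : G3.GV S 6 g)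
    {a b c r : V} (haS : ({a, c, r} : Finset V) ∈ S) (hbS : ({b, c, r} : Finset V) ∈ S)
    (hab : a ≠ b) (hac : a ≠ c) (hbc : b ≠ c) (har : a ≠ r) (hbr : b ≠ r) (hcr : c ≠ r)
    (hno : ({a, b} : Finset V) ∉ S) :
    0 ≤ 16 * (g ∅ 2 - g {r} 2) - 8 * (g {c} 2 - g {c, r} 2) - 8 * (g {a} 2 - g {a, r} 2) -
      6 * (g {b} 2 - g {b, r} 2) + 4 * g {a, c} 2 + 3 * g {b, c} 2 := by
  have hE := TT.eul_of_hs h
  have hd : ∀ F : Finset V, (∀ x ∈ F, x ∈ ({a, c, r} : Finset V)) → F ∈ S :=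
    fun F hF => h.down _ haS _ hF
  have hd' : ∀ F : Finset V, (∀ x ∈ F, x ∈ ({b, c, r} : Finset V)) → F ∈ S :=
    fun F hF => h.down _ hbS _ hF
  have h1 := U3 (fam h hE) (m := 4) (U := lv S ∅)
    ⟨∅, h.down _ haS _ (Finset.empty_subset _), rfl, by simp⟩ (r := r) (a := a) (b := b) (c := c)
    (tes_lv h haS (by simp)) (tes_lv h haS (by simp)) (tes_lv h hbS (by simp))
    (tes_lv h haS (by simp)) (tes_adj h haS har (by simp) (by simp))
    (tes_adj h hbS hbr (by simp) (by simp)) (tes_adj h haS hcr (by simp) (by simp))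
    hab (fun h' => hno h'.2) (tes_adj h haS hac (by simp) (by simp))
    (tes_adj h hbS hbc (by simp) (by simp))
  rw [tes_L0 h hg (hd {r} (by simp)) (by norm_num),
    tes_L1 h hg hcr (hd {c, r} (by simp)) (by norm_num),
    tes_L1 h hg har (hd {a, r} (by simp)) (by norm_num),
    tes_L1 h hg hbr (hd' {b, r} (by simp)) (by norm_num),
    tes_L2 h hg hac har hcr haS (by norm_num),
    tes_L2 h hg hbc hbr hcr hbS (by norm_num)] at h1
  linarith

end Pool.Agent.MP19e880.DB
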