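import Pool.Agent.Lib.MP_19e880_co_DB.DblF
import Pool.Agent.Lib.MP_19e880_co_DB.DblG

/-!
Linear inequalities between second entries of links, by doubling.
-/

set_option autoImplicit false
set_option linter.unusedSectionVars false

namespace Pool.Agent.MP19e880.DB

open Pool.Agent.MP19e880.Low Pool.Agent.MP19e880.G2

variable {V : Type} [DecidableEq V] {A : V → V → Prop} {F : ℕ → Finset V → Prop}

/-- The loss of the second entry at the vertex `r`. -/
noncomputable def D (A : V → V → Prop) (U : Finset V) (t : ℤ) (r : V) : ℤ :=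
  Fam.g2 A U t - Fam.g2 A (nb A U r) (t - 1)

theorem nb_comm (U : Finset V) (a b : V) : nb A (nb A U a) b = nb A (nb A U b) a := by
  ext x
  simp only [mem_nb]
  tauto

private theorem t21 (m : ℕ) : (m : ℤ) + 2 - 1 = m + 1 := by ring

private theorem t10 (m : ℕ) : (m : ℤ) + 1 - 1 = m := by ring

private theorem dF_mem {m : ℕ} {U : Finset V} (hU : F m U) {c : V} (hc : c ∈ U) :
    dF A F c m (dS A c U) := ⟨U, hU, Or.inr ⟨hc, rfl⟩⟩

private theorem de_mem (h : Fam A F) {U : Finset V} {c x : V} (hx : x ∈ U) (hcx : A c x) :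
    de A c false x ∈ dS A c U := by
  rw [mem_dS]
  refine ⟨hx, fun h' => ?_, fun _ => ?_⟩
  · have h2 : x = c := h'
    rw [h2] at hcx
    exact h.irr _ hcx
  · unfold de
    simp

private theorem de_mem' {U : Finset V} {c x : V} (hx : x ∈ U) (hne : x ≠ c) (hcx : ¬ A c x)
    (i : Bool) : de A c i x ∈ dS A c U := by
  rw [mem_dS]
  exact ⟨hx, hne, fun h' => absurd h' hcx⟩

/-- The loss in the double along a neighbour `c` of `r`. -/
theorem D_dS (h : Fam A F) {U : Finset V} {t : ℤ} {r c : V} (hc : c ∈ U) (hcr : A c r)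
    (i : Bool) :
    D (dA A c) (dS A c U) t (de A c i r) = 2 * D A U t r - D A (nb A U c) (t - 1) r := by
  unfold D
  rw [nb_in c i U r hcr, g2_dS h.symm h.irr c U hc,
    g2_dS h.symm h.irr c (nb A U r) (mem_nb.mpr ⟨hc, h.symm _ _ hcr⟩), nb_comm U r c]
  ring

/-- The loss in the link of the copy of a neighbour `a` of `c` in the double along `c`. -/
theorem D_in (h : Fam A F) {U : Finset V} {t : ℤ} {r c a : V} (hc : c ∈ U) (hcr : A c r)
    (hca : A c a) (i j : Bool) :
    D (dA A c) (nb (dA A c) (dS A c U) (de A c j a)) t (de A c i r) =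
      2 * D A (nb A U a) t r - D A (nb A (nb A U c) a) (t - 1) r := by
  rw [nb_in c j U a hca, D_dS h (mem_nb.mpr ⟨hc, h.symm _ _ hca⟩) hcr, nb_comm U a c]

/-- The loss in the link of the copy of a non-neighbour `a` of `c` in the double along `c`. -/
theorem D_out (h : Fam A F) {U : Finset V} {t : ℤ} {r c a : V} (hcr : A c r)
    (hca : ¬ A c a) (i j : Bool) :
    D (dA A c) (nb (dA A c) (dS A c U) (de A c j a)) t (de A c i r) =
      D A (nb A U a) t r := by
  have h1 : de A c i r = de A c j r := by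
    unfold de
    rw [if_pos hcr, if_pos hcr]
  unfold D
  rw [nb_out h.symm c j U a hca, h1, nb_im, g2_im, g2_im]

theorem T0 (h : Fam A F) {m : ℕ} {U : Finset V} (hU : F (m + 2) U) {r : V} (hr : r ∈ U) :
    0 ≤ D A U (m + 2) r := by
  have h1 := g2_link h (lemmaL h) m U r hU hr
  unfold D
  rw [t21]
  push_cast at h1
  linarith

/-- `T0` in the double along `a`. -/
theorem T1 (h : Fam A F) {m : ℕ} {U : Finset V} (hU : F (m + 2) U) {r a : V} (hr : r ∈ U)
    (ha : a ∈ U) (har : A a r) :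
    0 ≤ 2 * D A U (m + 2) r - D A (nb A U a) (m + 1) r := by
  have h1 := T0 (fam_dbl h a) (dF_mem hU ha) (de_mem h hr har)
  rw [D_dS h ha har, t21] at h1
  exact h1

/-- `T1` in the double along `b`. -/
theorem T2 (h : Fam A F) {m : ℕ} {U : Finset V} (hU : F (m + 2) U) {r a b : V} (hr : r ∈ U)
    (ha : a ∈ U) (hb : b ∈ U) (har : A a r) (hbr : A b r) (hab : A a b) :
    0 ≤ 4 * D A U (m + 2) r - 2 * D A (nb A U a) (m + 1) r - 2 * D A (nb A U b) (m + 1) r +
      D A (nb A (nb A U a) b) m r := by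
  have h1 := T1 (fam_dbl h b) (dF_mem hU hb) (de_mem h hr hbr)
    (de_mem h ha (h.symm _ _ hab)) ((dA_de b false a r).mpr har)
  rw [D_dS h hb hbr, D_in h hb hbr (h.symm _ _ hab), t21, t10, nb_comm U b a] at h1
  linarith

/-- `T2` in the double along `c`. -/
theorem T3 (h : Fam A F) {m : ℕ} {U : Finset V} (hU : F (m + 2) U) {r a b c : V} (hr : r ∈ U)
    (ha : a ∈ U) (hb : b ∈ U) (hc : c ∈ U) (har : A a r) (hbr : A b r) (hcr : A c r)
    (hab : A a b) (hac : A a c) (hbc : A b c) :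
    0 ≤ 8 * D A U (m + 2) r - 4 * D A (nb A U a) (m + 1) r - 4 * D A (nb A U b) (m + 1) r -
      4 * D A (nb A U c) (m + 1) r + 2 * D A (nb A (nb A U a) b) m r +
      2 * D A (nb A (nb A U a) c) m r + 2 * D A (nb A (nb A U b) c) m r -
      D A (nb A (nb A (nb A U a) b) c) (m - 1) r := by
  have h1 := T2 (fam_dbl h c) (dF_mem hU hc) (de_mem h hr hcr)
    (de_mem h ha (h.symm _ _ hac)) (de_mem h hb (h.symm _ _ hbc))
    ((dA_de c false a r).mpr har) ((dA_de c false b r).mpr hbr)
    ((dA_de c false a b).mpr hab)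
  rw [D_dS h hc hcr, D_in h hc hcr (h.symm _ _ hac), D_in h hc hcr (h.symm _ _ hbc),
    nb_in c false U a (h.symm _ _ hac),
    D_in h (mem_nb.mpr ⟨hc, hac⟩) hcr (h.symm _ _ hbc), t21, t10,
    nb_comm U c a, nb_comm U c b, nb_comm (nb A U a) c b] at h1
  linarith

/-- `T1` at a copy of `b` in the double along `a`. -/
theorem U1 (h : Fam A F) {m : ℕ} {U : Finset V} (hU : F (m + 2) U) {r a b : V} (hr : r ∈ U)
    (ha : a ∈ U) (hb : b ∈ U) (har : A a r) (hbr : A b r) (hne : a ≠ b) (hab : ¬ A a b) :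
    0 ≤ 4 * D A U (m + 2) r - 2 * D A (nb A U a) (m + 1) r - D A (nb A U b) (m + 1) r := by
  have h1 := T1 (fam_dbl h a) (dF_mem hU ha) (de_mem h hr har)
    (de_mem' hb hne.symm hab false) ((dA_de a false b r).mpr hbr)
  rw [D_dS h ha har, D_out h har hab, t21] at h1
  linarith

/-- `U1` at the two copies of `b` in the double along `a`. -/
theorem U2 (h : Fam A F) {m : ℕ} {U : Finset V} (hU : F (m + 2) U) {r a b : V} (hr : r ∈ U)
    (ha : a ∈ U) (hb : b ∈ U) (har : A a r) (hbr : A b r) (hne : a ≠ b) (hab : ¬ A a b) :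
    0 ≤ 8 * D A U (m + 2) r - 4 * D A (nb A U a) (m + 1) r - 3 * D A (nb A U b) (m + 1) r := by
  have h1 := U1 (fam_dbl h a) (dF_mem hU ha) (de_mem h hr har)
    (de_mem' hb hne.symm hab false) (de_mem' hb hne.symm hab true)
    ((dA_de a false b r).mpr hbr) (show dA A a (de A a true b) (de A a false r) from
      ⟨hbr, Or.inr (Or.inr har)⟩)
    (by
      intro h2
      have h3 := congrArg Prod.snd h2
      unfold de at h3
      simp [hab] at h3)
    (fun h2 => h.irr b h2.1)
  rw [D_dS h ha har, D_out h har hab, D_out h har hab, t21] at h1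
  linarith

/-- `U2` in the double along `c`. -/
theorem U3 (h : Fam A F) {m : ℕ} {U : Finset V} (hU : F (m + 2) U) {r a b c : V} (hr : r ∈ U)
    (ha : a ∈ U) (hb : b ∈ U) (hc : c ∈ U) (har : A a r) (hbr : A b r) (hcr : A c r)
    (hne : a ≠ b) (hab : ¬ A a b) (hac : A a c) (hbc : A b c) :
    0 ≤ 16 * D A U (m + 2) r - 8 * D A (nb A U c) (m + 1) r - 8 * D A (nb A U a) (m + 1) r -
      6 * D A (nb A U b) (m + 1) r + 4 * D A (nb A (nb A U a) c) m r +
      3 * D A (nb A (nb A U b) c) m r := by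
  have h1 := U2 (fam_dbl h c) (dF_mem hU hc) (de_mem h hr hcr)
    (de_mem h ha (h.symm _ _ hac)) (de_mem h hb (h.symm _ _ hbc))
    ((dA_de c false a r).mpr har) ((dA_de c false b r).mpr hbr)
    (fun h2 => hne (de_inj c false h2)) (fun h2 => hab ((dA_de c false a b).mp h2))
  rw [D_dS h hc hcr, D_in h hc hcr (h.symm _ _ hac), D_in h hc hcr (h.symm _ _ hbc),
    t21, t10, nb_comm U c a, nb_comm U c b] at h1
  linarith

end Pool.Agent.MP19e880.DB
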